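import Mathlib

/-!
# Matroid intersection for rank functions
-/

set_option autoImplicit false

namespace Pool.Agent.FCCov

variable {Ω : Type*} [DecidableEq Ω]

/-- rank function of a matroid -/
structure IsRk (r : Finset Ω → ℕ) : Prop where
  empty : r ∅ = 0
  mono : ∀ X Y, X ⊆ Y → r X ≤ r Y
  unit : ∀ X a, r (insert a X) ≤ r X + 1
  submod : ∀ X Y, r (X ∪ Y) + r (X ∩ Y) ≤ r X + r Y

lemma IsRk.insert_of_zero {r : Finset Ω → ℕ} (h : IsRk r) {a : Ω} (ha : r {a} = 0)
    (X : Finset Ω) : r (insert a X) = r X := by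
  apply le_antisymm
  · have h1 := h.submod {a} X
    rw [ha, ← Finset.insert_eq] at h1
    omega
  · exact h.mono _ _ (Finset.subset_insert a X)

lemma IsRk.le_card {r : Finset Ω → ℕ} (h : IsRk r) (X : Finset Ω) : r X ≤ X.card := by
  induction X using Finset.induction_on with
  | empty => rw [h.empty]; exact Nat.zero_le _
  | insert a X ha ih =>
    rw [Finset.card_insert_of_notMem ha]
    exact (h.unit X a).trans (by omega)

/-- contraction -/
lemma IsRk.contract {r : Finset Ω → ℕ} (h : IsRk r) {a : Ω} (ha : 1 ≤ r {a}) :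
    IsRk (fun X => r (insert a X) - 1) := by
  have hpos : ∀ X, 1 ≤ r (insert a X) := fun X =>
    ha.trans (h.mono _ _ (Finset.singleton_subset_iff.2 (Finset.mem_insert_self a X)))
  have h1 : r {a} = 1 := by
    apply le_antisymm _ ha
    have := h.unit ∅ a
    rw [h.empty] at this
    simpa using this
  refine ⟨?_, ?_, ?_, ?_⟩
  · show r (insert a ∅) - 1 = 0
    have : (insert a ∅ : Finset Ω) = {a} := rfl
    rw [this, h1]
  · intro X Y hXY
    have := h.mono _ _ (Finset.insert_subset_insert a hXY)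
    show r (insert a X) - 1 ≤ r (insert a Y) - 1
    omega
  · intro X b
    show r (insert a (insert b X)) - 1 ≤ r (insert a X) - 1 + 1
    have h2 := h.unit (insert a X) b
    rw [Finset.insert_comm] at h2
    have := hpos X
    omega
  · intro X Y
    show r (insert a (X ∪ Y)) - 1 + (r (insert a (X ∩ Y)) - 1) ≤
      r (insert a X) - 1 + (r (insert a Y) - 1)
    have h2 := h.submod (insert a X) (insert a Y)
    have e1 : insert a X ∪ insert a Y = insert a (X ∪ Y) := by
      ext x; simp only [Finset.mem_union, Finset.mem_insert]; tauto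
    have e2 : insert a X ∩ insert a Y = insert a (X ∩ Y) := by
      ext x; simp only [Finset.mem_inter, Finset.mem_insert]; tauto
    rw [e1, e2] at h2
    have := hpos X
    have := hpos Y
    have := hpos (X ∪ Y)
    have := hpos (X ∩ Y)
    omega

/-- Matroid intersection theorem. -/
theorem matroid_inter (E : Finset Ω) : ∀ (r₁ r₂ : Finset Ω → ℕ), IsRk r₁ → IsRk r₂ → ∀ k : ℕ,
    (∀ X ⊆ E, k ≤ r₁ X + r₂ (E \ X)) → ∃ I ⊆ E, I.card = k ∧ r₁ I = k ∧ r₂ I = k := by
  induction E using Finset.induction_on with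
  | empty =>
    intro r₁ r₂ h₁ h₂ k hk
    have h := hk ∅ (Finset.Subset.refl _)
    rw [h₁.empty, Finset.sdiff_self, h₂.empty] at h
    have hk0 : k = 0 := by omega
    subst hk0
    exact ⟨∅, Finset.Subset.refl _, rfl, h₁.empty, h₂.empty⟩
  | insert e E' he ih =>
    intro r₁ r₂ h₁ h₂ k hk
    have hdel : (∀ X ⊆ E', k ≤ r₁ X + r₂ (E' \ X)) →
        ∃ I ⊆ insert e E', I.card = k ∧ r₁ I = k ∧ r₂ I = k := by
      intro h
      obtain ⟨I, hI, h3⟩ := ih r₁ r₂ h₁ h₂ k h
      exact ⟨I, hI.trans (Finset.subset_insert _ _), h3⟩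
    have sd1 : ∀ X ⊆ E', insert e E' \ insert e X = E' \ X := by
      intro X hX
      ext x
      simp only [Finset.mem_sdiff, Finset.mem_insert]
      constructor
      · rintro ⟨h3, h4⟩
        rcases h3 with rfl | h3
        · exact absurd (Or.inl rfl) h4
        · exact ⟨h3, fun h5 => h4 (Or.inr h5)⟩
      · rintro ⟨h3, h4⟩
        refine ⟨Or.inr h3, ?_⟩
        rintro (rfl | h5)
        · exact he h3
        · exact h4 h5
    have sd2 : ∀ X ⊆ E', insert e E' \ X = insert e (E' \ X) := by
      intro X hX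
      ext x
      simp only [Finset.mem_sdiff, Finset.mem_insert]
      constructor
      · rintro ⟨h3, h4⟩
        rcases h3 with rfl | h3
        · exact Or.inl rfl
        · exact Or.inr ⟨h3, h4⟩
      · rintro (rfl | ⟨h3, h4⟩)
        · exact ⟨Or.inl rfl, fun h5 => he (hX h5)⟩
        · exact ⟨Or.inr h3, h4⟩
    by_cases ha : r₁ {e} = 0
    · apply hdel
      intro X hX
      have h3 := hk (insert e X) (Finset.insert_subset_insert e hX)
      rwa [h₁.insert_of_zero ha, sd1 X hX] at h3
    by_cases hb : r₂ {e} = 0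
    · apply hdel
      intro X hX
      have h3 := hk X (hX.trans (Finset.subset_insert _ _))
      rwa [sd2 X hX, h₂.insert_of_zero hb] at h3
    by_cases hd : ∀ X ⊆ E', k ≤ r₁ X + r₂ (E' \ X)
    · exact hdel hd
    push Not at hd
    obtain ⟨X₀, hX₀, hlt⟩ := hd
    have ha' : 1 ≤ r₁ {e} := Nat.one_le_iff_ne_zero.2 ha
    have hb' : 1 ≤ r₂ {e} := Nat.one_le_iff_ne_zero.2 hb
    obtain ⟨I, hI, hc, hi1, hi2⟩ := ih _ _ (h₁.contract ha') (h₂.contract hb') (k - 1) (by
      intro Y hY
      show k - 1 ≤ r₁ (insert e Y) - 1 + (r₂ (insert e (E' \ Y)) - 1)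
      have s1 := h₁.submod X₀ (insert e Y)
      have s2 := h₂.submod (E' \ X₀) (insert e (E' \ Y))
      have e1 : X₀ ∪ insert e Y = insert e (X₀ ∪ Y) := by
        ext x; simp only [Finset.mem_union, Finset.mem_insert]; tauto
      have e2 : X₀ ∩ insert e Y = X₀ ∩ Y := by
        ext x
        simp only [Finset.mem_inter, Finset.mem_insert]
        constructor
        · rintro ⟨h3, rfl | h4⟩
          · exact absurd (hX₀ h3) he
          · exact ⟨h3, h4⟩
        · rintro ⟨h3, h4⟩
          exact ⟨h3, Or.inr h4⟩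
      have e3 : (E' \ X₀) ∪ insert e (E' \ Y) = insert e (E' \ (X₀ ∩ Y)) := by
        ext x; simp only [Finset.mem_union, Finset.mem_insert, Finset.mem_sdiff, Finset.mem_inter]
        tauto
      have e4 : (E' \ X₀) ∩ insert e (E' \ Y) = E' \ (X₀ ∪ Y) := by
        ext x
        simp only [Finset.mem_inter, Finset.mem_insert, Finset.mem_sdiff, Finset.mem_union]
        constructor
        · rintro ⟨⟨h3, h4⟩, rfl | ⟨h5, h6⟩⟩
          · exact absurd h3 he
          · exact ⟨h3, by tauto⟩
        · rintro ⟨h3, h4⟩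
          exact ⟨⟨h3, fun h5 => h4 (Or.inl h5)⟩, Or.inr ⟨h3, fun h5 => h4 (Or.inr h5)⟩⟩
      rw [e1, e2] at s1
      rw [e3, e4] at s2
      have hXY : X₀ ∩ Y ⊆ E' := Finset.inter_subset_left.trans hX₀
      have hXY' : X₀ ∪ Y ⊆ E' := Finset.union_subset hX₀ hY
      have k1 := hk (X₀ ∩ Y) (hXY.trans (Finset.subset_insert _ _))
      have k2 := hk (insert e (X₀ ∪ Y)) (Finset.insert_subset_insert e hXY')
      rw [sd2 _ hXY] at k1
      rw [sd1 _ hXY'] at k2
      have p1 : 1 ≤ r₁ (insert e Y) := ha'.trans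
        (h₁.mono _ _ (Finset.singleton_subset_iff.2 (Finset.mem_insert_self e Y)))
      have p2 : 1 ≤ r₂ (insert e (E' \ Y)) := hb'.trans
        (h₂.mono _ _ (Finset.singleton_subset_iff.2 (Finset.mem_insert_self e _)))
      omega)
    have p1 : 1 ≤ r₁ (insert e I) := ha'.trans
      (h₁.mono _ _ (Finset.singleton_subset_iff.2 (Finset.mem_insert_self e I)))
    have p2 : 1 ≤ r₂ (insert e I) := hb'.trans
      (h₂.mono _ _ (Finset.singleton_subset_iff.2 (Finset.mem_insert_self e _)))
    have heI : e ∉ I := fun h => he (hI h)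
    have hk1 : 1 ≤ k := by omega
    refine ⟨insert e I, Finset.insert_subset_insert e hI, ?_, ?_, ?_⟩
    · rw [Finset.card_insert_of_notMem heI]; omega
    · have : r₁ (insert e I) - 1 = k - 1 := hi1
      omega
    · have : r₂ (insert e I) - 1 = k - 1 := hi2
      omega

end Pool.Agent.FCCov
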