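import Mathlib
import Pool.Agent.FCCov.A

/-!
# Packing pairs of disjoint spanning sets (relative, with capacities)
-/

set_option autoImplicit false
set_option linter.unusedSectionVars false

namespace Pool.Agent.FCCov

open Module

section lin

variable {M : Type*} [AddCommGroup M] [Module (ZMod 2) M]

/-- span of the vectors of `X` -/
def sp {E : Type*} (bd : E → M) (X : Finset E) : Submodule (ZMod 2) M :=
  Submodule.span (ZMod 2) (bd '' (X : Set E))

variable {E : Type*} [DecidableEq E] (bd : E → M)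

lemma mem_sp {X : Finset E} {e : E} (h : e ∈ X) : bd e ∈ sp bd X :=
  Submodule.subset_span ⟨e, h, rfl⟩

lemma sp_mono {X Y : Finset E} (h : X ⊆ Y) : sp bd X ≤ sp bd Y :=
  Submodule.span_mono (Set.image_mono (by exact_mod_cast h))

lemma sp_le {X : Finset E} {Z : Submodule (ZMod 2) M} (h : ∀ e ∈ X, bd e ∈ Z) : sp bd X ≤ Z := by
  unfold sp
  rw [Submodule.span_le]
  rintro _ ⟨e, he, rfl⟩
  exact h e he

lemma sp_union (X Y : Finset E) : sp bd (X ∪ Y) = sp bd X ⊔ sp bd Y := by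
  unfold sp
  rw [Finset.coe_union, Set.image_union, Submodule.span_union]

lemma sp_insert (X : Finset E) (e : E) :
    sp bd (insert e X) = Submodule.span (ZMod 2) {bd e} ⊔ sp bd X := by
  unfold sp
  rw [Finset.coe_insert, Set.image_insert_eq, Submodule.span_insert]

lemma sp_empty : sp bd ∅ = ⊥ := by
  unfold sp
  simp

lemma add_self2 (x : M) : x + x = 0 := by
  have h : (2 : ZMod 2) • x = x + x := by
    rw [two_smul]
  rw [← h]
  have : (2 : ZMod 2) = 0 := by decide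
  rw [this, zero_smul]

lemma sum_symmDiff (X Y : Finset E) :
    ∑ e ∈ symmDiff X Y, bd e = ∑ e ∈ X, bd e + ∑ e ∈ Y, bd e := by
  have h1 : ∑ e ∈ symmDiff X Y, bd e = ∑ e ∈ X \ Y, bd e + ∑ e ∈ Y \ X, bd e := by
    rw [symmDiff_def, Finset.sup_eq_union, Finset.sum_union]
    rw [Finset.disjoint_left]
    intro a ha hb
    exact (Finset.mem_sdiff.1 hb).2 (Finset.mem_sdiff.1 ha).1
  have h2 : ∑ e ∈ X, bd e = ∑ e ∈ X \ Y, bd e + ∑ e ∈ X ∩ Y, bd e := by
    rw [← Finset.sum_sdiff (Finset.inter_subset_left (s₁ := X) (s₂ := Y)), Finset.sdiff_inter_self_left]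
  have h3 : ∑ e ∈ Y, bd e = ∑ e ∈ Y \ X, bd e + ∑ e ∈ X ∩ Y, bd e := by
    rw [← Finset.sum_sdiff (Finset.inter_subset_right (s₁ := X) (s₂ := Y)), Finset.sdiff_inter_self_right]
  rw [h1, h2, h3]
  have h4 := add_self2 (∑ e ∈ X ∩ Y, bd e)
  calc ∑ e ∈ X \ Y, bd e + ∑ e ∈ Y \ X, bd e
      = ∑ e ∈ X \ Y, bd e + ∑ e ∈ Y \ X, bd e + 0 := by rw [add_zero]
    _ = _ := by rw [← h4]; abel

/-- `T`-joins -/
lemma exists_join {X : Finset E} {v : M} (h : v ∈ sp bd X) :
    ∃ J ⊆ X, ∑ e ∈ J, bd e = v := by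
  unfold sp at h
  induction h using Submodule.span_induction with
  | mem x hx =>
    obtain ⟨e, he, rfl⟩ := hx
    exact ⟨{e}, Finset.singleton_subset_iff.2 (by exact_mod_cast he), Finset.sum_singleton _ _⟩
  | zero => exact ⟨∅, Finset.empty_subset _, Finset.sum_empty⟩
  | add x y _ _ hx hy =>
    obtain ⟨J, hJ, rfl⟩ := hx
    obtain ⟨J', hJ', rfl⟩ := hy
    refine ⟨symmDiff J J', ?_, sum_symmDiff bd J J'⟩
    intro e he
    rw [Finset.mem_symmDiff] at he
    rcases he with he | he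
    · exact hJ he.1
    · exact hJ' he.1
  | smul c x _ hx =>
    obtain ⟨J, hJ, rfl⟩ := hx
    have hc : c = 0 ∨ c = 1 := by revert c; decide
    rcases hc with rfl | rfl
    · exact ⟨∅, Finset.empty_subset _, by simp⟩
    · exact ⟨J, hJ, by simp⟩

lemma finrank_single_le [Module.Finite (ZMod 2) M] (v : M) :
    finrank (ZMod 2) ↥(Submodule.span (ZMod 2) {v}) ≤ 1 := by
  by_cases h : v = 0
  · subst h
    rw [Submodule.span_zero_singleton]
    simp
  · rw [finrank_span_singleton h]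

variable [Module.Finite (ZMod 2) M]

/-- rank relative to `Z` -/
noncomputable def rk (Z : Submodule (ZMod 2) M) (X : Finset E) : ℕ :=
  finrank (ZMod 2) ↥(Z ⊔ sp bd X) - finrank (ZMod 2) ↥Z

lemma rk_add (Z : Submodule (ZMod 2) M) (X : Finset E) :
    rk bd Z X + finrank (ZMod 2) ↥Z = finrank (ZMod 2) ↥(Z ⊔ sp bd X) := by
  unfold rk
  have : finrank (ZMod 2) ↥Z ≤ finrank (ZMod 2) ↥(Z ⊔ sp bd X) :=
    Submodule.finrank_mono le_sup_left
  omega

lemma isRk (Z : Submodule (ZMod 2) M) : IsRk (rk bd Z) := by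
  refine ⟨?_, ?_, ?_, ?_⟩
  · unfold rk
    rw [sp_empty, sup_bot_eq, Nat.sub_self]
  · intro X Y h
    have h1 := rk_add bd Z X
    have h2 := rk_add bd Z Y
    have h3 : finrank (ZMod 2) ↥(Z ⊔ sp bd X) ≤ finrank (ZMod 2) ↥(Z ⊔ sp bd Y) :=
      Submodule.finrank_mono (sup_le_sup_left (sp_mono bd h) Z)
    omega
  · intro X a
    have h1 := rk_add bd Z X
    have h2 := rk_add bd Z (insert a X)
    have h3 : Z ⊔ sp bd (insert a X) = Submodule.span (ZMod 2) {bd a} ⊔ (Z ⊔ sp bd X) := by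
      rw [sp_insert, sup_left_comm]
    have h4 : finrank (ZMod 2) ↥(Submodule.span (ZMod 2) {bd a} ⊔ (Z ⊔ sp bd X)) ≤
        finrank (ZMod 2) ↥(Submodule.span (ZMod 2) {bd a}) +
        finrank (ZMod 2) ↥(Z ⊔ sp bd X) :=
      Submodule.finrank_add_le_finrank_add_finrank _ _
    have h5 : finrank (ZMod 2) ↥(Submodule.span (ZMod 2) {bd a}) ≤ 1 := finrank_single_le _
    rw [h3] at h2
    omega
  · intro X Y
    have h1 := rk_add bd Z X
    have h2 := rk_add bd Z Y
    have h3 := rk_add bd Z (X ∪ Y)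
    have h4 := rk_add bd Z (X ∩ Y)
    have h5 := Submodule.finrank_sup_add_finrank_inf_eq (Z ⊔ sp bd X) (Z ⊔ sp bd Y)
    have h6 : Z ⊔ sp bd (X ∪ Y) = (Z ⊔ sp bd X) ⊔ (Z ⊔ sp bd Y) := by
      rw [sp_union]
      rw [sup_sup_sup_comm, sup_idem]
    have h7 : finrank (ZMod 2) ↥(Z ⊔ sp bd (X ∩ Y)) ≤
        finrank (ZMod 2) ↥((Z ⊔ sp bd X) ⊓ (Z ⊔ sp bd Y)) := by
      apply Submodule.finrank_mono
      apply le_inf
      · exact sup_le_sup_left (sp_mono bd Finset.inter_subset_left) Z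
      · exact sup_le_sup_left (sp_mono bd Finset.inter_subset_right) Z
    rw [h6] at h3
    omega

end lin

end Pool.Agent.FCCov
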