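import Mathlib
import Pool.Agent.FCCov.B

/-!
# Packing pairs of disjoint spanning sets (relative, with capacities): the scale lemma
-/

set_option autoImplicit false
set_option linter.unusedSectionVars false

namespace Pool.Agent.FCCov

open Module

section scale

variable {E : Type*} [DecidableEq E]

/-- slice of a set of triples -/
def sl (Es : Finset E) (X : Finset (E × ℕ × Bool)) (p : ℕ × Bool) : Finset E :=
  Es.filter (fun e => (e, p) ∈ X)

/-- pairs at `e` -/
def pr (P : Finset (ℕ × Bool)) (X : Finset (E × ℕ × Bool)) (e : E) : Finset (ℕ × Bool) :=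
  P.filter (fun p => (e, p) ∈ X)

/-- levels at `e` -/
def lv (P : Finset (ℕ × Bool)) (X : Finset (E × ℕ × Bool)) (e : E) : Finset ℕ :=
  (pr P X e).image Prod.fst

lemma isRk_one {r : Finset E → ℕ} (hr : IsRk r) (Es : Finset E) (P : Finset (ℕ × Bool)) :
    IsRk (fun X : Finset (E × ℕ × Bool) => ∑ p ∈ P, r (sl Es X p)) := by
  refine ⟨?_, ?_, ?_, ?_⟩
  · apply Finset.sum_eq_zero
    intro p _
    have : sl Es (∅ : Finset (E × ℕ × Bool)) p = ∅ := by
      unfold sl; simp
    rw [this, hr.empty]
  · intro X Y h
    apply Finset.sum_le_sum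
    intro p _
    apply hr.mono
    intro e he
    unfold sl at *
    rw [Finset.mem_filter] at *
    exact ⟨he.1, h he.2⟩
  · intro X a
    have h1 : ∀ p ∈ P, r (sl Es (insert a X) p) ≤ r (sl Es X p) + (if p = a.2 then 1 else 0) := by
      intro p _
      by_cases hp : p = a.2
      · rw [if_pos hp]
        refine le_trans (hr.mono _ (insert a.1 (sl Es X p)) ?_) (hr.unit _ _)
        intro e he
        unfold sl at *
        rw [Finset.mem_filter, Finset.mem_insert] at he
        rw [Finset.mem_insert, Finset.mem_filter]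
        rcases he with ⟨h2, h3 | h3⟩
        · left
          rw [← h3]
        · right
          exact ⟨h2, h3⟩
      · rw [if_neg hp, add_zero]
        apply hr.mono
        intro e he
        unfold sl at *
        rw [Finset.mem_filter, Finset.mem_insert] at he
        rw [Finset.mem_filter]
        rcases he with ⟨h2, h3 | h3⟩
        · exfalso
          apply hp
          rw [← h3]
        · exact ⟨h2, h3⟩
    calc ∑ p ∈ P, r (sl Es (insert a X) p)
        ≤ ∑ p ∈ P, (r (sl Es X p) + (if p = a.2 then 1 else 0)) := Finset.sum_le_sum h1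
      _ = ∑ p ∈ P, r (sl Es X p) + ∑ p ∈ P, (if p = a.2 then 1 else 0) := Finset.sum_add_distrib
      _ ≤ ∑ p ∈ P, r (sl Es X p) + 1 := by
          apply Nat.add_le_add_left
          rw [Finset.sum_ite_eq']
          split_ifs <;> omega
  · intro X Y
    rw [← Finset.sum_add_distrib, ← Finset.sum_add_distrib]
    apply Finset.sum_le_sum
    intro p _
    have e1 : sl Es (X ∪ Y) p = sl Es X p ∪ sl Es Y p := by
      unfold sl
      ext e
      simp only [Finset.mem_filter, Finset.mem_union]
      tauto
    have e2 : sl Es (X ∩ Y) p = sl Es X p ∩ sl Es Y p := by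
      unfold sl
      ext e
      simp only [Finset.mem_filter, Finset.mem_inter]
      tauto
    rw [e1, e2]
    exact hr.submod _ _

lemma lv_mono (P : Finset (ℕ × Bool)) {X Y : Finset (E × ℕ × Bool)} (h : X ⊆ Y) (e : E) :
    lv P X e ⊆ lv P Y e := by
  unfold lv pr
  apply Finset.image_subset_image
  intro p hp
  rw [Finset.mem_filter] at *
  exact ⟨hp.1, h hp.2⟩

lemma isRk_two (Es : Finset E) (P : Finset (ℕ × Bool)) (w : E → ℕ) :
    IsRk (fun X : Finset (E × ℕ × Bool) => ∑ e ∈ Es, min (w e) (lv P X e).card) := by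
  refine ⟨?_, ?_, ?_, ?_⟩
  · apply Finset.sum_eq_zero
    intro e _
    have : lv P (∅ : Finset (E × ℕ × Bool)) e = ∅ := by
      unfold lv pr; simp
    rw [this, Finset.card_empty]
    omega
  · intro X Y h
    apply Finset.sum_le_sum
    intro e _
    have := Finset.card_le_card (lv_mono P h e)
    omega
  · intro X a
    have h1 : ∀ e ∈ Es, min (w e) (lv P (insert a X) e).card ≤
        min (w e) (lv P X e).card + (if e = a.1 then 1 else 0) := by
      intro e _
      by_cases he : e = a.1
      · rw [if_pos he]
        have h2 : lv P (insert a X) e ⊆ insert a.2.1 (lv P X e) := by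
          intro j hj
          unfold lv pr at *
          rw [Finset.mem_image] at hj
          obtain ⟨p, hp, rfl⟩ := hj
          rw [Finset.mem_filter, Finset.mem_insert] at hp
          rw [Finset.mem_insert]
          rcases hp with ⟨h3, h4 | h4⟩
          · left
            rw [← h4]
          · right
            exact Finset.mem_image.2 ⟨p, Finset.mem_filter.2 ⟨h3, h4⟩, rfl⟩
        have h3 := Finset.card_le_card h2
        have h4 := Finset.card_insert_le a.2.1 (lv P X e)
        omega
      · rw [if_neg he, add_zero]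
        have h2 : lv P (insert a X) e ⊆ lv P X e := by
          intro j hj
          unfold lv pr at *
          rw [Finset.mem_image] at hj
          obtain ⟨p, hp, rfl⟩ := hj
          rw [Finset.mem_filter, Finset.mem_insert] at hp
          rcases hp with ⟨h3, h4 | h4⟩
          · exfalso
            apply he
            rw [← h4]
          · exact Finset.mem_image.2 ⟨p, Finset.mem_filter.2 ⟨h3, h4⟩, rfl⟩
        have h3 := Finset.card_le_card h2
        omega
    calc ∑ e ∈ Es, min (w e) (lv P (insert a X) e).card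
        ≤ ∑ e ∈ Es, (min (w e) (lv P X e).card + (if e = a.1 then 1 else 0)) :=
          Finset.sum_le_sum h1
      _ = ∑ e ∈ Es, min (w e) (lv P X e).card + ∑ e ∈ Es, (if e = a.1 then 1 else 0) :=
          Finset.sum_add_distrib
      _ ≤ ∑ e ∈ Es, min (w e) (lv P X e).card + 1 := by
          apply Nat.add_le_add_left
          rw [Finset.sum_ite_eq']
          split_ifs <;> omega
  · intro X Y
    show ∑ e ∈ Es, min (w e) (lv P (X ∪ Y) e).card + ∑ e ∈ Es, min (w e) (lv P (X ∩ Y) e).card ≤
      ∑ e ∈ Es, min (w e) (lv P X e).card + ∑ e ∈ Es, min (w e) (lv P Y e).card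
    rw [← Finset.sum_add_distrib, ← Finset.sum_add_distrib]
    apply Finset.sum_le_sum
    intro e _
    have e1 : lv P (X ∪ Y) e = lv P X e ∪ lv P Y e := by
      unfold lv pr
      rw [← Finset.image_union]
      congr 1
      ext p
      simp only [Finset.mem_filter, Finset.mem_union]
      tauto
    have e2 : lv P (X ∩ Y) e ⊆ lv P X e ∩ lv P Y e := by
      apply Finset.subset_inter
      · exact lv_mono P Finset.inter_subset_left e
      · exact lv_mono P Finset.inter_subset_right e
    have c1 := Finset.card_union_add_card_inter (lv P X e) (lv P Y e)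
    have c2 := Finset.card_le_card e2
    have c3 := Finset.card_le_card (Finset.inter_subset_left (s₁ := lv P X e) (s₂ := lv P Y e))
    have c4 := Finset.card_le_card (Finset.inter_subset_right (s₁ := lv P X e) (s₂ := lv P Y e))
    rw [e1]
    omega

variable {M : Type*} [AddCommGroup M] [Module (ZMod 2) M] [Module.Finite (ZMod 2) M] (bd : E → M)

/-- **Scale lemma.** -/
theorem scale (s : ℕ) (Es : Finset E) (w : E → ℕ) (hw : ∀ e ∈ Es, w e ≤ s)
    (Z Z' : Submodule (ZMod 2) M) (hZ : Z ≤ Z') (hb : ∀ e ∈ Es, bd e ∈ Z')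
    (hyp : ∀ Y : Submodule (ZMod 2) M, Z ≤ Y → Y ≤ Z' → ∀ F : Finset E, F ⊆ Es →
      (∀ e ∈ Es, bd e ∉ Y → e ∈ F) →
      2 * s * finrank (ZMod 2) ↥Z' ≤ 2 * s * finrank (ZMod 2) ↥Y + ∑ e ∈ F, w e) :
    ∃ A B : ℕ → Finset E, (∀ j < s, A j ⊆ Es ∧ B j ⊆ Es ∧ Disjoint (A j) (B j) ∧
      Z' ≤ Z ⊔ sp bd (A j) ∧ Z' ≤ Z ⊔ sp bd (B j)) ∧
      ∀ e ∈ Es, ((Finset.range s).filter (fun j => e ∈ A j ∨ e ∈ B j)).card ≤ w e := by
  classical
  rcases Nat.eq_zero_or_pos s with hs | hs
  · subst hs
    exact ⟨fun _ => ∅, fun _ => ∅, fun j hj => absurd hj (Nat.not_lt_zero j),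
      fun e _ => by simp⟩
  set P : Finset (ℕ × Bool) := Finset.range s ×ˢ Finset.univ with hP
  have hPc : P.card = 2 * s := by
    rw [hP, Finset.card_product, Finset.card_range]
    simp [mul_comm]
  set Γ : Finset (E × ℕ × Bool) := Es ×ˢ P with hΓ
  have hZf : finrank (ZMod 2) ↥Z ≤ finrank (ZMod 2) ↥Z' := Submodule.finrank_mono hZ
  obtain ⟨d, hd⟩ := Nat.exists_eq_add_of_le hZf
  have hrk := isRk bd Z
  have hsub : ∀ X : Finset E, X ⊆ Es → Z ⊔ sp bd X ≤ Z' := by
    intro X hX
    exact sup_le hZ (sp_le bd (fun e he => hb e (hX he)))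
  have hrkd : ∀ X : Finset E, X ⊆ Es → rk bd Z X ≤ d := by
    intro X hX
    have h1 := rk_add bd Z X
    have h2 := Submodule.finrank_mono (hsub X hX)
    omega
  obtain ⟨I, hI, hIc, hI1, hI2⟩ := matroid_inter Γ _ _ (isRk_one hrk Es P) (isRk_two Es P w)
    (2 * s * d) (by
      intro X hX
      show 2 * s * d ≤ ∑ p ∈ P, rk bd Z (sl Es X p) + ∑ e ∈ Es, min (w e) (lv P (Γ \ X) e).card
      have h1 : ∀ p ∈ P, 2 * s * d ≤ 2 * s * rk bd Z (sl Es X p) +
          ∑ e ∈ Es, (if (e, p) ∈ X then 0 else w e) := by
        intro p hp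
        have hs1 : sl Es X p ⊆ Es := Finset.filter_subset _ _
        have h2 := hyp (Z ⊔ sp bd (sl Es X p)) le_sup_left (hsub _ hs1)
          (Es.filter (fun e => (e, p) ∉ X)) (Finset.filter_subset _ _) (by
            intro e he hne
            rw [Finset.mem_filter]
            refine ⟨he, fun h3 => hne ?_⟩
            exact Submodule.mem_sup_right (mem_sp bd (Finset.mem_filter.2 ⟨he, h3⟩)))
        have h3 := rk_add bd Z (sl Es X p)
        have h4 : ∑ e ∈ Es.filter (fun e => (e, p) ∉ X), w e =
            ∑ e ∈ Es, (if (e, p) ∈ X then 0 else w e) := by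
          rw [Finset.sum_filter]
          apply Finset.sum_congr rfl
          intro e _
          by_cases h5 : (e, p) ∈ X <;> simp [h5]
        rw [h4, ← h3, hd] at h2
        have h5 : 2 * s * (finrank (ZMod 2) ↥Z + d) = 2 * s * finrank (ZMod 2) ↥Z + 2 * s * d := by
          ring
        have h6 : 2 * s * (rk bd Z (sl Es X p) + finrank (ZMod 2) ↥Z) =
          2 * s * rk bd Z (sl Es X p) + 2 * s * finrank (ZMod 2) ↥Z := by ring
        omega
      have h2 := Finset.sum_le_sum h1
      rw [Finset.sum_const, hPc, smul_eq_mul, Finset.sum_add_distrib, ← Finset.mul_sum,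
        Finset.sum_comm] at h2
      have h3 : ∀ e ∈ Es, ∑ p ∈ P, (if (e, p) ∈ X then 0 else w e) ≤
          2 * s * min (w e) (lv P (Γ \ X) e).card := by
        intro e he
        have h4 : ∑ p ∈ P, (if (e, p) ∈ X then 0 else w e) = (pr P (Γ \ X) e).card * w e := by
          have h5 : pr P (Γ \ X) e = P.filter (fun p => (e, p) ∉ X) := by
            unfold pr
            apply Finset.filter_congr
            intro p hp
            rw [Finset.mem_sdiff]
            constructor
            · exact fun h => h.2
            · exact fun h => ⟨Finset.mem_product.2 ⟨he, hp⟩, h⟩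
          rw [h5, ← smul_eq_mul, ← Finset.sum_const, Finset.sum_filter]
          apply Finset.sum_congr rfl
          intro p _
          by_cases h5 : (e, p) ∈ X <;> simp [h5]
        have h5 : (pr P (Γ \ X) e).card ≤ 2 * (lv P (Γ \ X) e).card := by
          unfold lv
          apply Finset.card_le_mul_card_image
          intro j _
          have : ((pr P (Γ \ X) e).filter (fun p => p.1 = j)) ⊆ {(j, false), (j, true)} := by
            intro p hp
            rw [Finset.mem_filter] at hp
            obtain ⟨j', c⟩ := p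
            simp only at hp
            rw [hp.2]
            cases c <;> simp
          exact (Finset.card_le_card this).trans Finset.card_le_two
        have h6 : (lv P (Γ \ X) e).card ≤ s := by
          have : lv P (Γ \ X) e ⊆ Finset.range s := by
            intro j hj
            unfold lv pr at hj
            rw [Finset.mem_image] at hj
            obtain ⟨p, hp, rfl⟩ := hj
            exact (Finset.mem_product.1 (Finset.mem_filter.1 hp).1).1
          have h7 := Finset.card_le_card this
          rwa [Finset.card_range] at h7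
        have h7 := hw e he
        rw [h4]
        rcases le_total (w e) (lv P (Γ \ X) e).card with h8 | h8
        · rw [min_eq_left h8]
          calc (pr P (Γ \ X) e).card * w e ≤ 2 * (lv P (Γ \ X) e).card * w e :=
                Nat.mul_le_mul_right _ h5
            _ ≤ 2 * s * w e := Nat.mul_le_mul_right _ (Nat.mul_le_mul_left _ h6)
        · rw [min_eq_right h8]
          calc (pr P (Γ \ X) e).card * w e ≤ 2 * (lv P (Γ \ X) e).card * w e :=
                Nat.mul_le_mul_right _ h5
            _ ≤ 2 * (lv P (Γ \ X) e).card * s := Nat.mul_le_mul_left _ h7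
            _ = 2 * s * (lv P (Γ \ X) e).card := by ring
      have h4 := Finset.sum_le_sum h3
      rw [← Finset.mul_sum] at h4
      have h5 : 2 * s * (2 * s * d) ≤ 2 * s * (∑ p ∈ P, rk bd Z (sl Es X p) +
          ∑ e ∈ Es, min (w e) (lv P (Γ \ X) e).card) := by
        rw [mul_add]
        exact h2.trans (Nat.add_le_add_left h4 _)
      exact Nat.le_of_mul_le_mul_left h5 (by omega))
  have hI1' : ∑ p ∈ P, rk bd Z (sl Es I p) = 2 * s * d := hI1
  have hI2' : ∑ e ∈ Es, min (w e) (lv P I e).card = 2 * s * d := hI2
  -- all slices span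
  have hfull : ∀ p ∈ P, rk bd Z (sl Es I p) = d := by
    have h1 : ∀ p ∈ P, rk bd Z (sl Es I p) ≤ d := fun p _ => hrkd _ (Finset.filter_subset _ _)
    have h2 : ∑ p ∈ P, rk bd Z (sl Es I p) = ∑ p ∈ P, d := by
      rw [Finset.sum_const, hPc, hI1', smul_eq_mul]
    exact (Finset.sum_eq_sum_iff_of_le h1).1 h2
  have hspan : ∀ p ∈ P, Z' ≤ Z ⊔ sp bd (sl Es I p) := by
    intro p hp
    have h1 := hfull p hp
    have h2 := rk_add bd Z (sl Es I p)
    have h3 : finrank (ZMod 2) ↥Z' ≤ finrank (ZMod 2) ↥(Z ⊔ sp bd (sl Es I p)) := by omega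
    exact (Submodule.eq_of_le_of_finrank_le (hsub _ (Finset.filter_subset _ _)) h3).ge
  -- no level is used twice
  have hcard : I.card = ∑ e ∈ Es, (pr P I e).card := by
    have h1 : ∀ x ∈ I, x.1 ∈ Es := fun x hx => (Finset.mem_product.1 (hI hx)).1
    rw [Finset.card_eq_sum_card_fiberwise h1]
    apply Finset.sum_congr rfl
    intro e he
    apply Finset.card_bij (fun x _ => x.2)
    · intro x hx
      rw [Finset.mem_filter] at hx
      unfold pr
      rw [Finset.mem_filter]
      refine ⟨(Finset.mem_product.1 (hI hx.1)).2, ?_⟩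
      have : (e, x.2) = x := by
        rw [← hx.2]
      rw [this]
      exact hx.1
    · intro x hx y hy h
      rw [Finset.mem_filter] at hx hy
      apply Prod.ext
      · rw [hx.2, hy.2]
      · exact h
    · intro p hp
      unfold pr at hp
      rw [Finset.mem_filter] at hp
      exact ⟨(e, p), Finset.mem_filter.2 ⟨hp.2, rfl⟩, rfl⟩
  have hle1 : ∀ e ∈ Es, min (w e) (lv P I e).card ≤ (pr P I e).card := by
    intro e _
    have : (lv P I e).card ≤ (pr P I e).card := by
      unfold lv
      exact Finset.card_image_le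
    omega
  have heq : ∀ e ∈ Es, min (w e) (lv P I e).card = (pr P I e).card := by
    apply (Finset.sum_eq_sum_iff_of_le hle1).1
    rw [hI2', ← hcard, hIc]
  have hlv : ∀ e ∈ Es, (lv P I e).card = (pr P I e).card ∧ (lv P I e).card ≤ w e := by
    intro e he
    have h1 := heq e he
    have : (lv P I e).card ≤ (pr P I e).card := by
      unfold lv
      exact Finset.card_image_le
    omega
  have hinj : ∀ e ∈ Es, ∀ j, (e, (j, false)) ∈ I → (e, (j, true)) ∈ I → False := by
    intro e he j h1 h2
    have h3 := (hlv e he).1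
    unfold lv at h3
    rw [Finset.card_image_iff] at h3
    have hm : ∀ c, (e, (j, c)) ∈ I → (j, c) ∈ pr P I e := by
      intro c hc
      exact Finset.mem_filter.2 ⟨(Finset.mem_product.1 (hI hc)).2, hc⟩
    have h4 := h3 (hm false h1) (hm true h2) rfl
    simp at h4
  refine ⟨fun j => sl Es I (j, false), fun j => sl Es I (j, true), ?_, ?_⟩
  · intro j hj
    have hp : ∀ c, (j, c) ∈ P := by
      intro c
      exact Finset.mem_product.2 ⟨Finset.mem_range.2 hj, Finset.mem_univ c⟩
    refine ⟨Finset.filter_subset _ _, Finset.filter_subset _ _, ?_, hspan _ (hp false),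
      hspan _ (hp true)⟩
    rw [Finset.disjoint_left]
    intro e h1 h2
    unfold sl at h1 h2
    rw [Finset.mem_filter] at h1 h2
    exact hinj e h1.1 j h1.2 h2.2
  · intro e he
    refine le_trans (Finset.card_le_card ?_) (hlv e he).2
    intro j hj
    rw [Finset.mem_filter] at hj
    unfold lv pr
    rw [Finset.mem_image]
    rcases hj.2 with h1 | h1
    · unfold sl at h1
      rw [Finset.mem_filter] at h1
      exact ⟨(j, false), Finset.mem_filter.2 ⟨(Finset.mem_product.1 (hI h1.2)).2, h1.2⟩, rfl⟩
    · unfold sl at h1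
      rw [Finset.mem_filter] at h1
      exact ⟨(j, true), Finset.mem_filter.2 ⟨(Finset.mem_product.1 (hI h1.2)).2, h1.2⟩, rfl⟩

end scale

end Pool.Agent.FCCov
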