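import Mathlib
import Pool.Agent.FCCov.B2

/-!
# Strong vertex sets and the level structure
-/

set_option autoImplicit false
set_option linter.unusedSectionVars false

namespace Pool.Agent.FCCov

open Module

variable {V E : Type*} [Fintype V] [DecidableEq V] [Fintype E] [DecidableEq E]

/-- boundary vector of an edge -/
def bnd (a b : E → V) (e : E) : V → ZMod 2 := Pi.single (a e) 1 + Pi.single (b e) 1

/-- capacity at scale `t` -/
def cp (w : E → ℕ) (t : ℕ) (f : E) : ℕ := min (w f) (2 * t + 1 - w f)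

/-- `U` is `t`-rich: every partition of `U` into `p` classes which separates the ends of no edge `f`
with `s f > t` is crossed by total capacity `min (w f) (2 t + 1 - w f)` at least `2 t (p - 1)` of
edges inside `U`. -/
def Rich (a b : E → V) (w s : E → ℕ) (U : Finset V) (t : ℕ) : Prop :=
  ∀ c : V → V, (∀ f, 1 ≤ w f → t < s f → c (a f) = c (b f)) →
    2 * t * ((U.image c).card - 1) ≤
    ∑ f ∈ Finset.univ.filter (fun f => a f ∈ U ∧ b f ∈ U ∧ c (a f) ≠ c (b f)), cp w t f

/-- span of the pairs inside rich sets -/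
def Zf (a b : E → V) (w s : E → ℕ) (N t : ℕ) : Submodule (ZMod 2) (V → ZMod 2) :=
  Submodule.span (ZMod 2) {x | ∃ (t' : ℕ) (U : Finset V) (u v : V), t ≤ t' ∧ t' ≤ N ∧
    Rich a b w s U t' ∧ u ∈ U ∧ v ∈ U ∧ x = Pi.single u 1 + Pi.single v 1}

lemma Zf_anti (a b : E → V) (w s : E → ℕ) (N : ℕ) {t t' : ℕ} (h : t ≤ t') :
    Zf a b w s N t' ≤ Zf a b w s N t := by
  apply Submodule.span_mono
  rintro x ⟨t'', U, u, v, h1, h2, hU, hu, hv, rfl⟩
  exact ⟨t'', U, u, v, h.trans h1, h2, hU, hu, hv, rfl⟩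

lemma Zf_top (a b : E → V) (w s : E → ℕ) (N : ℕ) {t : ℕ} (h : N < t) : Zf a b w s N t = ⊥ := by
  unfold Zf
  rw [Submodule.span_eq_bot]
  rintro x ⟨t'', U, u, v, h1, h2, hU, hu, hv, rfl⟩
  omega

lemma mem_Zf {a b : E → V} {w s : E → ℕ} {N t : ℕ} (ht : t ≤ N) {U : Finset V}
    (hU : Rich a b w s U t) {u v : V} (hu : u ∈ U) (hv : v ∈ U) :
    (Pi.single u 1 + Pi.single v 1 : V → ZMod 2) ∈ Zf a b w s N t :=
  Submodule.subset_span ⟨t, U, u, v, le_rfl, ht, hU, hu, hv, rfl⟩

lemma pair_trans {Y : Submodule (ZMod 2) (V → ZMod 2)} {u v x : V}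
    (h1 : (Pi.single u 1 + Pi.single v 1 : V → ZMod 2) ∈ Y)
    (h2 : (Pi.single v 1 + Pi.single x 1 : V → ZMod 2) ∈ Y) :
    (Pi.single u 1 + Pi.single x 1 : V → ZMod 2) ∈ Y := by
  have h3 := Y.add_mem h1 h2
  have h4 : (Pi.single u 1 + Pi.single v 1 + (Pi.single v 1 + Pi.single x 1) : V → ZMod 2) =
      Pi.single u 1 + Pi.single x 1 + (Pi.single v 1 + Pi.single v 1) := by abel
  rw [h4, add_self2, add_zero] at h3
  exact h3

theorem Zf_key (a b : E → V) (w s : E → ℕ) (N t : ℕ) (ht : t ≤ N)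
    (H : ∀ e, 1 ≤ w e → s e ≤ N ∧ bnd a b e ∈ Zf a b w s N (s e)) :
    ∀ (n : ℕ) (Y : Submodule (ZMod 2) (V → ZMod 2)), Zf a b w s N (t + 1) ≤ Y →
    Y ≤ Zf a b w s N t → finrank (ZMod 2) ↥(Zf a b w s N t) - finrank (ZMod 2) ↥Y = n →
    ∀ F : Finset E,
    (∀ e, bnd a b e ∈ Zf a b w s N t → bnd a b e ∉ Y → e ∈ F) →
    2 * t * finrank (ZMod 2) ↥(Zf a b w s N t) ≤
      2 * t * finrank (ZMod 2) ↥Y + ∑ e ∈ F, cp w t e := by
  classical
  intro n
  induction n using Nat.strong_induction_on with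
  | _ n ih =>
  intro Y hYl hY hn F hF
  by_cases hle : Zf a b w s N t ≤ Y
  · have : Zf a b w s N t = Y := le_antisymm hle hY
    rw [this]
    exact Nat.le_add_right _ _
  -- a generator outside `Y`
  have hgen : ∃ (U : Finset V) (u v : V), Rich a b w s U t ∧ u ∈ U ∧ v ∈ U ∧
      (Pi.single u 1 + Pi.single v 1 : V → ZMod 2) ∉ Y := by
    by_contra hcon
    push Not at hcon
    apply hle
    unfold Zf
    rw [Submodule.span_le]
    rintro x ⟨t', U, u, v, h1, h2, hU, hu, hv, rfl⟩
    rcases Nat.eq_or_lt_of_le h1 with h3 | h3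
    · subst h3
      exact hcon U u v hU hu hv
    · exact hYl (Zf_anti a b w s N h3 (mem_Zf h2 hU hu hv))
  obtain ⟨U, u₀, v₀, hU, hu₀, hv₀, hne⟩ := hgen
  set ZU : Submodule (ZMod 2) (V → ZMod 2) := Submodule.span (ZMod 2)
    {x | ∃ u v : V, u ∈ U ∧ v ∈ U ∧ x = Pi.single u 1 + Pi.single v 1} with hZU
  have hmemZU : ∀ u ∈ U, ∀ v ∈ U, (Pi.single u 1 + Pi.single v 1 : V → ZMod 2) ∈ ZU :=
    fun u hu v hv => Submodule.subset_span ⟨u, v, hu, hv, rfl⟩
  have hZUle : ZU ≤ Zf a b w s N t := by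
    rw [hZU, Submodule.span_le]
    rintro x ⟨u, v, hu, hv, rfl⟩
    exact mem_Zf ht hU hu hv
  -- classes modulo `Y`
  let S : Setoid V := {
    r := fun u v => (Pi.single u 1 + Pi.single v 1 : V → ZMod 2) ∈ Y
    iseqv := {
      refl := fun u => by rw [add_self2]; exact Y.zero_mem
      symm := fun {u v} h => by rw [add_comm]; exact h
      trans := fun {u v x} h1 h2 => pair_trans h1 h2 } }
  set c : V → V := fun v => Quotient.out (Quotient.mk S v) with hc
  have hcr : ∀ u v, c u = c v ↔ (Pi.single u 1 + Pi.single v 1 : V → ZMod 2) ∈ Y := by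
    intro u v
    constructor
    · intro h
      have h1 : Quotient.mk S u = Quotient.mk S v := by
        have := congrArg (Quotient.mk S) h
        simp only [hc, Quotient.out_eq] at this
        exact this
      exact Quotient.exact h1
    · intro h
      have h1 : Quotient.mk S u = Quotient.mk S v := Quotient.sound h
      simp only [hc, h1]
  have hcsep : ∀ f, 1 ≤ w f → t < s f → c (a f) = c (b f) := by
    intro f hf hs
    rw [hcr]
    exact hYl (Zf_anti a b w s N hs (H f hf).2)
  set Y' := Y ⊔ ZU with hY'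
  have hYY' : Y ≤ Y' := le_sup_left
  have hY'le : Y' ≤ Zf a b w s N t := sup_le hY hZUle
  -- rank of `Y'`
  set T := (U.image c).erase (c u₀) with hT
  have hTc : T.card = (U.image c).card - 1 := by
    rw [hT, Finset.card_erase_of_mem (Finset.mem_image_of_mem c hu₀)]
  have hg : ∀ q : V, ∃ x : V, q ∈ U.image c → x ∈ U ∧ c x = q := by
    intro q
    by_cases hq : q ∈ U.image c
    · obtain ⟨x, hx, hx'⟩ := Finset.mem_image.1 hq
      exact ⟨x, fun _ => ⟨hx, hx'⟩⟩
    · exact ⟨q, fun h => absurd h hq⟩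
  choose g hg using hg
  set Q : Finset (V → ZMod 2) := T.image (fun q => Pi.single u₀ 1 + Pi.single (g q) 1) with hQ
  have hstep : ∀ u ∈ U, (Pi.single u₀ 1 + Pi.single u 1 : V → ZMod 2) ∈
      Y ⊔ Submodule.span (ZMod 2) (Q : Set (V → ZMod 2)) := by
    intro u hu
    by_cases hcu : c u = c u₀
    · apply Submodule.mem_sup_left
      exact (hcr u₀ u).1 hcu.symm
    · have hq : c u ∈ T := Finset.mem_erase.2 ⟨hcu, Finset.mem_image_of_mem c hu⟩
      have h1 := hg (c u) (Finset.mem_of_mem_erase hq)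
      apply pair_trans (v := g (c u))
      · apply Submodule.mem_sup_right
        apply Submodule.subset_span
        exact Finset.mem_coe.2 (Finset.mem_image.2 ⟨c u, hq, rfl⟩)
      · apply Submodule.mem_sup_left
        exact (hcr _ _).1 h1.2
  have hY'2 : Y' ≤ Y ⊔ Submodule.span (ZMod 2) (Q : Set (V → ZMod 2)) := by
    apply sup_le le_sup_left
    rw [hZU, Submodule.span_le]
    rintro x ⟨u, v, hu, hv, rfl⟩
    have h1 := hstep u hu
    rw [add_comm] at h1
    exact pair_trans h1 (hstep v hv)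
  have hrank : finrank (ZMod 2) ↥Y' ≤ finrank (ZMod 2) ↥Y + ((U.image c).card - 1) := by
    have h1 := Submodule.finrank_mono hY'2
    have h2 := Submodule.finrank_add_le_finrank_add_finrank Y
      (Submodule.span (ZMod 2) (Q : Set (V → ZMod 2)))
    have h3 : finrank (ZMod 2) ↥(Submodule.span (ZMod 2) (Q : Set (V → ZMod 2))) ≤ Q.card :=
      finrank_span_finset_le_card Q
    have h4 : Q.card ≤ T.card := Finset.card_image_le
    omega
  have hlt : finrank (ZMod 2) ↥Y < finrank (ZMod 2) ↥Y' := by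
    apply Submodule.finrank_lt_finrank_of_lt
    apply lt_of_le_of_ne hYY'
    intro h
    apply hne
    rw [h]
    exact Submodule.mem_sup_right (hmemZU u₀ hu₀ v₀ hv₀)
  have hrle := Submodule.finrank_mono hY'le
  -- induction
  set F' := F.filter (fun e => bnd a b e ∉ Y') with hF'
  have h1 := ih (finrank (ZMod 2) ↥(Zf a b w s N t) - finrank (ZMod 2) ↥Y') (by omega) Y'
    (hYl.trans hYY') hY'le rfl F'
    (by
      intro e he1 he2
      rw [hF', Finset.mem_filter]
      exact ⟨hF e he1 (fun h => he2 (hYY' h)), he2⟩)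
  have h2 := hU c hcsep
  have h3 : ∑ e ∈ Finset.univ.filter (fun e => a e ∈ U ∧ b e ∈ U ∧ c (a e) ≠ c (b e)), cp w t e +
      ∑ e ∈ F', cp w t e ≤ ∑ e ∈ F, cp w t e := by
    rw [← Finset.sum_union]
    · apply Finset.sum_le_sum_of_subset
      intro e he
      rw [Finset.mem_union] at he
      rcases he with he | he
      · rw [Finset.mem_filter] at he
        obtain ⟨-, ha, hb, hab⟩ := he
        apply hF e
        · exact mem_Zf ht hU ha hb
        · intro h
          exact hab ((hcr _ _).2 h)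
      · exact (Finset.mem_filter.1 he).1
    · rw [Finset.disjoint_left]
      intro e he he'
      rw [Finset.mem_filter] at he he'
      obtain ⟨-, ha, hb, hab⟩ := he
      exact he'.2 (Submodule.mem_sup_right (hmemZU _ ha _ hb))
  have h4 : 2 * t * finrank (ZMod 2) ↥Y' ≤
      2 * t * finrank (ZMod 2) ↥Y + 2 * t * ((U.image c).card - 1) := by
    rw [← mul_add]
    exact Nat.mul_le_mul_left _ hrank
  omega

/-- **Levels.** -/
theorem exists_levels (a b : E → V) (w s : E → ℕ) (N : ℕ)
    (hs : ∀ e, w e ≤ 2 * s e + 1)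
    (H : ∀ e, 1 ≤ w e → s e ≤ N ∧ bnd a b e ∈ Zf a b w s N (s e)) :
    ∃ A B : ℕ → Finset E, (∀ j < N, Disjoint (A j) (B j) ∧
      (∀ e ∈ A j, bnd a b e ∈ Zf a b w s N (j + 1)) ∧
      (∀ e ∈ B j, bnd a b e ∈ Zf a b w s N (j + 1)) ∧
      Zf a b w s N (j + 1) ≤ sp (bnd a b) (A j) ∧ Zf a b w s N (j + 1) ≤ sp (bnd a b) (B j)) ∧
      ∀ e, ((Finset.range N).filter (fun j => e ∈ A j ∨ e ∈ B j)).card ≤ w e ∧
        ∃ R : Finset ℕ, R ⊆ Finset.range N ∧ (∀ j ∈ R, bnd a b e ∈ Zf a b w s N (j + 1)) ∧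
          (Finset.range N).filter (fun j => e ∈ A j ∨ e ∈ B j) ⊆ R ∧
          w e + ((Finset.range N).filter (fun j => e ∈ A j ∨ e ∈ B j)).card ≤ 2 * R.card + 1 ∧
          (1 ≤ w e → 1 ≤ s e → 0 ∈ R) := by
  classical
  set Zc : ℕ → Submodule (ZMod 2) (V → ZMod 2) := Zf a b w s N with hZc
  have hZc2 : ∀ t t', t ≤ t' → Zc t' ≤ Zc t := fun t t' h => Zf_anti a b w s N h
  set Es : ℕ → Finset E := fun t => Finset.univ.filter
    (fun e => bnd a b e ∈ Zc t ∧ bnd a b e ∉ Zc (t + 1)) with hEs
  have hmemEs : ∀ t e, e ∈ Es t ↔ bnd a b e ∈ Zc t ∧ bnd a b e ∉ Zc (t + 1) := by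
    intro t e
    rw [hEs, Finset.mem_filter]
    simp
  have hscale : ∀ t, ∃ A B : ℕ → Finset E, t ≤ N →
      ((∀ j < t, A j ⊆ Es t ∧ B j ⊆ Es t ∧ Disjoint (A j) (B j) ∧
      Zc t ≤ Zc (t + 1) ⊔ sp (bnd a b) (A j) ∧ Zc t ≤ Zc (t + 1) ⊔ sp (bnd a b) (B j)) ∧
      ∀ e ∈ Es t, ((Finset.range t).filter (fun j => e ∈ A j ∨ e ∈ B j)).card ≤ cp w t e) := by
    intro t
    by_cases ht : t ≤ N
    · obtain ⟨A, B, h1, h2⟩ := scale (bnd a b) t (Es t) (cp w t) (by
        intro e _
        unfold cp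
        omega) (Zc (t + 1)) (Zc t) (hZc2 _ _ (Nat.le_succ t)) (by
        intro e he
        exact ((hmemEs t e).1 he).1) (by
        intro Y hY1 hY2 F hF1 hF2
        apply Zf_key a b w s N t ht H _ Y hY1 hY2 rfl F
        intro e he1 he2
        apply hF2 e _ he2
        rw [hmemEs]
        exact ⟨he1, fun h => he2 (hY1 h)⟩)
      exact ⟨A, B, fun _ => ⟨h1, h2⟩⟩
    · exact ⟨fun _ => ∅, fun _ => ∅, fun h1 => absurd h1 ht⟩
  choose As Bs hAB using hscale
  have huniq : ∀ t t' e, e ∈ Es t → e ∈ Es t' → t = t' := by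
    intro t t' e h1 h2
    rw [hmemEs] at h1 h2
    rcases lt_trichotomy t t' with h | h | h
    · exact absurd (hZc2 _ _ h h2.1) h1.2
    · exact h
    · exact absurd (hZc2 _ _ h h1.1) h2.2
  have hspan : ∀ (D : ℕ → ℕ → Finset E) (j : ℕ),
      (∀ t, t ≤ N → j < t → Zc t ≤ Zc (t + 1) ⊔ sp (bnd a b) (D t j)) →
      ∀ n, j + n ≤ N →
      Zc (N + 1 - n) ≤ sp (bnd a b) ((Finset.Icc (N + 1 - n) N).biUnion (fun t => D t j)) := by
    intro D j hD n
    induction n with
    | zero =>
      intro _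
      have : Zc (N + 1 - 0) = ⊥ := Zf_top a b w s N (by omega)
      rw [this]
      exact bot_le
    | succ n ih =>
      intro hn
      have h1 := ih (by omega)
      obtain ⟨t, ht⟩ : ∃ t, t = N + 1 - (n + 1) := ⟨_, rfl⟩
      have ht1 : N + 1 - n = t + 1 := by omega
      rw [← ht]
      rw [ht1] at h1
      have h2 := hD t (by omega) (by omega)
      refine h2.trans (sup_le (h1.trans (sp_mono _ ?_)) (sp_mono _ ?_))
      · apply Finset.biUnion_subset_biUnion_of_subset_left
        intro x hx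
        rw [Finset.mem_Icc] at *
        omega
      · intro x hx
        rw [Finset.mem_biUnion]
        exact ⟨t, Finset.mem_Icc.2 (by omega), hx⟩
  have hmemA : ∀ j, ∀ e, e ∈ (Finset.Icc (j + 1) N).biUnion (fun t => As t j) →
      ∃ t, j + 1 ≤ t ∧ t ≤ N ∧ e ∈ As t j ∧ e ∈ Es t := by
    intro j e he
    rw [Finset.mem_biUnion] at he
    obtain ⟨t, ht, he⟩ := he
    rw [Finset.mem_Icc] at ht
    exact ⟨t, ht.1, ht.2, he, ((hAB t ht.2).1 j (by omega)).1 he⟩
  have hmemB : ∀ j, ∀ e, e ∈ (Finset.Icc (j + 1) N).biUnion (fun t => Bs t j) →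
      ∃ t, j + 1 ≤ t ∧ t ≤ N ∧ e ∈ Bs t j ∧ e ∈ Es t := by
    intro j e he
    rw [Finset.mem_biUnion] at he
    obtain ⟨t, ht, he⟩ := he
    rw [Finset.mem_Icc] at ht
    exact ⟨t, ht.1, ht.2, he, ((hAB t ht.2).1 j (by omega)).2.1 he⟩
  refine ⟨fun j => (Finset.Icc (j + 1) N).biUnion (fun t => As t j),
    fun j => (Finset.Icc (j + 1) N).biUnion (fun t => Bs t j), ?_, ?_⟩
  · intro j hj
    have hZmem : ∀ t e, j + 1 ≤ t → t ≤ N → e ∈ Es t → bnd a b e ∈ Zc (j + 1) := by
      intro t e h1 h2 he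
      exact hZc2 _ _ h1 ((hmemEs t e).1 he).1
    refine ⟨?_, ?_, ?_, ?_, ?_⟩
    · rw [Finset.disjoint_left]
      intro e he he'
      obtain ⟨t, h1, h2, h3, h4⟩ := hmemA j e he
      obtain ⟨t', h1', h2', h3', h4'⟩ := hmemB j e he'
      have := huniq t t' e h4 h4'
      subst this
      exact Finset.disjoint_left.1 ((hAB t h2).1 j (by omega)).2.2.1 h3 h3'
    · intro e he
      obtain ⟨t, h1, h2, h3, h4⟩ := hmemA j e he
      exact hZmem t e h1 h2 h4
    · intro e he
      obtain ⟨t, h1, h2, h3, h4⟩ := hmemB j e he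
      exact hZmem t e h1 h2 h4
    · have h := hspan As j (fun t h2 h3 => ((hAB t h2).1 j h3).2.2.2.1) (N - j) (by omega)
      have h1 : N + 1 - (N - j) = j + 1 := by omega
      rw [h1] at h
      exact h
    · have h := hspan Bs j (fun t h2 h3 => ((hAB t h2).1 j h3).2.2.2.2) (N - j) (by omega)
      have h1 : N + 1 - (N - j) = j + 1 := by omega
      rw [h1] at h
      exact h
  · intro e
    beta_reduce
    by_cases hex : ∃ t, t ≤ N ∧ e ∈ Es t
    · obtain ⟨t, h2, h3⟩ := hex
      have hsub : (Finset.range N).filter (fun j => e ∈ (Finset.Icc (j + 1) N).biUnion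
          (fun t => As t j) ∨ e ∈ (Finset.Icc (j + 1) N).biUnion (fun t => Bs t j)) ⊆
          (Finset.range t).filter (fun j => e ∈ As t j ∨ e ∈ Bs t j) := by
        intro j hj
        rw [Finset.mem_filter, Finset.mem_range] at hj
        rw [Finset.mem_filter, Finset.mem_range]
        obtain ⟨hjN, hj⟩ := hj
        rcases hj with hj | hj
        · obtain ⟨t', h5, h6, h7, h8⟩ := hmemA j e hj
          have := huniq t t' e h3 h8
          subst this
          exact ⟨by omega, Or.inl h7⟩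
        · obtain ⟨t', h5, h6, h7, h8⟩ := hmemB j e hj
          have := huniq t t' e h3 h8
          subst this
          exact ⟨by omega, Or.inr h7⟩
      have hcard := (Finset.card_le_card hsub).trans ((hAB t h2).2 e h3)
      unfold cp at hcard
      have hst : 1 ≤ w e → s e ≤ t := by
        intro h0
        by_contra hcon
        apply ((hmemEs t e).1 h3).2
        exact hZc2 (t + 1) (s e) (by omega) (H e h0).2
      have hwt : w e ≤ 2 * t + 1 := by
        rcases Nat.eq_zero_or_pos (w e) with h0 | h0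
        · omega
        · have h5 := hst h0
          have := hs e
          omega
      refine ⟨by omega, Finset.range t, ?_, ?_, ?_, ?_, ?_⟩
      · intro j hj
        rw [Finset.mem_range] at *
        omega
      · intro j hj
        rw [Finset.mem_range] at hj
        exact hZc2 _ _ hj ((hmemEs t e).1 h3).1
      · exact hsub.trans (Finset.filter_subset _ _)
      · rw [Finset.card_range]
        omega
      · intro h5 h6
        have := hst h5
        exact Finset.mem_range.2 (by omega)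
    · have hemp : (Finset.range N).filter (fun j => e ∈ (Finset.Icc (j + 1) N).biUnion
          (fun t => As t j) ∨ e ∈ (Finset.Icc (j + 1) N).biUnion (fun t => Bs t j)) = ∅ := by
        rw [Finset.filter_eq_empty_iff]
        intro j hj h
        apply hex
        rcases h with h | h
        · obtain ⟨t', h5, h6, h7, h8⟩ := hmemA j e h
          exact ⟨t', h6, h8⟩
        · obtain ⟨t', h5, h6, h7, h8⟩ := hmemB j e h
          exact ⟨t', h6, h8⟩
      rw [hemp, Finset.card_empty]
      rcases Nat.eq_zero_or_pos (w e) with h0 | h0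
      · exact ⟨Nat.zero_le _, ∅, Finset.empty_subset _, fun j hj => absurd hj (Finset.notMem_empty j),
          Finset.Subset.refl _, by rw [h0]; exact Nat.zero_le _, fun h => by omega⟩
      · -- the boundary of `e` is `0`
        have hzero : ∀ n, n ≤ N + 1 - s e → bnd a b e ∈ Zc (s e + n) := by
          intro n
          induction n with
          | zero =>
            intro _
            exact (H e h0).2
          | succ n ih =>
            intro hn
            have h1 := ih (by omega)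
            by_contra hcon
            apply hex
            refine ⟨s e + n, by omega, ?_⟩
            rw [hmemEs]
            exact ⟨h1, hcon⟩
        have hsN := (H e h0).1
        have h1 := hzero (N + 1 - s e) le_rfl
        have h2 : Zc (s e + (N + 1 - s e)) = ⊥ := Zf_top a b w s N (by omega)
        rw [h2, Submodule.mem_bot] at h1
        refine ⟨Nat.zero_le _, Finset.range N, Finset.Subset.refl _, ?_, Finset.empty_subset _, ?_, ?_⟩
        · intro j _
          rw [h1]
          exact Submodule.zero_mem _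
        · rw [Finset.card_range]
          have := hs e
          omega
        · intro _ h6
          exact Finset.mem_range.2 (by omega)

end Pool.Agent.FCCov
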