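import Mathlib
import Pool.Agent.FCCov.B

/-!
# Covers by even sets: one level, the buffer level, assembly
-/

set_option autoImplicit false
set_option linter.unusedSectionVars false

namespace Pool.Agent.FCCov

variable {E : Type*} [DecidableEq E] [Fintype E] {M : Type*} [AddCommGroup M] [Module (ZMod 2) M]
  (bd : E → M)

/-- even edge sets -/
def Ev (D : Finset E) : Prop := ∑ e ∈ D, bd e = 0

/-- `w` is the sum of the indicator functions of a multiset of even edge sets -/
def EvCover (w : E → ℕ) : Prop :=
  ∃ F : Multiset (Finset E), (∀ D ∈ F, Ev bd D) ∧ ∀ e, F.countP (fun D => e ∈ D) = w e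

variable {bd}

lemma EvCover.add {w w' : E → ℕ} (h : EvCover bd w) (h' : EvCover bd w') :
    EvCover bd (fun e => w e + w' e) := by
  obtain ⟨F, hF, hc⟩ := h
  obtain ⟨F', hF', hc'⟩ := h'
  refine ⟨F + F', ?_, ?_⟩
  · intro D hD
    rcases Multiset.mem_add.1 hD with h1 | h1
    · exact hF D h1
    · exact hF' D h1
  · intro e
    rw [Multiset.countP_add, hc, hc']

lemma EvCover.zero : EvCover bd (fun _ => 0) :=
  ⟨0, fun D hD => absurd hD (Multiset.notMem_zero D), fun _ => Multiset.countP_zero _⟩

lemma EvCover.single {D : Finset E} (h : Ev bd D) : EvCover bd (fun e => if e ∈ D then 1 else 0) := by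
  refine ⟨{D}, ?_, ?_⟩
  · intro D' hD'
    rw [Multiset.mem_singleton] at hD'
    rw [hD']
    exact h
  · intro e
    rw [← Multiset.cons_zero, Multiset.countP_cons, Multiset.countP_zero, zero_add]

lemma EvCover.sum {ι : Type*} (P : Finset ι) (x : ι → E → ℕ) (h : ∀ i ∈ P, EvCover bd (x i)) :
    EvCover bd (fun e => ∑ i ∈ P, x i e) := by
  classical
  induction P using Finset.induction_on with
  | empty => simpa using EvCover.zero
  | insert i P hi ih =>
    have h1 := ih (fun j hj => h j (Finset.mem_insert_of_mem hj))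
    have h2 := (h i (Finset.mem_insert_self i P)).add h1
    have : (fun e => ∑ j ∈ insert i P, x j e) = (fun e => x i e + ∑ j ∈ P, x j e) := by
      funext e
      rw [Finset.sum_insert hi]
    rw [this]
    exact h2

lemma EvCover.congr {w w' : E → ℕ} (h : EvCover bd w) (hw : ∀ e, w e = w' e) : EvCover bd w' := by
  have : w = w' := funext hw
  rwa [← this]

lemma Ev.symmDiff {X Y : Finset E} (hX : Ev bd X) (hY : Ev bd Y) : Ev bd (symmDiff X Y) := by
  unfold Ev at *
  rw [sum_symmDiff, hX, hY, add_zero]

end Pool.Agent.FCCov
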