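import Mathlib
import Pool.Agent.FCCov.D

/-!
# Assembly with prescribed boundaries
-/

set_option autoImplicit false
set_option linter.unusedSectionVars false

namespace Pool.Agent.FCCov

open Module

variable {E : Type*} [Fintype E] [DecidableEq E]
variable {M : Type*} [AddCommGroup M] [Module (ZMod 2) M]

lemma cancel2 (x y : M) : x + (x + y) = y := by
  rw [← add_assoc, add_self2, zero_add]

variable {bd : E → M}

/-- `w` is the sum of the indicators of a multiset of edge sets whose boundaries form the multiset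
`T` -/
def TC (bd : E → M) (w : E → ℕ) (T : Multiset M) : Prop :=
  ∃ F : Multiset (Finset E), F.map (fun D => ∑ e ∈ D, bd e) = T ∧
    ∀ e, F.countP (fun D => e ∈ D) = w e

lemma TC.add {w w' : E → ℕ} {T T' : Multiset M} (h : TC bd w T) (h' : TC bd w' T') :
    TC bd (fun e => w e + w' e) (T + T') := by
  obtain ⟨F, hF, hc⟩ := h
  obtain ⟨F', hF', hc'⟩ := h'
  refine ⟨F + F', ?_, ?_⟩
  · rw [Multiset.map_add, hF, hF']
  · intro e
    rw [Multiset.countP_add, hc, hc']

lemma TC.zero : TC bd (fun _ => 0) 0 :=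
  ⟨0, Multiset.map_zero _, fun _ => Multiset.countP_zero _⟩

lemma TC.single {D : Finset E} {τ : M} (h : ∑ e ∈ D, bd e = τ) :
    TC bd (fun e => if e ∈ D then 1 else 0) {τ} := by
  refine ⟨{D}, ?_, ?_⟩
  · rw [Multiset.map_singleton, h]
  · intro e
    rw [← Multiset.cons_zero, Multiset.countP_cons, Multiset.countP_zero, zero_add]

lemma TC.congr {w w' : E → ℕ} {T T' : Multiset M} (h : TC bd w T) (hw : ∀ e, w e = w' e)
    (hT : T = T') : TC bd w' T' := by
  have : w = w' := funext hw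
  rw [← this, ← hT]
  exact h

lemma TC.sum {ι : Type*} (P : Finset ι) (x : ι → E → ℕ) (T : ι → Multiset M)
    (h : ∀ i ∈ P, TC bd (x i) (T i)) : TC bd (fun e => ∑ i ∈ P, x i e) (∑ i ∈ P, T i) := by
  classical
  induction P using Finset.induction_on with
  | empty => simpa using TC.zero
  | insert i P hi ih =>
    have h1 := ih (fun j hj => h j (Finset.mem_insert_of_mem hj))
    have h2 := (h i (Finset.mem_insert_self i P)).add h1
    refine h2.congr (fun e => ?_) ?_
    · rw [Finset.sum_insert hi]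
    · rw [Finset.sum_insert hi]

lemma TC.evCover {w : E → ℕ} {n : ℕ} (h : TC bd w (Multiset.replicate n 0)) : EvCover bd w := by
  obtain ⟨F, hF, hc⟩ := h
  refine ⟨F, fun D hD => ?_, hc⟩
  have h1 : (∑ e ∈ D, bd e) ∈ F.map (fun D => ∑ e ∈ D, bd e) :=
    Multiset.mem_map_of_mem (fun D => ∑ e ∈ D, bd e) hD
  rw [hF] at h1
  exact Multiset.eq_of_mem_replicate h1

/-- a level: weight `1` on the set `S`, weight `2` on `D` -/
lemma TC.level {S D A : Finset E} {τ τ' : M} (hSD : Disjoint S D) (hS : ∑ e ∈ S, bd e = τ + τ')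
    (hA : A ⊆ S) (hD : ∀ e ∈ D, bd e ∈ sp bd A) (hτ : τ ∈ sp bd A) :
    TC bd (fun e => (if e ∈ S then 1 else 0) + 2 * (if e ∈ D then 1 else 0)) {τ, τ'} := by
  have h1 : ∑ e ∈ D, bd e + τ ∈ sp bd A :=
    Submodule.add_mem _ (Submodule.sum_mem _ hD) hτ
  obtain ⟨Q, hQ, hQs⟩ := exists_join bd h1
  have hQS : Q ⊆ S := hQ.trans hA
  have hdisj : Disjoint D Q := by
    rw [Finset.disjoint_left]
    intro e he he'
    exact Finset.disjoint_left.1 hSD (hQS he') he
  have hZ : ∑ e ∈ D ∪ Q, bd e = τ := by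
    rw [Finset.sum_union hdisj, hQs, cancel2]
  have hZ' : ∑ e ∈ _root_.symmDiff (D ∪ Q) S, bd e = τ' := by
    rw [sum_symmDiff, hZ, hS, cancel2]
  refine ((TC.single hZ).add (TC.single hZ')).congr ?_ rfl
  intro e
  simp only [Finset.mem_symmDiff]
  by_cases h2 : e ∈ S
  · have h3 : e ∉ D := Finset.disjoint_left.1 hSD h2
    by_cases h4 : e ∈ Q <;> simp [h2, h3, h4]
  · have h4 : e ∉ Q := fun h => h2 (hQS h)
    by_cases h3 : e ∈ D <;> simp [h2, h3, h4]

/-- the buffer level: on `L` weight `1` on `S` and `2` off `S`, outside `L` weight `3` on `S` and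
`0` off `S` -/
lemma TC.buffer {L A B S : Finset E} {τ₁ τ₂ τ₃ : M} (hA : A ⊆ L) (hB : B ⊆ L)
    (hAB : Disjoint A B) (hLA : ∀ e ∈ L, bd e ∈ sp bd A) (hLB : ∀ e ∈ L, bd e ∈ sp bd B)
    (hSA : ∑ e ∈ S, bd e ∈ sp bd A) (hSB : ∑ e ∈ S, bd e ∈ sp bd B)
    (hS : ∑ e ∈ S, bd e = τ₁ + τ₂ + τ₃) (h₁ : τ₁ ∈ sp bd A) (h₂ : τ₂ ∈ sp bd B) :
    TC bd (fun e => if e ∈ L then (if e ∈ S then 1 else 2) else (if e ∈ S then 3 else 0))
      {τ₁, τ₂, τ₃} := by
  have key : ∀ C ⊆ L, (∀ e ∈ L, bd e ∈ sp bd C) → ∀ ρ ∈ sp bd C,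
      ∃ P ⊆ L, ∑ e ∈ P, bd e = ρ ∧ L \ C ⊆ P := by
    intro C hC hLC ρ hρ
    have h1 : ∑ e ∈ L \ C, bd e + ρ ∈ sp bd C :=
      Submodule.add_mem _ (Submodule.sum_mem _ (fun e he => hLC e (Finset.mem_sdiff.1 he).1)) hρ
    obtain ⟨Q, hQ, hQs⟩ := exists_join bd h1
    refine ⟨(L \ C) ∪ Q, Finset.union_subset Finset.sdiff_subset (hQ.trans hC), ?_,
      Finset.subset_union_left⟩
    rw [Finset.sum_union, hQs, cancel2]
    rw [Finset.disjoint_left]
    intro e he he'
    exact (Finset.mem_sdiff.1 he).2 (hQ he')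
  obtain ⟨P, hPL, hP, hPc⟩ := key A hA hLA (∑ e ∈ S, bd e + τ₁)
    (Submodule.add_mem _ hSA h₁)
  obtain ⟨P', hPL', hP', hPc'⟩ := key B hB hLB (∑ e ∈ S, bd e + τ₂)
    (Submodule.add_mem _ hSB h₂)
  have e1 : ∑ e ∈ _root_.symmDiff S P, bd e = τ₁ := by
    rw [sum_symmDiff, hP, cancel2]
  have e2 : ∑ e ∈ _root_.symmDiff S P', bd e = τ₂ := by
    rw [sum_symmDiff, hP', cancel2]
  have e3 : ∑ e ∈ _root_.symmDiff (_root_.symmDiff S P) P', bd e = τ₃ := by
    rw [sum_symmDiff, e1, hP', hS]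
    have : τ₁ + (τ₁ + τ₂ + τ₃ + τ₂) = (τ₁ + τ₁) + (τ₂ + τ₂) + τ₃ := by abel
    rw [this, add_self2, add_self2, zero_add, zero_add]
  refine (((TC.single e1).add (TC.single e2)).add (TC.single e3)).congr ?_ ?_
  · intro e
    simp only [Finset.mem_symmDiff]
    by_cases h1 : e ∈ L
    · have h2 : e ∈ P ∨ e ∈ P' := by
        by_cases h3 : e ∈ A
        · right
          exact hPc' (Finset.mem_sdiff.2 ⟨h1, fun h => Finset.disjoint_left.1 hAB h3 h⟩)
        · left
          exact hPc (Finset.mem_sdiff.2 ⟨h1, h3⟩)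
      by_cases h3 : e ∈ S <;> by_cases h4 : e ∈ P <;> by_cases h5 : e ∈ P' <;>
        simp [h1, h3, h4, h5] <;> (exfalso; tauto)
    · have h4 : e ∉ P := fun h => h1 (hPL h)
      have h5 : e ∉ P' := fun h => h1 (hPL' h)
      by_cases h3 : e ∈ S <;> simp [h1, h3, h4, h5]
  · rfl

/-- **Assembly.** -/
theorem assemble_t (w : E → ℕ) (N : ℕ) (hN : 0 < N) (Z : ℕ → Submodule (ZMod 2) M)
    (A B : ℕ → Finset E)
    (hAB : ∀ j < N, Disjoint (A j) (B j) ∧ Z j ≤ sp bd (A j) ∧ Z j ≤ sp bd (B j))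
    (R : E → Finset ℕ) (hR : ∀ e, ∀ j ∈ R e, bd e ∈ Z j) (hR0 : ∀ e, 1 ≤ w e → 0 ∈ R e)
    (hU : ∀ e, (Finset.range N).filter (fun j => e ∈ A j ∨ e ∈ B j) ⊆ R e)
    (hRN : ∀ e, R e ⊆ Finset.range N)
    (h1 : ∀ e, ((Finset.range N).filter (fun j => e ∈ A j ∨ e ∈ B j)).card ≤ w e)
    (h2 : ∀ e, w e + ((Finset.range N).filter (fun j => e ∈ A j ∨ e ∈ B j)).card ≤
      2 * (R e).card + 1)
    (f : ℕ → M) (hf0 : f 0 ∈ Z 0) (hf : ∀ j < N, f (2 * j + 1) ∈ Z j ∧ f (2 * j + 2) ∈ Z j)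
    (hev : ∑ e, w e • bd e = f 0 + f 1 + f 2 +
      ∑ j ∈ Finset.Ico 1 N, (f (2 * j + 1) + f (2 * j + 2))) :
    TC bd w ({f 0, f 1, f 2} + ∑ j ∈ Finset.Ico 1 N, {f (2 * j + 1), f (2 * j + 2)}) := by
  classical
  set Us : E → Finset ℕ := fun e => (Finset.range N).filter (fun j => e ∈ A j ∨ e ∈ B j) with hUs
  have hUA : ∀ j < N, ∀ e ∈ A j, j ∈ Us e := fun j hj e he =>
    Finset.mem_filter.2 ⟨Finset.mem_range.2 hj, Or.inl he⟩
  have hUB : ∀ j < N, ∀ e ∈ B j, j ∈ Us e := fun j hj e he =>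
    Finset.mem_filter.2 ⟨Finset.mem_range.2 hj, Or.inr he⟩
  have hUr : ∀ e, Us e ⊆ Finset.range N := fun e => Finset.filter_subset _ _
  -- levels of multiplicity two
  set ρc : E → ℕ := fun e => (R e \ insert 0 (Us e)).card with hρc
  have hLex : ∀ e, ∃ L ⊆ R e \ insert 0 (Us e), L.card = min (ρc e) ((w e - (Us e).card) / 2) :=
    fun e => Finset.exists_subset_card_eq (min_le_left _ _)
  choose L₂ hL₂ hL₂c using hLex
  have hRc : ∀ e, 1 ≤ w e → ρc e + (insert 0 (Us e)).card = (R e).card := by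
    intro e he
    rw [hρc]
    exact Finset.card_sdiff_add_card_eq_card (Finset.insert_subset (hR0 e he) (hU e))
  set ρ0 : E → ℕ := fun e => w e - ((Us e).erase 0).card - 2 * (L₂ e).card with hρ0
  have hρ0' : ∀ e, ((Us e).erase 0).card + 2 * (L₂ e).card + ρ0 e = w e ∧ ρ0 e ≤ 3 ∧
      (0 ∈ Us e → 1 ≤ ρ0 e ∧ ρ0 e ≤ 2) := by
    intro e
    have c1 := h1 e
    have c2 := h2 e
    have c3 := hL₂c e
    rcases Nat.eq_zero_or_pos (w e) with h0 | h0
    · have c4 : (Us e).card = 0 := by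
        have : (Us e).card ≤ w e := c1
        omega
      rw [Finset.card_eq_zero] at c4
      have c5 : (L₂ e).card = 0 := by
        rw [c3, h0]
        simp
      simp only [hρ0]
      rw [h0, c5, c4]
      simp
    · have c4 := hRc e h0
      by_cases hU0 : 0 ∈ Us e
      · rw [Finset.insert_eq_self.2 hU0] at c4
        have c5 := Finset.card_erase_of_mem hU0
        have c6 : 0 < (Us e).card := Finset.card_pos.2 ⟨0, hU0⟩
        change (Us e).card ≤ w e at c1
        change w e + (Us e).card ≤ 2 * (R e).card + 1 at c2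
        simp only [hρ0]
        rw [c5]
        rcases le_total (ρc e) ((w e - (Us e).card) / 2) with h3 | h3
        · rw [min_eq_left h3] at c3
          refine ⟨by omega, by omega, fun _ => by omega⟩
        · rw [min_eq_right h3] at c3
          refine ⟨by omega, by omega, fun _ => by omega⟩
      · rw [Finset.card_insert_of_notMem hU0] at c4
        have c5 := Finset.erase_eq_of_notMem hU0
        change (Us e).card ≤ w e at c1
        change w e + (Us e).card ≤ 2 * (R e).card + 1 at c2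
        simp only [hρ0]
        rw [c5]
        rcases le_total (ρc e) ((w e - (Us e).card) / 2) with h3 | h3
        · rw [min_eq_left h3] at c3
          refine ⟨by omega, by omega, fun h => absurd h hU0⟩
        · rw [min_eq_right h3] at c3
          refine ⟨by omega, by omega, fun h => absurd h hU0⟩
  clear_value ρ0
  -- singles of level `j`
  set X : ℕ → Finset E := fun j => Finset.univ.filter (fun e => j ∈ Us e) with hX
  have hmemX : ∀ j e, e ∈ X j ↔ j ∈ Us e := by
    intro j e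
    rw [hX, Finset.mem_filter]
    simp
  have hAX : ∀ j < N, A j ⊆ X j := by
    intro j hj e he
    rw [hmemX]
    exact hUA j hj e he
  have hBX : ∀ j < N, B j ⊆ X j := by
    intro j hj e he
    rw [hmemX]
    exact hUB j hj e he
  have hJ : ∀ j, ∃ J : Finset E, j < N → J ⊆ B j ∧
      ∑ e ∈ J, bd e = ∑ e ∈ X j, bd e + (f (2 * j + 1) + f (2 * j + 2)) := by
    intro j
    by_cases hj : j < N
    · have h3 : ∑ e ∈ X j, bd e + (f (2 * j + 1) + f (2 * j + 2)) ∈ sp bd (B j) := by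
        apply (hAB j hj).2.2
        apply Submodule.add_mem
        · apply Submodule.sum_mem
          intro e he
          exact hR e j (hU e ((hmemX j e).1 he))
        · exact Submodule.add_mem _ (hf j hj).1 (hf j hj).2
      obtain ⟨J, hJ, hJs⟩ := exists_join bd h3
      exact ⟨J, fun _ => ⟨hJ, hJs⟩⟩
    · exact ⟨∅, fun h => absurd h hj⟩
  choose J hJ using hJ
  set K : E → Finset ℕ := fun e => (Finset.Ico 1 N).filter (fun j => e ∈ J j) with hK
  have hmemK : ∀ e j, j ∈ K e ↔ (1 ≤ j ∧ j < N) ∧ e ∈ J j := by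
    intro e j
    rw [hK, Finset.mem_filter, Finset.mem_Ico]
  have hKU : ∀ e, K e ⊆ Us e := by
    intro e j hj
    rw [hmemK] at hj
    exact hUB j hj.1.2 e ((hJ j hj.1.2).1 hj.2)
  set x0 : E → ℕ := fun e => if (K e).card % 2 = 0 then ρ0 e else
    if ρ0 e ≤ 1 then ρ0 e + 1 else ρ0 e - 1 with hx0
  have hDex : ∀ e, ∃ D ⊆ K e, 2 * D.card + x0 e = (K e).card + ρ0 e := by
    intro e
    have c1 := (hρ0' e).2.1
    obtain ⟨D, hD, hDc⟩ := Finset.exists_subset_card_eq
      (show ((K e).card + ρ0 e - x0 e) / 2 ≤ (K e).card by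
        simp only [hx0]
        split_ifs <;> omega)
    refine ⟨D, hD, ?_⟩
    rw [hDc]
    simp only [hx0]
    split_ifs <;> omega
  choose D hDK hDc using hDex
  set S : ℕ → Finset E := fun j => X j \ J j with hS
  set DD : ℕ → Finset E := fun j => Finset.univ.filter (fun e => j ∈ L₂ e ∨ j ∈ D e) with hDD
  have hmemDD : ∀ j e, e ∈ DD j ↔ j ∈ L₂ e ∨ j ∈ D e := by
    intro j e
    rw [hDD, Finset.mem_filter]
    simp
  set x : ℕ → E → ℕ := fun j e => (if e ∈ S j then 1 else 0) + 2 * (if e ∈ DD j then 1 else 0) with hx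
  have hL₂U : ∀ e, ∀ j ∈ L₂ e, j ∉ Us e := by
    intro e j hj h
    exact (Finset.mem_sdiff.1 (hL₂ e hj)).2 (Finset.mem_insert_of_mem h)
  -- the total
  have htot : ∀ e, x0 e + ∑ j ∈ Finset.Ico 1 N, x j e = w e := by
    intro e
    have h3 : ∀ j ∈ Finset.Ico 1 N, x j e + (if j ∈ K e then 1 else 0) =
        (if j ∈ Us e then 1 else 0) + 2 * (if j ∈ L₂ e then 1 else 0) +
          2 * (if j ∈ D e then 1 else 0) := by
      intro j hj
      rw [Finset.mem_Ico] at hj
      have hmS : e ∈ S j ↔ j ∈ Us e ∧ j ∉ K e := by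
        rw [hS, Finset.mem_sdiff, hmemX, hmemK]
        constructor
        · rintro ⟨h4, h5⟩
          exact ⟨h4, fun h6 => h5 h6.2⟩
        · rintro ⟨h4, h5⟩
          exact ⟨h4, fun h6 => h5 ⟨hj, h6⟩⟩
      simp only [hx, hmS, hmemDD]
      by_cases hk : j ∈ K e
      · have h4 := hKU e hk
        have h5 : j ∉ L₂ e := fun h => hL₂U e j h h4
        by_cases h6 : j ∈ D e <;> simp [hk, h4, h5, h6]
      · have h6 : j ∉ D e := fun h => hk (hDK e h)
        by_cases h5 : j ∈ L₂ e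
        · have h4 := hL₂U e j h5
          simp [hk, h4, h5, h6]
        · by_cases h4 : j ∈ Us e <;> simp [hk, h4, h5, h6]
    have hind : ∀ T : Finset ℕ, ∑ j ∈ Finset.Ico 1 N, (if j ∈ T then 1 else 0) =
        ((Finset.Ico 1 N).filter (fun j => j ∈ T)).card := by
      intro T
      rw [Finset.card_filter]
    have h4 : ∑ j ∈ Finset.Ico 1 N, (x j e + (if j ∈ K e then 1 else 0)) =
      ∑ j ∈ Finset.Ico 1 N, ((if j ∈ Us e then 1 else 0) + 2 * (if j ∈ L₂ e then 1 else 0) +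
        2 * (if j ∈ D e then 1 else 0)) := Finset.sum_congr rfl h3
    clear_value x
    simp only [Finset.sum_add_distrib, ← Finset.mul_sum, hind] at h4
    have hsub : ∀ T : Finset ℕ, T ⊆ Finset.range N →
        ((Finset.Ico 1 N).filter (fun j => j ∈ T)).card = (T.erase 0).card := by
      intro T hT
      congr 1
      ext j
      rw [Finset.mem_filter, Finset.mem_Ico, Finset.mem_erase]
      constructor
      · rintro ⟨h6, h7⟩
        exact ⟨by omega, h7⟩
      · rintro ⟨h6, h7⟩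
        have := Finset.mem_range.1 (hT h7)
        exact ⟨by omega, h7⟩
    have hKr : K e ⊆ Finset.range N := fun j hj => Finset.mem_range.2 ((hmemK e j).1 hj).1.2
    have hK0 : 0 ∉ K e := fun h => by
      have := ((hmemK e 0).1 h).1.1
      omega
    have hD0 : 0 ∉ D e := fun h => hK0 (hDK e h)
    have hL0 : 0 ∉ L₂ e := fun h => (Finset.mem_sdiff.1 (hL₂ e h)).2 (Finset.mem_insert_self _ _)
    have hLr : L₂ e ⊆ Finset.range N := fun j hj => hRN e (Finset.mem_sdiff.1 (hL₂ e hj)).1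
    have c1 := hsub (K e) hKr
    have c2 := hsub (Us e) (hUr e)
    have c3 := hsub (L₂ e) hLr
    have c4 := hsub (D e) ((hDK e).trans hKr)
    rw [Finset.erase_eq_of_notMem hK0] at c1
    rw [Finset.erase_eq_of_notMem hL0] at c3
    rw [Finset.erase_eq_of_notMem hD0] at c4
    have c5 := (hρ0' e).1
    have c6 := hDc e
    omega
  -- evenness
  have hSev : ∀ j ∈ Finset.Ico 1 N, ∑ e ∈ S j, bd e = f (2 * j + 1) + f (2 * j + 2) := by
    intro j hj
    rw [Finset.mem_Ico] at hj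
    have h3 := Finset.sum_sdiff (f := bd) ((hJ j hj.2).1.trans (hBX j hj.2))
    rw [(hJ j hj.2).2] at h3
    generalize f (2 * j + 1) + f (2 * j + 2) = τ at h3 ⊢
    have h4 : ∑ e ∈ X j \ J j, bd e + (∑ e ∈ X j, bd e + τ) = τ + (∑ e ∈ X j, bd e + τ) := by
      rw [h3, add_left_comm, add_self2, add_zero]
    exact add_right_cancel h4
  have hxj : ∀ j ∈ Finset.Ico 1 N, ∑ e, x j e • bd e = f (2 * j + 1) + f (2 * j + 2) := by
    intro j hj
    have h3 : ∀ e, x j e • bd e = (if e ∈ S j then bd e else 0) := by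
      intro e
      simp only [hx]
      rw [add_smul, mul_smul, two_smul, add_self2, add_zero]
      split_ifs <;> simp
    rw [Finset.sum_congr rfl (fun e _ => h3 e), ← Finset.sum_filter]
    have h4 : Finset.univ.filter (fun e => e ∈ S j) = S j := by
      ext e; simp
    rw [h4]
    exact hSev j hj
  set S0 : Finset E := Finset.univ.filter (fun e => x0 e % 2 = 1) with hS0
  set L0 : Finset E := Finset.univ.filter (fun e => 1 ≤ x0 e ∧ x0 e ≤ 2) with hL0
  have hx03 : ∀ e, x0 e ≤ 3 := by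
    intro e
    have := (hρ0' e).2.1
    simp only [hx0]
    split_ifs <;> omega
  have hx0U : ∀ e, 0 ∈ Us e → 1 ≤ x0 e ∧ x0 e ≤ 2 := by
    intro e he
    have := (hρ0' e).2.2 he
    simp only [hx0]
    split_ifs <;> omega
  have hZ0 : ∀ e, 1 ≤ x0 e → bd e ∈ Z 0 := by
    intro e he
    have := htot e
    exact hR e 0 (hR0 e (by omega))
  have hS0ev : ∑ e ∈ S0, bd e = f 0 + f 1 + f 2 := by
    have h3 : ∑ e, x0 e • bd e = f 0 + f 1 + f 2 := by
      have h4 : ∑ e, (x0 e + ∑ j ∈ Finset.Ico 1 N, x j e) • bd e = f 0 + f 1 + f 2 +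
          ∑ j ∈ Finset.Ico 1 N, (f (2 * j + 1) + f (2 * j + 2)) := by
        rw [← hev]
        exact Finset.sum_congr rfl (fun e _ => by rw [htot e])
      simp only [add_smul, Finset.sum_smul] at h4
      rw [Finset.sum_add_distrib, Finset.sum_comm, Finset.sum_congr rfl hxj] at h4
      exact add_right_cancel h4
    rw [hS0, Finset.sum_filter]
    refine Eq.trans ?_ h3
    apply Finset.sum_congr rfl
    intro e _
    have h4 := hx03 e
    have h5 : x0 e = 0 ∨ x0 e = 1 ∨ x0 e = 2 ∨ x0 e = 3 := by omega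
    have h6 : (3 : ℕ) • bd e = bd e := by
      have : (3 : ℕ) = 2 + 1 := rfl
      rw [this, add_smul, two_smul, add_self2, one_smul, zero_add]
    rcases h5 with h5 | h5 | h5 | h5
    · simp [h5]
    · simp [h5]
    · rw [h5, two_smul, add_self2]
      simp
    · rw [h5, h6]
      simp
  have hS0Z : ∑ e ∈ S0, bd e ∈ Z 0 := by
    apply Submodule.sum_mem
    intro e he
    rw [hS0, Finset.mem_filter] at he
    exact hZ0 e (by omega)
  have hbuf : TC bd x0 {f 0, f 1, f 2} := by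
    refine (TC.buffer (L := L0) (A := A 0) (B := B 0) (S := S0) ?_ ?_ (hAB 0 hN).1 ?_ ?_
      ((hAB 0 hN).2.1 hS0Z) ((hAB 0 hN).2.2 hS0Z)
      hS0ev ((hAB 0 hN).2.1 hf0) ((hAB 0 hN).2.2 (hf 0 hN).1)).congr ?_ rfl
    · intro e he
      rw [hL0, Finset.mem_filter]
      exact ⟨Finset.mem_univ _, hx0U e (hUA 0 hN e he)⟩
    · intro e he
      rw [hL0, Finset.mem_filter]
      exact ⟨Finset.mem_univ _, hx0U e (hUB 0 hN e he)⟩
    · intro e he
      rw [hL0, Finset.mem_filter] at he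
      exact (hAB 0 hN).2.1 (hZ0 e he.2.1)
    · intro e he
      rw [hL0, Finset.mem_filter] at he
      exact (hAB 0 hN).2.2 (hZ0 e he.2.1)
    · intro e
      have h4 := hx03 e
      have hm1 : e ∈ L0 ↔ 1 ≤ x0 e ∧ x0 e ≤ 2 := by rw [hL0, Finset.mem_filter]; simp
      have hm2 : e ∈ S0 ↔ x0 e % 2 = 1 := by rw [hS0, Finset.mem_filter]; simp
      simp only [hm1, hm2]
      split_ifs <;> omega
  refine (hbuf.add (TC.sum (Finset.Ico 1 N) x
    (fun j => {f (2 * j + 1), f (2 * j + 2)}) ?_)).congr htot rfl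
  intro j hj
  have hj' := Finset.mem_Ico.1 hj
  apply TC.level (A := A j)
  · rw [Finset.disjoint_left]
    intro e he he'
    rw [hmemDD] at he'
    have h3 := Finset.mem_sdiff.1 he
    rcases he' with h4 | h4
    · exact hL₂U e j h4 ((hmemX j e).1 h3.1)
    · exact h3.2 ((hmemK e j).1 (hDK e h4)).2
  · exact hSev j hj
  · intro e he
    refine Finset.mem_sdiff.2 ⟨hAX j hj'.2 he, fun h => ?_⟩
    exact Finset.disjoint_left.1 (hAB j hj'.2).1 he ((hJ j hj'.2).1 h)
  · intro e he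
    apply (hAB j hj'.2).2.1
    rw [hmemDD] at he
    rcases he with h4 | h4
    · exact hR e j (Finset.mem_sdiff.1 (hL₂ e h4)).1
    · exact hR e j (hU e (hKU e (hDK e h4)))
  · exact (hAB j hj'.2).2.1 (hf j hj'.2).1

end Pool.Agent.FCCov
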