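import Mathlib
import Pool.Agent.FCCov.C
import Pool.Agent.FCCov.D2

/-!
# Splitting off vertices all of whose edges have weight one
-/

set_option autoImplicit false
set_option linter.unusedSectionVars false

namespace Pool.Agent.FCCov

open Module

variable {V E : Type*} [Fintype V] [DecidableEq V] [Fintype E] [DecidableEq E]

/-- The weight of the edge-cut of `X`. -/
def cw (a b : E → V) (w : E → ℕ) (X : Finset V) : ℕ :=
  ∑ e, if (a e ∈ X ↔ b e ∈ X) then 0 else w e

lemma cw_compl (a b : E → V) (w : E → ℕ) (X : Finset V) : cw a b w Xᶜ = cw a b w X := by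
  unfold cw
  apply Finset.sum_congr rfl
  intro e _
  have : (a e ∈ Xᶜ ↔ b e ∈ Xᶜ) ↔ (a e ∈ X ↔ b e ∈ X) := by
    rw [Finset.mem_compl, Finset.mem_compl]; tauto
  by_cases h : (a e ∈ X ↔ b e ∈ X)
  · rw [if_pos h, if_pos (this.2 h)]
  · rw [if_neg h, if_neg (fun h' => h (this.1 h'))]

lemma cw_even {a b : E → V} {w : E → ℕ} (h : ∑ e, w e • bnd a b e = 0) (X : Finset V) :
    Even (cw a b w X) := by
  have h1 : ∑ v ∈ X, (∑ e, w e • bnd a b e) v = 0 := by
    rw [h]; simp
  rw [← ZMod.natCast_eq_zero_iff_even]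
  rw [← h1]
  have h2 : ∀ v ∈ X, (∑ e, w e • bnd a b e) v = ∑ e, (w e • bnd a b e) v := by
    intro v _
    rw [Finset.sum_apply]
  rw [Finset.sum_congr rfl h2, Finset.sum_comm]
  unfold cw
  rw [Nat.cast_sum]
  apply Finset.sum_congr rfl
  intro e _
  have h3 : ∑ v ∈ X, (w e • bnd a b e) v =
      (w e : ZMod 2) * ((if a e ∈ X then 1 else 0) + (if b e ∈ X then 1 else 0)) := by
    unfold bnd
    have : ∀ v ∈ X, (w e • (Pi.single (a e) 1 + Pi.single (b e) 1 : V → ZMod 2)) v =
        (w e : ZMod 2) * ((if v = a e then 1 else 0) + (if v = b e then 1 else 0)) := by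
      intro v _
      rw [Pi.smul_apply, Pi.add_apply, Pi.single_apply, Pi.single_apply, nsmul_eq_mul]
    rw [Finset.sum_congr rfl this, ← Finset.mul_sum, Finset.sum_add_distrib]
    congr 2
    · rw [Finset.sum_ite_eq' X (a e) (fun _ => (1 : ZMod 2))]
    · rw [Finset.sum_ite_eq' X (b e) (fun _ => (1 : ZMod 2))]
  rw [h3]
  have h4 : (1 : ZMod 2) + 1 = 0 := by decide
  by_cases ha : a e ∈ X <;> by_cases hb : b e ∈ X
  · rw [if_pos ha, if_pos hb, if_pos (by tauto), h4]; simp
  · rw [if_pos ha, if_neg hb, if_neg (by tauto)]; simp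
  · rw [if_neg ha, if_pos hb, if_neg (by tauto)]; simp
  · rw [if_neg ha, if_neg hb, if_pos (by tauto)]; simp

/-- submodularity -/
lemma cw_sub (a b : E → V) (w : E → ℕ) (X Y : Finset V) :
    cw a b w (X ∩ Y) + cw a b w (X ∪ Y) ≤ cw a b w X + cw a b w Y := by
  unfold cw
  rw [← Finset.sum_add_distrib, ← Finset.sum_add_distrib]
  apply Finset.sum_le_sum
  intro e _
  simp only [Finset.mem_inter, Finset.mem_union]
  by_cases h1 : a e ∈ X <;> by_cases h2 : b e ∈ X <;> by_cases h3 : a e ∈ Y <;>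
    by_cases h4 : b e ∈ Y <;> simp [h1, h2, h3, h4]

/-- posimodularity with an edge between `X ∩ Y` and the outside -/
lemma cw_posi (a b : E → V) (w : E → ℕ) (X Y : Finset V) {e₀ : E}
    (h₀ : (a e₀ ∈ X ∧ a e₀ ∈ Y ∧ b e₀ ∉ X ∧ b e₀ ∉ Y) ∨
      (b e₀ ∈ X ∧ b e₀ ∈ Y ∧ a e₀ ∉ X ∧ a e₀ ∉ Y)) :
    cw a b w (X \ Y) + cw a b w (Y \ X) + 2 * w e₀ ≤ cw a b w X + cw a b w Y := by
  have h5 : 2 * w e₀ = ∑ e, if e = e₀ then 2 * w e₀ else 0 := by
    rw [Finset.sum_ite_eq' Finset.univ e₀ (fun _ => 2 * w e₀), if_pos (Finset.mem_univ _)]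
  rw [h5]
  unfold cw
  rw [← Finset.sum_add_distrib, ← Finset.sum_add_distrib, ← Finset.sum_add_distrib]
  apply Finset.sum_le_sum
  intro e _
  simp only [Finset.mem_sdiff]
  by_cases h : e = e₀
  · subst h
    rcases h₀ with ⟨h1, h2, h3, h4⟩ | ⟨h1, h2, h3, h4⟩
    · simp [h1, h2, h3, h4]; omega
    · simp [h1, h2, h3, h4]; omega
  · rw [if_neg h, add_zero]
    by_cases h1 : a e ∈ X <;> by_cases h2 : b e ∈ X <;> by_cases h3 : a e ∈ Y <;>
      by_cases h4 : b e ∈ Y <;> simp [h1, h2, h3, h4]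

/-- `w` is covered exactly by `n` even sets -/
def NC (bd : E → V → ZMod 2) (w : E → ℕ) (n : ℕ) : Prop :=
  ∃ F : Multiset (Finset E), F.card = n ∧ (∀ D ∈ F, Ev bd D) ∧
    ∀ e, F.countP (fun D => e ∈ D) = w e

lemma NC.evCover {bd : E → V → ZMod 2} {w : E → ℕ} {n : ℕ} (h : NC bd w n) : EvCover bd w := by
  obtain ⟨F, -, hF, hc⟩ := h
  exact ⟨F, hF, hc⟩

lemma NC.zero (bd : E → V → ZMod 2) (n : ℕ) : NC bd (fun _ => 0) n := by
  refine ⟨Multiset.replicate n ∅, Multiset.card_replicate _ _, ?_, ?_⟩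
  · intro D hD
    rw [Multiset.eq_of_mem_replicate hD]
    unfold Ev
    exact Finset.sum_empty
  · intro e
    rw [Multiset.countP_eq_zero]
    intro D hD
    rw [Multiset.eq_of_mem_replicate hD]
    exact Finset.notMem_empty e

lemma exists_split {α : Type*} (F : Multiset α) (n : ℕ) (h : n ≤ F.card) :
    ∃ F₁ F₂ : Multiset α, F = F₁ + F₂ ∧ F₁.card = n := by
  induction F using Quotient.inductionOn with
  | h l =>
    refine ⟨((l.take n : List α) : Multiset α), ((l.drop n : List α) : Multiset α), ?_, ?_⟩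
    · rw [Multiset.coe_add, List.take_append_drop]
      rfl
    · rw [Multiset.coe_card, List.length_take]
      have h1 : Multiset.card (Quotient.mk _ l : Multiset α) = l.length := rfl
      rw [h1] at h
      exact min_eq_left h

/-- adding a loop -/
lemma NC.loop {bd : E → V → ZMod 2} {w : E → ℕ} {n : ℕ} {e : E} (hbe : bd e = 0) (hn : w e ≤ n)
    (h : NC bd (Function.update w e 0) n) : NC bd w n := by
  classical
  obtain ⟨F, hF, hev, hc⟩ := h
  obtain ⟨F₁, F₂, rfl, hF₁c⟩ := exists_split F (w e) (by rw [hF]; exact hn)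
  have heD : ∀ D ∈ F₁ + F₂, e ∉ D := by
    intro D hD heD
    have h1 := hc e
    rw [Function.update_self, Multiset.countP_eq_zero] at h1
    exact h1 D hD heD
  refine ⟨F₁.map (fun D => insert e D) + F₂, ?_, ?_, ?_⟩
  · rw [Multiset.card_add, Multiset.card_map, ← Multiset.card_add, hF]
  · intro D hD
    rcases Multiset.mem_add.1 hD with h1 | h1
    · obtain ⟨D', hD', rfl⟩ := Multiset.mem_map.1 h1
      unfold Ev
      rw [Finset.sum_insert (heD D' (Multiset.mem_add.2 (Or.inl hD'))), hbe, zero_add]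
      exact hev D' (Multiset.mem_add.2 (Or.inl hD'))
    · exact hev D (Multiset.mem_add.2 (Or.inr h1))
  · intro g
    rw [Multiset.countP_add, Multiset.countP_map]
    by_cases hg : g = e
    · subst hg
      have h1 : F₁.filter (fun D => g ∈ insert g D) = F₁ := by
        rw [Multiset.filter_eq_self]
        intro D _
        exact Finset.mem_insert_self g D
      have h2 : F₂.countP (fun D => g ∈ D) = 0 := by
        rw [Multiset.countP_eq_zero]
        intro D hD
        exact heD D (Multiset.mem_add.2 (Or.inr hD))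
      rw [h1, h2, hF₁c, add_zero]
    · have h1 : F₁.filter (fun D => g ∈ insert e D) = F₁.filter (fun D => g ∈ D) := by
        apply Multiset.filter_congr
        intro D _
        rw [Finset.mem_insert]
        tauto
      rw [h1, ← Multiset.countP_eq_card_filter, ← Multiset.countP_add, hc g,
        Function.update_of_ne hg]

/-- covers of a graph obtained by lifting two edges of weight one -/
lemma lift_cover {n : ℕ} {a b : E → V} {w : E → ℕ} {e f : E} (hef : e ≠ f) (he : w e = 1) (hf : w f = 1)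
    {u v : V} (huv : bnd a b e + bnd a b f = Pi.single u 1 + Pi.single v 1)
    (h : NC (bnd (Function.update a e u) (Function.update b e v)) (Function.update w f 0) n) :
    NC (bnd a b) w n := by
  classical
  obtain ⟨F, hFn, hF, hc⟩ := h
  have hfD : ∀ D ∈ F, f ∉ D := by
    intro D hD hfD
    have h1 := hc f
    rw [Function.update_self, Multiset.countP_eq_zero] at h1
    exact h1 D hD hfD
  have hbe : bnd (Function.update a e u) (Function.update b e v) e = bnd a b e + bnd a b f := by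
    unfold bnd
    rw [Function.update_self, Function.update_self]
    exact huv.symm
  have hbg : ∀ g, g ≠ e → bnd (Function.update a e u) (Function.update b e v) g = bnd a b g := by
    intro g hg
    unfold bnd
    rw [Function.update_of_ne hg, Function.update_of_ne hg]
  refine ⟨F.map (fun D => if e ∈ D then insert f D else D), ?_, ?_, ?_⟩
  · rw [Multiset.card_map, hFn]
  · intro D' hD'
    rw [Multiset.mem_map] at hD'
    obtain ⟨D, hD, rfl⟩ := hD'
    have h1 := hF D hD
    unfold Ev at h1 ⊢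
    by_cases heD : e ∈ D
    · rw [if_pos heD, Finset.sum_insert (hfD D hD), ← Finset.add_sum_erase D _ heD]
      rw [← Finset.add_sum_erase D _ heD, hbe, Finset.sum_congr rfl
        (fun g hg => hbg g (Finset.ne_of_mem_erase hg))] at h1
      rw [← h1]
      abel
    · rw [if_neg heD]
      rw [Finset.sum_congr rfl (fun g hg => hbg g (fun h' => heD (h' ▸ hg)))] at h1
      exact h1
  · intro g
    rw [Multiset.countP_map]
    by_cases hg : g = f
    · subst hg
      have h2 : F.filter (fun D => g ∈ (if e ∈ D then insert g D else D)) =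
          F.filter (fun D => e ∈ D) := by
        apply Multiset.filter_congr
        intro D hD
        by_cases heD : e ∈ D
        · rw [if_pos heD]
          simp [heD]
        · rw [if_neg heD]
          have := hfD D hD
          tauto
      rw [h2, ← Multiset.countP_eq_card_filter, hc e, Function.update_of_ne hef, he, hf]
    · have h2 : F.filter (fun D => g ∈ (if e ∈ D then insert f D else D)) =
          F.filter (fun D => g ∈ D) := by
        apply Multiset.filter_congr
        intro D hD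
        by_cases heD : e ∈ D
        · rw [if_pos heD, Finset.mem_insert]
          tauto
        · rw [if_neg heD]
      rw [h2, ← Multiset.countP_eq_card_filter, hc g, Function.update_of_ne hg]

/-- the cut weights after lifting -/
lemma cw_lift {a b : E → V} {w : E → ℕ} {e f : E} (hef : e ≠ f) (he : w e = 1) (hf : w f = 1)
    {s u v : V} (hes : (a e = s ∧ b e = u) ∨ (a e = u ∧ b e = s))
    (hfs : (a f = s ∧ b f = v) ∨ (a f = v ∧ b f = s)) (X : Finset V) :
    cw a b w X = cw (Function.update a e u) (Function.update b e v) (Function.update w f 0) X +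
      (if ((s ∈ X ∧ u ∉ X ∧ v ∉ X) ∨ (s ∉ X ∧ u ∈ X ∧ v ∈ X)) then 2 else 0) := by
  unfold cw
  have hfe : f ∈ (Finset.univ : Finset E).erase e :=
    Finset.mem_erase.2 ⟨hef.symm, Finset.mem_univ _⟩
  rw [← Finset.add_sum_erase Finset.univ _ (Finset.mem_univ e),
    ← Finset.add_sum_erase _ _ hfe,
    ← Finset.add_sum_erase Finset.univ (fun g => if (Function.update a e u g ∈ X ↔
      Function.update b e v g ∈ X) then 0 else Function.update w f 0 g) (Finset.mem_univ e),
    ← Finset.add_sum_erase _ (fun g => if (Function.update a e u g ∈ X ↔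
      Function.update b e v g ∈ X) then 0 else Function.update w f 0 g) hfe]
  have hrest : ∀ g ∈ ((Finset.univ : Finset E).erase e).erase f,
      (if (Function.update a e u g ∈ X ↔ Function.update b e v g ∈ X) then 0
        else Function.update w f 0 g) = (if (a g ∈ X ↔ b g ∈ X) then 0 else w g) := by
    intro g hg
    have h1 := Finset.ne_of_mem_erase hg
    have h2 := Finset.ne_of_mem_erase (Finset.mem_of_mem_erase hg)
    rw [Function.update_of_ne h2, Function.update_of_ne h2, Function.update_of_ne h1]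
  rw [Finset.sum_congr rfl hrest, Function.update_self, Function.update_self,
    Function.update_of_ne hef, Function.update_self, he, hf]
  have h1 : (if (a e ∈ X ↔ b e ∈ X) then 0 else 1) = (if (s ∈ X ↔ u ∈ X) then 0 else 1) := by
    rcases hes with ⟨h1, h2⟩ | ⟨h1, h2⟩
    · rw [h1, h2]
    · rw [h1, h2]
      by_cases h3 : s ∈ X <;> by_cases h4 : u ∈ X <;> simp [h3, h4]
  have h2 : (if (a f ∈ X ↔ b f ∈ X) then 0 else 1) = (if (s ∈ X ↔ v ∈ X) then 0 else 1) := by
    rcases hfs with ⟨h1, h2⟩ | ⟨h1, h2⟩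
    · rw [h1, h2]
    · rw [h1, h2]
      by_cases h3 : s ∈ X <;> by_cases h4 : v ∈ X <;> simp [h3, h4]
  rw [h1, h2]
  by_cases h3 : s ∈ X <;> by_cases h4 : u ∈ X <;> by_cases h5 : v ∈ X <;>
    simp [h3, h4, h5] <;> omega

lemma cp_update (w : E → ℕ) (t : ℕ) (f : E) :
    cp (Function.update w f 0) t = Function.update (cp w t) f 0 := by
  funext g
  by_cases hg : g = f
  · subst hg
    unfold cp
    rw [Function.update_self, Function.update_self]
    simp
  · unfold cp
    rw [Function.update_of_ne hg, Function.update_of_ne hg]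

/-- the cuts containing an edge of weight at least two -/
def HV (a b : E → V) (w : E → ℕ) (X : Finset V) : Prop :=
  ∃ e, 2 ≤ w e ∧ ¬ (a e ∈ X ↔ b e ∈ X)

lemma HV_uncross (a b : E → V) (w : E → ℕ) (X Y : Finset V) (hX : HV a b w X) (hY : HV a b w Y) :
    (HV a b w (X ∩ Y) ∧ HV a b w (X ∪ Y)) ∨ (HV a b w (X \ Y) ∧ HV a b w (Y \ X)) := by
  obtain ⟨g, hg, hgX⟩ := hX
  obtain ⟨h, hh, hhY⟩ := hY
  have key : ∀ Z : Finset V, (¬ (a g ∈ Z ↔ b g ∈ Z) ∨ ¬ (a h ∈ Z ↔ b h ∈ Z)) → HV a b w Z := by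
    intro Z hZ
    rcases hZ with hZ | hZ
    · exact ⟨g, hg, hZ⟩
    · exact ⟨h, hh, hZ⟩
  have h1 : ((¬ (a g ∈ X ∩ Y ↔ b g ∈ X ∩ Y) ∨ ¬ (a h ∈ X ∩ Y ↔ b h ∈ X ∩ Y)) ∧
      (¬ (a g ∈ X ∪ Y ↔ b g ∈ X ∪ Y) ∨ ¬ (a h ∈ X ∪ Y ↔ b h ∈ X ∪ Y))) ∨
      ((¬ (a g ∈ X \ Y ↔ b g ∈ X \ Y) ∨ ¬ (a h ∈ X \ Y ↔ b h ∈ X \ Y)) ∧
      (¬ (a g ∈ Y \ X ↔ b g ∈ Y \ X) ∨ ¬ (a h ∈ Y \ X ↔ b h ∈ Y \ X))) := by
    simp only [Finset.mem_inter, Finset.mem_union, Finset.mem_sdiff]
    generalize (a g ∈ X) = p1 at *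
    generalize (b g ∈ X) = p2 at *
    generalize (a g ∈ Y) = p3 at *
    generalize (b g ∈ Y) = p4 at *
    generalize (a h ∈ X) = q1 at *
    generalize (b h ∈ X) = q2 at *
    generalize (a h ∈ Y) = q3 at *
    generalize (b h ∈ Y) = q4 at *
    by_cases p1 <;> by_cases p2 <;> by_cases p3 <;> by_cases p4 <;> by_cases q1 <;>
      by_cases q2 <;> by_cases q3 <;> by_cases q4 <;> simp_all
  rcases h1 with ⟨h1, h2⟩ | ⟨h1, h2⟩
  · exact Or.inl ⟨key _ h1, key _ h2⟩
  · exact Or.inr ⟨key _ h1, key _ h2⟩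

end Pool.Agent.FCCov
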