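import Mathlib
import Pool.Agent.FCCov.F

/-!
# Extending a cover of a contraction
-/

set_option autoImplicit false
set_option linter.unusedSectionVars false

namespace Pool.Agent.FCCov

open Module

section general

variable {E : Type*} [DecidableEq E]
variable {M : Type*} [AddCommGroup M] [Module (ZMod 2) M]

lemma range_getD (l : List M) (n : ℕ) (h : l.length ≤ n) :
    (List.range n).map (fun i => l.getD i 0) = l ++ List.replicate (n - l.length) 0 := by
  apply List.ext_getElem
  · rw [List.length_map, List.length_range, List.length_append, List.length_replicate]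
    omega
  · intro i h1 h2
    rw [List.getElem_map, List.getElem_range]
    by_cases hi : i < l.length
    · rw [List.getElem_append_left hi, List.getD_eq_getElem _ _ hi]
    · rw [List.getElem_append_right (by omega), List.getElem_replicate,
        List.getD_eq_default _ _ (by omega)]

lemma group_mset (f : ℕ → M) (N : ℕ) (hN : 0 < N) :
    ({f 0, f 1, f 2} + ∑ j ∈ Finset.Ico 1 N, {f (2 * j + 1), f (2 * j + 2)} : Multiset M) =
      (Multiset.range (2 * N + 1)).map f := by
  induction N with
  | zero => omega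
  | succ N ih =>
    rcases Nat.eq_zero_or_pos N with h0 | h0
    · subst h0
      simp only [zero_add, Finset.Ico_self, Finset.sum_empty, add_zero]
      rfl
    · rw [Finset.sum_Ico_succ_top (by omega), ← add_assoc, ih h0]
      have h1 : 2 * (N + 1) + 1 = (2 * N + 1) + 1 + 1 := by ring
      have h2 : 2 * N + 2 = 2 * N + 1 + 1 := by ring
      rw [h1, Multiset.range_succ (2 * N + 1 + 1), Multiset.range_succ (2 * N + 1),
        Multiset.map_cons, Multiset.map_cons, h2]
      generalize Multiset.map f (Multiset.range (2 * N + 1)) = T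
      rw [add_comm, Multiset.insert_eq_cons, Multiset.cons_add, Multiset.singleton_add,
        Multiset.cons_swap]

lemma group_sum (f : ℕ → M) (N : ℕ) (hN : 0 < N) :
    f 0 + f 1 + f 2 + ∑ j ∈ Finset.Ico 1 N, (f (2 * j + 1) + f (2 * j + 2)) =
      ∑ i ∈ Finset.range (2 * N + 1), f i := by
  induction N with
  | zero => omega
  | succ N ih =>
    rcases Nat.eq_zero_or_pos N with h0 | h0
    · subst h0
      simp only [zero_add, Finset.Ico_self, Finset.sum_empty, add_zero]
      rw [Finset.sum_range_succ, Finset.sum_range_succ, Finset.sum_range_succ]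
      simp
    · rw [Finset.sum_Ico_succ_top (by omega), ← add_assoc, ih h0]
      have h1 : 2 * (N + 1) + 1 = (2 * N + 1) + 1 + 1 := by ring
      rw [h1, Finset.sum_range_succ f (2 * N + 1 + 1), Finset.sum_range_succ f (2 * N + 1),
        add_assoc]

lemma glue (bd : E → M) : ∀ (F' F'' : Multiset (Finset E)) (r : ℕ),
    F''.map (fun D => ∑ e ∈ D, bd e) = F'.map (fun D => ∑ e ∈ D, bd e) + Multiset.replicate r 0 →
    (∀ D' ∈ F', ∀ D'' ∈ F'', Disjoint D' D'') →
    ∃ F : Multiset (Finset E), F.card = F'.card + r ∧ (∀ D ∈ F, ∑ e ∈ D, bd e = 0) ∧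
      ∀ e, F.countP (fun D => e ∈ D) =
        F'.countP (fun D => e ∈ D) + F''.countP (fun D => e ∈ D) := by
  classical
  intro F'
  induction F' using Multiset.induction_on with
  | empty =>
    intro F'' r h _
    rw [Multiset.map_zero, zero_add] at h
    refine ⟨F'', ?_, ?_, ?_⟩
    · have h1 := congrArg Multiset.card h
      rw [Multiset.card_map, Multiset.card_replicate] at h1
      rw [h1, Multiset.card_zero, zero_add]
    · intro D hD
      have h1 : (∑ e ∈ D, bd e) ∈ F''.map (fun D => ∑ e ∈ D, bd e) :=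
        Multiset.mem_map_of_mem (fun D => ∑ e ∈ D, bd e) hD
      rw [h] at h1
      exact Multiset.eq_of_mem_replicate h1
    · intro e
      rw [Multiset.countP_zero, zero_add]
  | cons D' F' ih =>
    intro F'' r h hdisj
    rw [Multiset.map_cons, Multiset.cons_add, ← Multiset.map_eq_cons] at h
    obtain ⟨D'', hD'', h1, h2⟩ := h
    obtain ⟨F, hF1, hF2, hF3⟩ := ih (F''.erase D'') r h2 (fun X hX Y hY =>
      hdisj X (Multiset.mem_cons_of_mem hX) Y (Multiset.mem_of_mem_erase hY))
    have hd := hdisj D' (Multiset.mem_cons_self _ _) D'' hD''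
    refine ⟨(D' ∪ D'') ::ₘ F, ?_, ?_, ?_⟩
    · rw [Multiset.card_cons, Multiset.card_cons, hF1]
      omega
    · intro D hD
      rcases Multiset.mem_cons.1 hD with h3 | h3
      · rw [h3, Finset.sum_union hd]
        rw [h1, add_self2]
      · exact hF2 D h3
    · intro e
      rw [Multiset.countP_cons, Multiset.countP_cons, hF3]
      have h3 : F''.countP (fun D => e ∈ D) =
          (F''.erase D'').countP (fun D => e ∈ D) + (if e ∈ D'' then 1 else 0) := by
        conv_lhs => rw [← Multiset.cons_erase hD'']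
        rw [Multiset.countP_cons]
      rw [h3]
      by_cases h4 : e ∈ D'
      · have h5 : e ∉ D'' := Finset.disjoint_left.1 hd h4
        rw [if_pos h4, if_neg h5, if_pos (Finset.mem_union_left _ h4)]
        omega
      · by_cases h5 : e ∈ D''
        · rw [if_neg h4, if_pos h5, if_pos (Finset.mem_union_right _ h5)]
          omega
        · rw [if_neg h4, if_neg h5, if_neg (fun h => (Finset.mem_union.1 h).elim h4 h5)]
          omega

lemma sum_count [Fintype E] (bd : E → M) : ∀ (F : Multiset (Finset E)),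
    (F.map (fun D => ∑ e ∈ D, bd e)).sum = ∑ e, F.countP (fun D => e ∈ D) • bd e := by
  intro F
  induction F using Multiset.induction_on with
  | empty => simp
  | cons D F ih =>
    rw [Multiset.map_cons, Multiset.sum_cons, ih]
    simp only [Multiset.countP_cons, add_smul, Finset.sum_add_distrib]
    rw [add_comm]
    congr 1
    simp only [ite_smul, one_smul, zero_smul]
    rw [← Finset.sum_filter]
    congr 1
    ext e
    simp

end general

variable {V E : Type*} [Fintype V] [DecidableEq V] [Fintype E] [DecidableEq E]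

/-- the part of `w` on the edges whose ends are not identified by `φ` -/
def outer (a b : E → V) (φ : V → V) (w : E → ℕ) (e : E) : ℕ :=
  if φ (a e) = φ (b e) then 0 else w e

/-- the part of `w` on the edges whose ends are identified by `φ` -/
def inner (a b : E → V) (φ : V → V) (w : E → ℕ) (e : E) : ℕ :=
  if φ (a e) = φ (b e) then w e else 0

lemma inner_add_outer (a b : E → V) (φ : V → V) (w : E → ℕ) (e : E) :
    outer a b φ w e + inner a b φ w e = w e := by
  unfold inner outer
  split_ifs <;> simp

theorem extend {a b : E → V} {φ : V → V} {w s : E → ℕ} {t r N : ℕ} (h1r : 1 ≤ r) (htr : t ≤ r)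
    (hrN : r ≤ N) (hE : ∑ e, w e • bnd a b e = 0)
    (hs : ∀ e, inner a b φ w e ≤ 2 * s e + 1)
    (hs1 : ∀ e, 1 ≤ inner a b φ w e → 1 ≤ s e)
    (H : ∀ e, 1 ≤ inner a b φ w e →
      s e ≤ N ∧ bnd a b e ∈ Zf a b (inner a b φ w) s N (s e))
    (hφ : ∀ v, (Pi.single v 1 + Pi.single (φ v) 1 : V → ZMod 2) ∈
      Zf a b (inner a b φ w) s N r)
    (hcov : NC (bnd (φ ∘ a) (φ ∘ b)) (outer a b φ w) (2 * t + 1)) :
    NC (bnd a b) w (2 * N + 1) := by
  classical
  obtain ⟨F', hF'c, hF'ev, hF'cnt⟩ := hcov
  set Z := Zf a b (inner a b φ w) s N with hZ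
  have hZa : ∀ {i j : ℕ}, i ≤ j → Z j ≤ Z i := fun {i j} h => Zf_anti _ _ _ _ _ h
  have hbd : ∀ e, bnd a b e + bnd (φ ∘ a) (φ ∘ b) e ∈ Z r := by
    intro e
    have h1 := Submodule.add_mem _ (hφ (a e)) (hφ (b e))
    have h2 : (Pi.single (a e) 1 + Pi.single (φ (a e)) 1 + (Pi.single (b e) 1 +
        Pi.single (φ (b e)) 1) : V → ZMod 2) = bnd a b e + bnd (φ ∘ a) (φ ∘ b) e := by
      unfold bnd
      simp only [Function.comp_apply]
      abel
    rw [← h2]
    exact h1
  have hbdD : ∀ D ∈ F', ∑ e ∈ D, bnd a b e ∈ Z r := by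
    intro D hD
    have h1 : ∑ e ∈ D, (bnd a b e + bnd (φ ∘ a) (φ ∘ b) e) ∈ Z r :=
      Submodule.sum_mem _ (fun e _ => hbd e)
    have h2 := hF'ev D hD
    unfold Ev at h2
    rw [Finset.sum_add_distrib, h2, add_zero] at h1
    exact h1
  obtain ⟨l, hl⟩ : ∃ l : List (V → ZMod 2), (l : Multiset (V → ZMod 2)) =
      F'.map (fun D => ∑ e ∈ D, bnd a b e) := ⟨_, Multiset.coe_toList _⟩
  have hlen : l.length = 2 * t + 1 := by
    have h1 := congrArg Multiset.card hl
    rw [Multiset.coe_card, Multiset.card_map, hF'c] at h1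
    exact h1
  have hlZ : ∀ x ∈ l, x ∈ Z r := by
    intro x hx
    have h1 : x ∈ F'.map (fun D => ∑ e ∈ D, bnd a b e) := by
      rw [← hl]
      exact hx
    obtain ⟨D, hD, rfl⟩ := Multiset.mem_map.1 h1
    exact hbdD D hD
  set f : ℕ → (V → ZMod 2) := fun i => l.getD i 0 with hf
  have hfZ : ∀ i, f i ∈ Z r := by
    intro i
    simp only [hf]
    by_cases hi : i < l.length
    · rw [List.getD_eq_getElem _ _ hi]
      exact hlZ _ (List.getElem_mem hi)
    · rw [List.getD_eq_default _ _ (by omega)]
      exact Submodule.zero_mem _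
  have hf0 : ∀ i, 2 * t + 1 ≤ i → f i = 0 := by
    intro i hi
    simp only [hf]
    rw [List.getD_eq_default _ _ (by omega)]
  have hfj : ∀ j < N, ∀ i, 2 * j + 1 ≤ i → f i ∈ Z (j + 1) := by
    intro j _ i hi
    by_cases hj : j < t
    · exact hZa (by omega) (hfZ i)
    · rw [hf0 i (by omega)]
      exact Submodule.zero_mem _
  obtain ⟨A, B, hA, hB⟩ := exists_levels a b (inner a b φ w) s N hs H
  have hB2 := fun e => (hB e).2
  choose R hR1 hR2 hR3 hR4 hR5 using hB2
  have hlr := range_getD l (2 * N + 1) (by omega)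
  have hN : 0 < N := by omega
  have hsum : ∑ e, inner a b φ w e • bnd a b e = f 0 + f 1 + f 2 +
      ∑ j ∈ Finset.Ico 1 N, (f (2 * j + 1) + f (2 * j + 2)) := by
    rw [group_sum f N hN]
    have h1 : ∑ i ∈ Finset.range (2 * N + 1), f i = l.sum := by
      have h2 : ∑ i ∈ Finset.range (2 * N + 1), f i =
          ((List.range (2 * N + 1)).map f).sum := by
        rw [← Multiset.sum_coe, ← Multiset.map_coe]
        rfl
      rw [h2, hlr, List.sum_append, List.sum_replicate, smul_zero, add_zero]
    rw [h1]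
    have h3 : l.sum = ∑ e, outer a b φ w e • bnd a b e := by
      rw [← Multiset.sum_coe, hl, sum_count]
      apply Finset.sum_congr rfl
      intro e _
      rw [hF'cnt e]
    rw [h3]
    have h4 : ∑ e, outer a b φ w e • bnd a b e + ∑ e, inner a b φ w e • bnd a b e = 0 := by
      rw [← Finset.sum_add_distrib, ← hE]
      apply Finset.sum_congr rfl
      intro e _
      rw [← add_smul, inner_add_outer]
    have h5 : ∑ e, outer a b φ w e • bnd a b e +
        (∑ e, outer a b φ w e • bnd a b e + ∑ e, inner a b φ w e • bnd a b e) =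
        ∑ e, outer a b φ w e • bnd a b e := by
      rw [h4, add_zero]
    rw [cancel2] at h5
    exact h5
  obtain ⟨F'', hF''1, hF''2⟩ := assemble_t (bd := bnd a b) (inner a b φ w) N hN
    (fun j => Z (j + 1)) A B
    (fun j hj => ⟨(hA j hj).1, (hA j hj).2.2.2.1, (hA j hj).2.2.2.2⟩) R hR2
    (fun e he => hR5 e he (hs1 e he)) hR3 hR1
    (fun e => (hB e).1) hR4 f (hZa (by omega) (hfZ 0))
    (fun j hj => ⟨hfj j hj _ le_rfl, hfj j hj _ (by omega)⟩) hsum
  rw [group_mset f N hN] at hF''1
  have hmm : (Multiset.range (2 * N + 1)).map f =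
      F'.map (fun D => ∑ e ∈ D, bnd a b e) + Multiset.replicate (2 * N - 2 * t) 0 := by
    have h1 : (Multiset.range (2 * N + 1)).map f =
        (((List.range (2 * N + 1)).map f : List _) : Multiset _) := rfl
    rw [h1, hlr, ← Multiset.coe_add, hl, hlen, Multiset.coe_replicate]
    congr 2
    omega
  rw [hmm] at hF''1
  obtain ⟨F, hF1, hF2, hF3⟩ := glue (bnd a b) F' F'' _ hF''1 (by
    intro D' hD' D'' hD''
    rw [Finset.disjoint_left]
    intro e he he'
    have h1 : 0 < F'.countP (fun D => e ∈ D) := Multiset.countP_pos.2 ⟨D', hD', he⟩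
    have h2 : 0 < F''.countP (fun D => e ∈ D) := Multiset.countP_pos.2 ⟨D'', hD'', he'⟩
    rw [hF'cnt] at h1
    rw [hF''2] at h2
    unfold outer at h1
    unfold inner at h2
    split_ifs at h1 h2 <;> omega)
  refine ⟨F, ?_, hF2, ?_⟩
  · rw [hF1, hF'c]
    omega
  · intro e
    rw [hF3, hF'cnt, hF''2, inner_add_outer]

end Pool.Agent.FCCov
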