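import Mathlib
import Pool.Agent.FCCov.F

/-!
# A splitting lemma of Mader type
-/

set_option autoImplicit false
set_option linter.unusedSectionVars false

namespace Pool.Agent.FCCov

open Module

variable {V E : Type*} [Fintype V] [DecidableEq V] [Fintype E] [DecidableEq E]

/-- capacity between two vertex sets -/
def dd (a b : E → V) (x : E → ℕ) (X Y : Finset V) : ℕ :=
  ∑ e, if (a e ∈ X ∧ b e ∈ Y) ∨ (a e ∈ Y ∧ b e ∈ X) then x e else 0

lemma cw_empty (a b : E → V) (x : E → ℕ) : cw a b x ∅ = 0 := by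
  unfold cw
  simp

lemma cw_iu (a b : E → V) (x : E → ℕ) (X Y : Finset V) :
    cw a b x X + cw a b x Y = cw a b x (X ∩ Y) + cw a b x (X ∪ Y) + 2 * dd a b x (X \ Y) (Y \ X) := by
  unfold cw dd
  rw [Finset.mul_sum, ← Finset.sum_add_distrib, ← Finset.sum_add_distrib, ← Finset.sum_add_distrib]
  apply Finset.sum_congr rfl
  intro e _
  simp only [Finset.mem_inter, Finset.mem_union, Finset.mem_sdiff]
  by_cases h1 : a e ∈ X <;> by_cases h2 : b e ∈ X <;> by_cases h3 : a e ∈ Y <;>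
    by_cases h4 : b e ∈ Y <;> simp [h1, h2, h3, h4, two_mul]

lemma cw_dd (a b : E → V) (x : E → ℕ) (X Y : Finset V) :
    cw a b x X + cw a b x Y = cw a b x (X \ Y) + cw a b x (Y \ X) +
      2 * dd a b x (X ∩ Y) (X ∪ Y)ᶜ := by
  unfold cw dd
  rw [Finset.mul_sum, ← Finset.sum_add_distrib, ← Finset.sum_add_distrib, ← Finset.sum_add_distrib]
  apply Finset.sum_congr rfl
  intro e _
  simp only [Finset.mem_inter, Finset.mem_union, Finset.mem_sdiff, Finset.mem_compl]
  by_cases h1 : a e ∈ X <;> by_cases h2 : b e ∈ X <;> by_cases h3 : a e ∈ Y <;>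
    by_cases h4 : b e ∈ Y <;> simp [h1, h2, h3, h4, two_mul]

lemma dd_compl (a b : E → V) (x : E → ℕ) (X : Finset V) : cw a b x X = dd a b x X Xᶜ := by
  unfold cw dd
  apply Finset.sum_congr rfl
  intro e _
  simp only [Finset.mem_compl]
  by_cases h1 : a e ∈ X <;> by_cases h2 : b e ∈ X <;> simp [h1, h2]

lemma dd_mono (a b : E → V) (x : E → ℕ) {X X' Y Y' : Finset V} (hX : X ⊆ X') (hY : Y ⊆ Y') :
    dd a b x X Y ≤ dd a b x X' Y' := by
  unfold dd
  apply Finset.sum_le_sum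
  intro e _
  by_cases h : (a e ∈ X ∧ b e ∈ Y) ∨ (a e ∈ Y ∧ b e ∈ X)
  · rw [if_pos h, if_pos]
    rcases h with h | h
    · exact Or.inl ⟨hX h.1, hY h.2⟩
    · exact Or.inr ⟨hY h.1, hX h.2⟩
  · rw [if_neg h]
    exact Nat.zero_le _

lemma dd_add (a b : E → V) (x : E → ℕ) {X Y₁ Y₂ Z : Finset V} (hXZ : Disjoint X Z)
    (h12 : Disjoint Y₁ Y₂) (h1 : Y₁ ⊆ Z) (h2 : Y₂ ⊆ Z) :
    dd a b x X Y₁ + dd a b x X Y₂ ≤ dd a b x X Z := by
  unfold dd
  rw [← Finset.sum_add_distrib]
  apply Finset.sum_le_sum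
  intro e _
  have k1 : ∀ v, v ∈ X → v ∉ Z := fun v hv => Finset.disjoint_left.1 hXZ hv
  have k2 : ∀ v, v ∈ Y₁ → v ∉ Y₂ := fun v hv => Finset.disjoint_left.1 h12 hv
  by_cases h3 : (a e ∈ X ∧ b e ∈ Y₁) ∨ (a e ∈ Y₁ ∧ b e ∈ X)
  · have h4 : ¬ ((a e ∈ X ∧ b e ∈ Y₂) ∨ (a e ∈ Y₂ ∧ b e ∈ X)) := by
      rintro (h | h) <;> rcases h3 with h3 | h3
      · exact k2 _ h3.2 h.2
      · exact k1 _ h.1 (h1 h3.1)
      · exact k1 _ h3.1 (h2 h.1)
      · exact k2 _ h3.1 h.1
    have h5 : (a e ∈ X ∧ b e ∈ Z) ∨ (a e ∈ Z ∧ b e ∈ X) := by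
      rcases h3 with h | h
      · exact Or.inl ⟨h.1, h1 h.2⟩
      · exact Or.inr ⟨h1 h.1, h.2⟩
    rw [if_pos h3, if_neg h4, if_pos h5, add_zero]
  · rw [if_neg h3, zero_add]
    by_cases h4 : (a e ∈ X ∧ b e ∈ Y₂) ∨ (a e ∈ Y₂ ∧ b e ∈ X)
    · have h5 : (a e ∈ X ∧ b e ∈ Z) ∨ (a e ∈ Z ∧ b e ∈ X) := by
        rcases h4 with h | h
        · exact Or.inl ⟨h.1, h2 h.2⟩
        · exact Or.inr ⟨h2 h.1, h.2⟩
      rw [if_pos h4, if_pos h5]
    · rw [if_neg h4]
      exact Nat.zero_le _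

lemma dd_edge {a b : E → V} {x : E → ℕ} {X Y : Finset V} {e : E} {s u : V}
    (hes : (a e = s ∧ b e = u) ∨ (a e = u ∧ b e = s)) (hu : u ∈ X) (hs : s ∈ Y) :
    x e ≤ dd a b x X Y := by
  unfold dd
  refine le_trans ?_ (Finset.single_le_sum (f := fun e => if (a e ∈ X ∧ b e ∈ Y) ∨
    (a e ∈ Y ∧ b e ∈ X) then x e else 0) (fun _ _ => Nat.zero_le _) (Finset.mem_univ e))
  rw [if_pos]
  rcases hes with ⟨h1, h2⟩ | ⟨h1, h2⟩
  · right; rw [h1, h2]; exact ⟨hs, hu⟩
  · left; rw [h1, h2]; exact ⟨hu, hs⟩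

lemma cw_le3 (a b : E → V) (x : E → ℕ) {M Z P Q : Finset V} (h : Mᶜ ⊆ Z ∪ P ∪ Q) :
    cw a b x M ≤ dd a b x M Z + dd a b x M P + dd a b x M Q := by
  rw [dd_compl]
  unfold dd
  rw [← Finset.sum_add_distrib, ← Finset.sum_add_distrib]
  apply Finset.sum_le_sum
  intro e _
  have k1 : ∀ v, v ∈ Mᶜ → v ∈ Z ∨ v ∈ P ∨ v ∈ Q := by
    intro v hv
    have := h hv
    rw [Finset.mem_union, Finset.mem_union] at this
    tauto
  by_cases h3 : (a e ∈ M ∧ b e ∈ Mᶜ) ∨ (a e ∈ Mᶜ ∧ b e ∈ M)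
  · rw [if_pos h3]
    have h4 : ((a e ∈ M ∧ b e ∈ Z) ∨ (a e ∈ Z ∧ b e ∈ M)) ∨
        ((a e ∈ M ∧ b e ∈ P) ∨ (a e ∈ P ∧ b e ∈ M)) ∨
        ((a e ∈ M ∧ b e ∈ Q) ∨ (a e ∈ Q ∧ b e ∈ M)) := by
      rcases h3 with h3 | h3
      · have := k1 _ h3.2
        tauto
      · have := k1 _ h3.1
        tauto
    rcases h4 with h4 | h4 | h4
    · rw [if_pos h4]; omega
    · rw [if_pos h4]; omega
    · rw [if_pos h4]; omega
  · rw [if_neg h3]
    exact Nat.zero_le _

lemma notMem_union' {X Y : Finset V} {v : V} (h1 : v ∉ X) (h2 : v ∉ Y) : v ∉ X ∪ Y := by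
  rw [Finset.mem_union]
  exact fun h => h.elim h1 h2

lemma mem_compl_union' {X Y : Finset V} {v : V} (h1 : v ∉ X) (h2 : v ∉ Y) : v ∈ (X ∪ Y)ᶜ := by
  rw [Finset.mem_compl]
  exact notMem_union' h1 h2

lemma or_of_not_iff {P Q : Prop} (h : ¬ (P ↔ Q)) : P ∨ Q := by
  by_cases hP : P
  · exact Or.inl hP
  · by_cases hQ : Q
    · exact Or.inr hQ
    · exact absurd ⟨fun h => absurd h hP, fun h => absurd h hQ⟩ h

section three

variable {κ : ℕ} {a b : E → V} {w x : E → ℕ} {s u : V} {e : E}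

/-- first type of pair -/
def T1 (a b : E → V) (x : E → ℕ) (κ : ℕ) (u : V) (X Y : Finset V) : Prop :=
  X ∩ Y = {u} ∧ cw a b x {u} = 2 * κ ∧ cw a b x X = 2 * κ + 1 ∧ cw a b x Y = 2 * κ + 1

/-- second type of pair -/
def T2 (a b : E → V) (x : E → ℕ) (κ : ℕ) (X Y : Finset V) (p q : V) : Prop :=
  X \ Y = {p} ∧ Y \ X = {q} ∧ cw a b x {p} = 2 * κ ∧ cw a b x {q} = 2 * κ ∧
    cw a b x X = 2 * κ + 1 ∧ cw a b x Y = 2 * κ + 1 ∧ dd a b x (X ∩ Y) (X ∪ Y)ᶜ = 1

lemma T1.symm {X Y : Finset V} (h : T1 a b x κ u X Y) : T1 a b x κ u Y X :=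
  ⟨by rw [Finset.inter_comm]; exact h.1, h.2.1, h.2.2.2, h.2.2.1⟩

lemma T2.symm {X Y : Finset V} {p q : V} (h : T2 a b x κ X Y p q) : T2 a b x κ Y X q p :=
  ⟨h.2.1, h.1, h.2.2.2.1, h.2.2.1, h.2.2.2.2.2.1, h.2.2.2.2.1, by
    rw [Finset.inter_comm, Finset.union_comm]; exact h.2.2.2.2.2.2⟩

lemma c222 (hκ : 1 ≤ κ) (hk : ∀ X, HV a b w X → 2 * κ ≤ cw a b x X)
    (hev : ∀ X, ¬ HV a b w X → Even (cw a b x X))
    (hes : (a e = s ∧ b e = u) ∨ (a e = u ∧ b e = s)) (hxe : x e = 1)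
    {A B C : Finset V} {p q r : V} (hsA : s ∉ A) (hsB : s ∉ B) (hsC : s ∉ C)
    (huA : u ∈ A) (huB : u ∈ B)
    (hpB : p ∉ B) (hpC : p ∉ C) (hqA : q ∉ A) (hqC : q ∉ C) (hpA : p ∈ A) (hqB : q ∈ B)
    (hAB : T2 a b x κ A B p q) (hAC : T2 a b x κ A C p r) (hBC : T2 a b x κ B C q r) : False := by
  have hM1 : A ∩ B = A ∩ C := by
    have h1 : A ∩ B = A \ {p} := by
      rw [← hAB.1]
      ext v
      simp only [Finset.mem_inter, Finset.mem_sdiff]
      tauto
    have h2 : A ∩ C = A \ {p} := by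
      rw [← hAC.1]
      ext v
      simp only [Finset.mem_inter, Finset.mem_sdiff]
      tauto
    rw [h1, h2]
  have hM2 : A ∩ B = B ∩ C := by
    have h1 : A ∩ B = B \ {q} := by
      rw [← hAB.2.1]
      ext v
      simp only [Finset.mem_inter, Finset.mem_sdiff]
      tauto
    have h2 : B ∩ C = B \ {q} := by
      rw [← hBC.1]
      ext v
      simp only [Finset.mem_inter, Finset.mem_sdiff]
      tauto
    rw [h1, h2]
  have huM : u ∈ A ∩ B := Finset.mem_inter.2 ⟨huA, huB⟩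
  have hsp : s ≠ p := fun h => hsA (h ▸ hpA)
  have hsq : s ≠ q := fun h => hsB (h ▸ hqB)
  have h1 : dd a b x (A ∩ B) {p} + dd a b x (A ∩ B) {s} ≤ dd a b x (A ∩ B) (B ∪ C)ᶜ := by
    apply dd_add
    · rw [hM2, Finset.disjoint_left]
      intro v hv hv'
      rw [Finset.mem_compl, Finset.mem_union] at hv'
      exact hv' (Or.inl (Finset.mem_inter.1 hv).1)
    · rw [Finset.disjoint_singleton]
      exact hsp.symm
    · rw [Finset.singleton_subset_iff, Finset.mem_compl, Finset.mem_union]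
      tauto
    · rw [Finset.singleton_subset_iff, Finset.mem_compl, Finset.mem_union]
      tauto
  have h2 : dd a b x (A ∩ B) {q} + dd a b x (A ∩ B) {s} ≤ dd a b x (A ∩ B) (A ∪ C)ᶜ := by
    apply dd_add
    · rw [hM1, Finset.disjoint_left]
      intro v hv hv'
      rw [Finset.mem_compl, Finset.mem_union] at hv'
      exact hv' (Or.inl (Finset.mem_inter.1 hv).1)
    · rw [Finset.disjoint_singleton]
      exact hsq.symm
    · rw [Finset.singleton_subset_iff, Finset.mem_compl, Finset.mem_union]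
      tauto
    · rw [Finset.singleton_subset_iff, Finset.mem_compl, Finset.mem_union]
      tauto
  have h3 : x e ≤ dd a b x (A ∩ B) {s} := dd_edge hes huM (Finset.mem_singleton_self s)
  have h4 : dd a b x (A ∩ B) (B ∪ C)ᶜ = 1 := by
    rw [hM2]; exact hBC.2.2.2.2.2.2
  have h5 : dd a b x (A ∩ B) (A ∪ C)ᶜ = 1 := by
    rw [hM1]; exact hAC.2.2.2.2.2.2
  have h6 := hAB.2.2.2.2.2.2
  have h7 : cw a b x (A ∩ B) ≤ dd a b x (A ∩ B) (A ∪ B)ᶜ + dd a b x (A ∩ B) {p} +
      dd a b x (A ∩ B) {q} := by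
    apply cw_le3
    intro v hv
    rw [← hAB.1, ← hAB.2.1]
    simp only [Finset.mem_compl, Finset.mem_inter, Finset.mem_union, Finset.mem_sdiff] at *
    tauto
  have h8 : dd a b x (A ∩ B) (A ∪ B)ᶜ ≤ cw a b x (A ∩ B) := by
    rw [dd_compl]
    apply dd_mono _ _ _ (Finset.Subset.refl _)
    intro v hv
    simp only [Finset.mem_compl, Finset.mem_inter, Finset.mem_union] at *
    tauto
  have h9 : cw a b x (A ∩ B) = 1 := by omega
  have h10 : ¬ HV a b w (A ∩ B) := by
    intro h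
    have := hk _ h
    omega
  have h11 := hev _ h10
  rw [h9] at h11
  exact absurd h11 (by decide)

/-- `u` and the rest of `Z` -/
lemma cw_erase (Z : Finset V) (hu : u ∈ Z) :
    cw a b x {u} + cw a b x (Z.erase u) = cw a b x Z + 2 * dd a b x {u} (Z.erase u) := by
  have h := cw_iu a b x {u} (Z.erase u)
  have h1 : ({u} : Finset V) ∩ Z.erase u = ∅ := by
    ext v
    simp
  have h2 : ({u} : Finset V) ∪ Z.erase u = Z := by
    ext v
    simp only [Finset.mem_union, Finset.mem_singleton, Finset.mem_erase]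
    constructor
    · rintro (h | h)
      · rw [h]; exact hu
      · exact h.2
    · intro h
      by_cases hv : v = u
      · exact Or.inl hv
      · exact Or.inr ⟨hv, h⟩
  have h3 : ({u} : Finset V) \ Z.erase u = {u} := by
    ext v
    simp only [Finset.mem_sdiff, Finset.mem_singleton, Finset.mem_erase]
    constructor
    · exact fun h => h.1
    · intro h
      exact ⟨h, fun h' => h'.1 h⟩
  have h4 : Z.erase u \ {u} = Z.erase u := by
    ext v
    simp only [Finset.mem_sdiff, Finset.mem_singleton, Finset.mem_erase]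
    tauto
  rw [h1, h2, h3, h4, cw_empty, zero_add] at h
  exact h

lemma c211 (hκ : 1 ≤ κ) (hk : ∀ X, HV a b w X → 2 * κ ≤ cw a b x X)
    (hev : ∀ X, ¬ HV a b w X → Even (cw a b x X))
    (hes : (a e = s ∧ b e = u) ∨ (a e = u ∧ b e = s)) (hxe : x e = 1)
    {X Y Z : Finset V} {p q : V} (hsX : s ∉ X) (hsY : s ∉ Y) (hsZ : s ∉ Z)
    (huX : u ∈ X) (huY : u ∈ Y) (huZ : u ∈ Z)
    (hXY : T2 a b x κ X Y p q) (hXZ : T1 a b x κ u X Z) (hYZ : T1 a b x κ u Y Z) : False := by
  have h1 := cw_erase (a := a) (b := b) (x := x) Z huZ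
  rw [hXZ.2.1, hXZ.2.2.2] at h1
  have h2 : dd a b x {u} (Z.erase u) + dd a b x {u} {s} ≤ dd a b x {u} (X ∪ Y)ᶜ := by
    apply dd_add
    · rw [Finset.disjoint_singleton_left, Finset.mem_compl, Finset.mem_union]
      tauto
    · rw [Finset.disjoint_singleton_right, Finset.mem_erase]
      tauto
    · intro v hv
      rw [Finset.mem_erase] at hv
      rw [Finset.mem_compl, Finset.mem_union]
      rintro (h | h)
      · have : v ∈ X ∩ Z := Finset.mem_inter.2 ⟨h, hv.2⟩
        rw [hXZ.1, Finset.mem_singleton] at this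
        exact hv.1 this
      · have : v ∈ Y ∩ Z := Finset.mem_inter.2 ⟨h, hv.2⟩
        rw [hYZ.1, Finset.mem_singleton] at this
        exact hv.1 this
    · rw [Finset.singleton_subset_iff, Finset.mem_compl, Finset.mem_union]
      tauto
  have h3 : x e ≤ dd a b x {u} {s} :=
    dd_edge hes (Finset.mem_singleton_self u) (Finset.mem_singleton_self s)
  have h4 : dd a b x {u} (X ∪ Y)ᶜ ≤ dd a b x (X ∩ Y) (X ∪ Y)ᶜ := by
    apply dd_mono _ _ _ _ (Finset.Subset.refl _)
    rw [Finset.singleton_subset_iff, Finset.mem_inter]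
    exact ⟨huX, huY⟩
  have h5 := hXY.2.2.2.2.2.2
  have h6 : cw a b x (Z.erase u) = 1 := by omega
  have h7 : ¬ HV a b w (Z.erase u) := by
    intro h
    have := hk _ h
    omega
  have h8 := hev _ h7
  rw [h6] at h8
  exact absurd h8 (by decide)

lemma c111 (hk : ∀ X, HV a b w X → 2 * κ ≤ cw a b x X)
    (hev : ∀ X, ¬ HV a b w X → Even (cw a b x X))
    (hes : (a e = s ∧ b e = u) ∨ (a e = u ∧ b e = s)) (hxe : x e = 1)
    {X Y : Finset V} (hsX : s ∉ X) (hsY : s ∉ Y) (hsu : s ≠ u)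
    (huX : u ∈ X) (huY : u ∈ Y) (hXY : T1 a b x κ u X Y) : False := by
  have h1 := cw_erase (a := a) (b := b) (x := x) X huX
  have h2 := cw_erase (a := a) (b := b) (x := x) Y huY
  rw [hXY.2.1, hXY.2.2.1] at h1
  rw [hXY.2.1, hXY.2.2.2] at h2
  have h3 : κ ≤ dd a b x {u} (X.erase u) := by
    by_cases h : HV a b w (X.erase u)
    · have := hk _ h
      omega
    · obtain ⟨m, hm⟩ := hev _ h
      omega
  have h4 : κ ≤ dd a b x {u} (Y.erase u) := by
    by_cases h : HV a b w (Y.erase u)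
    · have := hk _ h
      omega
    · obtain ⟨m, hm⟩ := hev _ h
      omega
  have hdis : Disjoint ({u} : Finset V) ({u} : Finset V)ᶜ := disjoint_compl_right
  have h5 : dd a b x {u} (X.erase u) + dd a b x {u} (Y.erase u) ≤
      dd a b x {u} (X.erase u ∪ Y.erase u) := by
    apply dd_add
    · rw [Finset.disjoint_singleton_left, Finset.mem_union, Finset.mem_erase, Finset.mem_erase]
      tauto
    · rw [Finset.disjoint_left]
      intro v hv hv'
      rw [Finset.mem_erase] at hv hv'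
      have : v ∈ X ∩ Y := Finset.mem_inter.2 ⟨hv.2, hv'.2⟩
      rw [hXY.1, Finset.mem_singleton] at this
      exact hv.1 this
    · exact Finset.subset_union_left
    · exact Finset.subset_union_right
  have h6 : dd a b x {u} (X.erase u ∪ Y.erase u) + dd a b x {u} {s} ≤ dd a b x {u} {u}ᶜ := by
    apply dd_add _ _ _ hdis
    · rw [Finset.disjoint_singleton_right, Finset.mem_union, Finset.mem_erase, Finset.mem_erase]
      tauto
    · intro v hv
      rw [Finset.mem_union, Finset.mem_erase, Finset.mem_erase] at hv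
      rw [Finset.mem_compl, Finset.mem_singleton]
      tauto
    · rw [Finset.singleton_subset_iff, Finset.mem_compl, Finset.mem_singleton]
      exact hsu
  rw [← dd_compl, hXY.2.1] at h6
  have h7 : x e ≤ dd a b x {u} {s} :=
    dd_edge hes (Finset.mem_singleton_self u) (Finset.mem_singleton_self s)
  omega

lemma c221 {X Y Z : Finset V} {p q r : V} (hpX : p ∈ X) (hup : u ≠ p)
    (huX : u ∈ X) (hXY : T2 a b x κ X Y p q) (hXZ : T2 a b x κ X Z p r)
    (hYZ : T1 a b x κ u Y Z) : False := by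
  -- `X = {u, p}`
  have h1 : X.erase u = {p} := by
    ext v
    rw [Finset.mem_erase, Finset.mem_singleton]
    constructor
    · rintro ⟨h2, h3⟩
      by_contra h4
      have h5 : v ∈ Y := by
        by_contra h6
        have : v ∈ X \ Y := Finset.mem_sdiff.2 ⟨h3, h6⟩
        rw [hXY.1, Finset.mem_singleton] at this
        exact h4 this
      have h6 : v ∈ Z := by
        by_contra h7
        have : v ∈ X \ Z := Finset.mem_sdiff.2 ⟨h3, h7⟩
        rw [hXZ.1, Finset.mem_singleton] at this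
        exact h4 this
      have : v ∈ Y ∩ Z := Finset.mem_inter.2 ⟨h5, h6⟩
      rw [hYZ.1, Finset.mem_singleton] at this
      exact h2 this
    · rintro rfl
      exact ⟨hup.symm, hpX⟩
  have h2 := cw_erase (a := a) (b := b) (x := x) X huX
  rw [h1, hYZ.2.1, hXY.2.2.1, hXY.2.2.2.2.1] at h2
  omega

end three

/-- the pair `e`, `f` of edges at `s` can be lifted without making a cut inside `W` too small -/
def Liftable (a b : E → V) (w x : E → ℕ) (κ : ℕ) (s : V) (W : Finset V) (e f : E) (u v : V) :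
    Prop :=
  e ≠ f ∧ w e = 1 ∧ w f = 1 ∧ ((a e = s ∧ b e = u) ∨ (a e = u ∧ b e = s)) ∧
    ((a f = s ∧ b f = v) ∨ (a f = v ∧ b f = s)) ∧ u ≠ s ∧ v ≠ s ∧
    ∀ Y : Finset V, Y ⊆ W → s ∉ Y → u ∈ Y → v ∈ Y → HV a b w Y → 2 * κ + 2 ≤ cw a b x Y

lemma HV_pull {a b : E → V} {w : E → ℕ} (ψ : V → V) (Y : Finset V) :
    HV (ψ ∘ a) (ψ ∘ b) w Y ↔ HV a b w (Finset.univ.filter (fun v => ψ v ∈ Y)) := by
  unfold HV
  simp

lemma cw_pull (a b : E → V) (x : E → ℕ) (ψ : V → V) (Y : Finset V) :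
    cw (ψ ∘ a) (ψ ∘ b) x Y = cw a b x (Finset.univ.filter (fun v => ψ v ∈ Y)) := by
  unfold cw
  simp

/-- the case where all tight sets are singletons -/
lemma lift_base {κ : ℕ} (hκ : 1 ≤ κ) {a b : E → V} {w x : E → ℕ} {s : V} {W : Finset V}
    (hk : ∀ X, HV a b w X → 2 * κ ≤ cw a b x X)
    (hev : ∀ X, ¬ HV a b w X → Even (cw a b x X))
    (hs1 : ∀ g, (a g = s ∨ b g = s) → w g ≤ 1 ∧ x g = w g)
    (hex : ∃ e, w e ≠ 0 ∧ a e ≠ b e ∧ (a e = s ∨ b e = s))
    (hsing : ∀ X : Finset V, X ⊆ W → s ∉ X → HV a b w X → cw a b x X = 2 * κ →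
      ∀ y ∈ X, ∀ z ∈ X, y = z) :
    ∃ e f u v, Liftable a b w x κ s W e f u v := by
  classical
  by_contra hno
  push Not at hno
  obtain ⟨e, he0, heab, heS⟩ := hex
  have hwe : w e = 1 := by
    have := (hs1 e heS).1
    omega
  obtain ⟨u, hes⟩ : ∃ u, (a e = s ∧ b e = u) ∨ (a e = u ∧ b e = s) := by
    rcases heS with h | h
    · exact ⟨b e, Or.inl ⟨h, rfl⟩⟩
    · exact ⟨a e, Or.inr ⟨rfl, h⟩⟩
  have hus : u ≠ s := by
    rcases hes with ⟨h1, h2⟩ | ⟨h1, h2⟩
    · intro h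
      exact heab (by rw [h1, h2, h])
    · intro h
      exact heab (by rw [h1, h2, h])
  have hxe : x e = 1 := by rw [(hs1 e heS).2, hwe]
  -- `s` is light
  have hsHV : ¬ HV a b w {s} := by
    rintro ⟨g, hg, hgs⟩
    rw [Finset.mem_singleton, Finset.mem_singleton] at hgs
    have := (hs1 g (or_of_not_iff hgs)).1
    omega
  have hsev := hev _ hsHV
  have hins : ∀ X, HV a b w X → HV a b w (X ∪ {s}) := by
    rintro X ⟨g, hg, hgX⟩
    have h1 : a g ≠ s := fun h => by
      have := (hs1 g (Or.inl h)).1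
      omega
    have h2 : b g ≠ s := fun h => by
      have := (hs1 g (Or.inr h)).1
      omega
    refine ⟨g, hg, ?_⟩
    rw [Finset.mem_union, Finset.mem_union, Finset.mem_singleton, Finset.mem_singleton,
      or_iff_left h1, or_iff_left h2]
    exact hgX
  have hhalf : ∀ X, HV a b w X → s ∉ X → cw a b x X ≤ 2 * κ + 1 →
      2 * dd a b x X {s} ≤ cw a b x {s} := by
    intro X hX hsX hXc
    have h1 := cw_iu a b x X {s}
    have h2 := hk _ (hins X hX)
    have h3 : X ∩ {s} = ∅ := by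
      ext v
      simp only [Finset.mem_inter, Finset.mem_singleton, Finset.notMem_empty, iff_false]
      rintro ⟨h4, rfl⟩
      exact hsX h4
    have h4 : X \ {s} = X := by
      ext v
      simp only [Finset.mem_sdiff, Finset.mem_singleton]
      constructor
      · exact fun h => h.1
      · intro h
        exact ⟨h, fun h' => hsX (h' ▸ h)⟩
    have h5 : ({s} : Finset V) \ X = {s} := by
      ext v
      simp only [Finset.mem_sdiff, Finset.mem_singleton]
      constructor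
      · exact fun h => h.1
      · intro h
        exact ⟨h, fun h' => hsX (h ▸ h')⟩
    rw [h3, h4, h5, cw_empty, zero_add] at h1
    obtain ⟨m, hm⟩ := hsev
    omega
  -- maximal dangerous sets
  set Dg : Finset V → Prop := fun Y => Y ⊆ W ∧ s ∉ Y ∧ u ∈ Y ∧ HV a b w Y ∧
    cw a b x Y ≤ 2 * κ + 1 with hDg
  set Mx : Finset V → Prop := fun Y => Dg Y ∧ ∀ Y', Dg Y' → Y ⊆ Y' → Y' = Y with hMx
  have hmax : ∀ Y, Dg Y → ∃ Y', Mx Y' ∧ Y ⊆ Y' := by
    intro Y hY
    have hne : ((Finset.univ : Finset (Finset V)).filter (fun Y' => Dg Y' ∧ Y ⊆ Y')).Nonempty :=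
      ⟨Y, Finset.mem_filter.2 ⟨Finset.mem_univ _, hY, Finset.Subset.refl _⟩⟩
    obtain ⟨Y', hY', hm⟩ := Finset.exists_max_image _ (fun Z : Finset V => Z.card) hne
    rw [Finset.mem_filter] at hY'
    refine ⟨Y', ⟨hY'.2.1, fun Z hZ hYZ => ?_⟩, hY'.2.2⟩
    have h1 := hm Z (Finset.mem_filter.2 ⟨Finset.mem_univ _, hZ, hY'.2.2.trans hYZ⟩)
    exact (Finset.eq_of_subset_of_card_le hYZ h1).symm
  set NB : V → Prop := fun v => ∃ f, w f = 1 ∧ ((a f = s ∧ b f = v) ∨ (a f = v ∧ b f = s)) ∧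
    v ≠ s with hNB
  have hdang : ∀ f v, f ≠ e → w f = 1 → ((a f = s ∧ b f = v) ∨ (a f = v ∧ b f = s)) → v ≠ s →
      ∃ Y, Mx Y ∧ v ∈ Y := by
    intro f v hfe hf hfs hvs
    have h1 := hno e f u v
    unfold Liftable at h1
    push Not at h1
    obtain ⟨Y, h2, h3, h4, h5, h6, h7⟩ := h1 hfe.symm hwe hf hes hfs hus hvs
    obtain ⟨Y', hY', hYY'⟩ := hmax Y ⟨h2, h3, h4, h6, by omega⟩
    exact ⟨Y', hY', hYY' h5⟩
  -- there is a second edge
  have hsecond : ∃ f v, f ≠ e ∧ w f = 1 ∧ ((a f = s ∧ b f = v) ∨ (a f = v ∧ b f = s)) ∧ v ≠ s := by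
    by_contra hcon
    push Not at hcon
    have h1 : cw a b x {s} = 1 := by
      unfold cw
      rw [← Finset.add_sum_erase Finset.univ _ (Finset.mem_univ e)]
      have h2 : (if (a e ∈ ({s} : Finset V) ↔ b e ∈ ({s} : Finset V)) then 0 else x e) = 1 := by
        rcases hes with ⟨h3, h4⟩ | ⟨h3, h4⟩
        · rw [h3, h4, hxe]; simp [hus]
        · rw [h3, h4, hxe]; simp [hus]
      rw [h2, Finset.sum_eq_zero, add_zero]
      intro g hg
      have hge := Finset.ne_of_mem_erase hg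
      by_cases hag : a g = s
      · have h3 := hs1 g (Or.inl hag)
        by_cases h0 : w g = 1
        · have h4 := hcon g (b g) hge h0 (Or.inl ⟨hag, rfl⟩)
          rw [hag, h4]; simp
        · rw [h3.2, show w g = 0 by omega]; simp
      · by_cases hbg : b g = s
        · have h3 := hs1 g (Or.inr hbg)
          by_cases h0 : w g = 1
          · exact absurd (hcon g (a g) hge h0 (Or.inr ⟨rfl, hbg⟩)) hag
          · rw [h3.2, show w g = 0 by omega]; simp
        · simp [hag, hbg]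
    rw [h1] at hsev
    exact absurd hsev (by decide)
  have hcover : ∀ v, NB v → ∃ Y, Mx Y ∧ v ∈ Y := by
    rintro v ⟨f, hf, hfs, hvs⟩
    by_cases hfe : f = e
    · subst hfe
      have hvu : v = u := by
        rcases hes with ⟨h1, h2⟩ | ⟨h1, h2⟩ <;> rcases hfs with ⟨h3, h4⟩ | ⟨h3, h4⟩
        · rw [← h4, h2]
        · exact absurd (by rw [← h3, h1]) hvs
        · exact absurd (by rw [← h4, h2]) hvs
        · rw [← h3, h1]
      obtain ⟨g, v', hg, hg1, hgs, hv's⟩ := hsecond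
      obtain ⟨Y, hY, -⟩ := hdang g v' hg hg1 hgs hv's
      exact ⟨Y, hY, by rw [hvu]; exact hY.1.2.2.1⟩
    · exact hdang f v hfe hf hfs hvs
  -- a minimal cover
  have hne : ((Finset.univ : Finset (Finset (Finset V))).filter (fun L => (∀ Y ∈ L, Mx Y) ∧
      ∀ v, NB v → ∃ Y ∈ L, v ∈ Y)).Nonempty := by
    refine ⟨Finset.univ.filter Mx, Finset.mem_filter.2 ⟨Finset.mem_univ _, ?_, ?_⟩⟩
    · intro Y hY
      exact (Finset.mem_filter.1 hY).2
    · intro v hv
      obtain ⟨Y, hY, hvY⟩ := hcover v hv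
      exact ⟨Y, Finset.mem_filter.2 ⟨Finset.mem_univ _, hY⟩, hvY⟩
  obtain ⟨L, hL, hLmin⟩ := Finset.exists_min_image _ (fun L : Finset (Finset V) => L.card) hne
  rw [Finset.mem_filter] at hL
  obtain ⟨-, hLM, hLc⟩ := hL
  have hpriv : ∀ Y ∈ L, ∃ v, NB v ∧ v ∈ Y ∧ ∀ Y' ∈ L, v ∈ Y' → Y' = Y := by
    intro Y hY
    by_contra hcon
    push Not at hcon
    have h1 := hLmin (L.erase Y) (Finset.mem_filter.2 ⟨Finset.mem_univ _, ?_, ?_⟩)
    · have h2 := Finset.card_erase_lt_of_mem hY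
      omega
    · intro Y' hY'
      exact hLM Y' (Finset.mem_of_mem_erase hY')
    · intro v hv
      obtain ⟨Y', hY', hvY'⟩ := hLc v hv
      by_cases hYY : Y' = Y
      · subst hYY
        obtain ⟨Y'', hY'', hvY'', hne''⟩ := hcon v hv hvY'
        exact ⟨Y'', Finset.mem_erase.2 ⟨hne'', hY''⟩, hvY''⟩
      · exact ⟨Y', Finset.mem_erase.2 ⟨hYY, hY'⟩, hvY'⟩
  have hNBu : NB u := ⟨e, hwe, hes, hus⟩
  -- at least three sets
  have hthree : 2 < L.card := by
    by_contra hcon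
    have hc1 : ∃ A B : Finset V, (A ∈ L ∧ B ∈ L) ∧ ∀ Y ∈ L, Y = A ∨ Y = B := by
      obtain ⟨A, hA, -⟩ := hLc u hNBu
      by_cases h : ∃ B ∈ L, B ≠ A
      · obtain ⟨B, hB, hBA⟩ := h
        refine ⟨A, B, ⟨hA, hB⟩, ?_⟩
        intro Y hY
        by_contra hYn
        push Not at hYn
        have : 2 < L.card := Finset.two_lt_card.2 ⟨A, hA, B, hB, Y, hY, hBA.symm,
          hYn.1.symm, hYn.2.symm⟩
        exact hcon this
      · push Not at h
        exact ⟨A, A, ⟨hA, hA⟩, fun Y hY => Or.inl (h Y hY)⟩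
    obtain ⟨A, B, ⟨hA, hB⟩, hAB⟩ := hc1
    have hA' := (hLM A hA).1
    have hB' := (hLM B hB).1
    have h1 := hhalf A hA'.2.2.2.1 hA'.2.1 hA'.2.2.2.2
    have h2 := hhalf B hB'.2.2.2.1 hB'.2.1 hB'.2.2.2.2
    have h3 : cw a b x {s} + x e ≤ dd a b x A {s} + dd a b x B {s} := by
      have h4 : x e = ∑ g, if g = e then x e else 0 := by
        rw [Finset.sum_ite_eq' Finset.univ e (fun _ => x e), if_pos (Finset.mem_univ _)]
      rw [h4]
      unfold cw dd
      rw [← Finset.sum_add_distrib, ← Finset.sum_add_distrib]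
      apply Finset.sum_le_sum
      intro g _
      by_cases hge : g = e
      · subst hge
        rw [if_pos rfl]
        have h5 : (a g ∈ A ∧ b g ∈ ({s} : Finset V)) ∨ (a g ∈ ({s} : Finset V) ∧ b g ∈ A) := by
          rcases hes with ⟨h6, h7⟩ | ⟨h6, h7⟩
          · right; rw [h6, h7]; exact ⟨Finset.mem_singleton_self s, hA'.2.2.1⟩
          · left; rw [h6, h7]; exact ⟨hA'.2.2.1, Finset.mem_singleton_self s⟩
        have h6 : (a g ∈ B ∧ b g ∈ ({s} : Finset V)) ∨ (a g ∈ ({s} : Finset V) ∧ b g ∈ B) := by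
          rcases hes with ⟨h6, h7⟩ | ⟨h6, h7⟩
          · right; rw [h6, h7]; exact ⟨Finset.mem_singleton_self s, hB'.2.2.1⟩
          · left; rw [h6, h7]; exact ⟨hB'.2.2.1, Finset.mem_singleton_self s⟩
        rw [if_pos h5, if_pos h6]
        have h7 : (if (a g ∈ ({s} : Finset V) ↔ b g ∈ ({s} : Finset V)) then 0 else x g) ≤ x g := by
          split_ifs
          · exact Nat.zero_le _
          · exact le_rfl
        exact Nat.add_le_add_right h7 _
      · rw [if_neg hge, add_zero]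
        by_cases h5 : (a g ∈ ({s} : Finset V) ↔ b g ∈ ({s} : Finset V))
        · rw [if_pos h5]; exact Nat.zero_le _
        · rw [if_neg h5]
          rw [Finset.mem_singleton, Finset.mem_singleton] at h5
          by_cases hw0 : w g = 0
          · rw [(hs1 g (or_of_not_iff h5)).2, hw0]
            exact Nat.zero_le _
          · have hw1 : w g = 1 :=
              le_antisymm (hs1 g (or_of_not_iff h5)).1 (Nat.pos_of_ne_zero hw0)
            obtain ⟨v, hvs, hgv⟩ : ∃ v, v ≠ s ∧ ((a g = s ∧ b g = v) ∨ (a g = v ∧ b g = s)) := by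
              by_cases h6 : a g = s
              · exact ⟨b g, fun h7 => h5 ⟨fun _ => h7, fun _ => h6⟩, Or.inl ⟨h6, rfl⟩⟩
              · have h7 : b g = s := (or_of_not_iff h5).resolve_left h6
                exact ⟨a g, h6, Or.inr ⟨rfl, h7⟩⟩
            obtain ⟨Y, hY, hvY⟩ := hLc v ⟨g, hw1, hgv, hvs⟩
            have key : ∀ Z : Finset V, v ∈ Z → ((a g ∈ Z ∧ b g ∈ ({s} : Finset V)) ∨
                (a g ∈ ({s} : Finset V) ∧ b g ∈ Z)) := by
              intro Z hvZ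
              rcases hgv with ⟨h8, h9⟩ | ⟨h8, h9⟩
              · right; rw [h8, h9]; exact ⟨Finset.mem_singleton_self s, hvZ⟩
              · left; rw [h8, h9]; exact ⟨hvZ, Finset.mem_singleton_self s⟩
            rcases hAB Y hY with h6 | h6
            · rw [if_pos (key A (h6 ▸ hvY))]
              exact Nat.le_add_right _ _
            · rw [if_pos (key B (h6 ▸ hvY))]
              exact Nat.le_add_left _ _
    omega
  obtain ⟨A, hA, B, hB, C, hC, hAB, hAC, hBC⟩ := Finset.two_lt_card.1 hthree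
  obtain ⟨p, hp, hpA, hpu⟩ := hpriv A hA
  obtain ⟨q, hq, hqB, hqu⟩ := hpriv B hB
  obtain ⟨r, hr, hrC, hru⟩ := hpriv C hC
  have hpB : p ∉ B := fun h => hAB (hpu B hB h).symm
  have hpC : p ∉ C := fun h => hAC (hpu C hC h).symm
  have hqA : q ∉ A := fun h => hAB (hqu A hA h)
  have hqC : q ∉ C := fun h => hBC (hqu C hC h).symm
  have hrA : r ∉ A := fun h => hAC (hru A hA h)
  have hrB : r ∉ B := fun h => hBC (hru B hB h)
  -- analysis of a pair
  have pair : ∀ X Y : Finset V, Mx X → Mx Y → X ≠ Y → ∀ y z : V, y ∈ X → y ∉ Y → z ∈ Y → z ∉ X →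
      T1 a b x κ u X Y ∨ T2 a b x κ X Y y z := by
    intro X Y hX hY hXY y z hyX hyY hzY hzX
    obtain ⟨⟨hXW, hsX, huX, hXH, hXc⟩, hXm⟩ := hX
    obtain ⟨⟨hYW, hsY, huY, hYH, hYc⟩, hYm⟩ := hY
    rcases HV_uncross a b w X Y hXH hYH with ⟨h1, h2⟩ | ⟨h1, h2⟩
    · left
      have h3 := hk _ h1
      have h4 : 2 * κ + 2 ≤ cw a b x (X ∪ Y) := by
        by_contra hcon
        have h5 : Dg (X ∪ Y) := ⟨Finset.union_subset hXW hYW, notMem_union' hsX hsY,
          Finset.mem_union_left _ huX, h2, by omega⟩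
        have h6 := hXm _ h5 Finset.subset_union_left
        apply hzX
        rw [← h6]
        exact Finset.mem_union_right _ hzY
      have h5 := cw_iu a b x X Y
      have h6 : cw a b x (X ∩ Y) = 2 * κ := by omega
      have h7 : X ∩ Y = {u} := by
        ext v
        rw [Finset.mem_singleton]
        constructor
        · intro hv
          exact hsing (X ∩ Y) (Finset.inter_subset_left.trans hXW) (fun h =>
            hsX (Finset.mem_inter.1 h).1) h1 h6 v hv u (Finset.mem_inter.2 ⟨huX, huY⟩)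
        · rintro rfl
          exact Finset.mem_inter.2 ⟨huX, huY⟩
      refine ⟨h7, ?_, by omega, by omega⟩
      rw [← h7]
      exact h6
    · right
      have h3 := hk _ h1
      have h4 := hk _ h2
      have h5 := cw_dd a b x X Y
      have h6 : x e ≤ dd a b x (X ∩ Y) (X ∪ Y)ᶜ := dd_edge hes (Finset.mem_inter.2 ⟨huX, huY⟩)
        (mem_compl_union' hsX hsY)
      have h7 : cw a b x (X \ Y) = 2 * κ := by omega
      have h8 : cw a b x (Y \ X) = 2 * κ := by omega
      have h9 : X \ Y = {y} := by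
        ext v
        rw [Finset.mem_singleton]
        constructor
        · intro hv
          exact hsing (X \ Y) (Finset.sdiff_subset.trans hXW) (fun h =>
            hsX (Finset.mem_sdiff.1 h).1) h1 h7 v hv y (Finset.mem_sdiff.2 ⟨hyX, hyY⟩)
        · rintro rfl
          exact Finset.mem_sdiff.2 ⟨hyX, hyY⟩
      have h10 : Y \ X = {z} := by
        ext v
        rw [Finset.mem_singleton]
        constructor
        · intro hv
          exact hsing (Y \ X) (Finset.sdiff_subset.trans hYW) (fun h =>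
            hsY (Finset.mem_sdiff.1 h).1) h2 h8 v hv z (Finset.mem_sdiff.2 ⟨hzY, hzX⟩)
        · rintro rfl
          exact Finset.mem_sdiff.2 ⟨hzY, hzX⟩
      refine ⟨h9, h10, ?_, ?_, by omega, by omega, by omega⟩
      · rw [← h9]; exact h7
      · rw [← h10]; exact h8
  have hMA := hLM A hA
  have hMB := hLM B hB
  have hMC := hLM C hC
  obtain ⟨-, hsA, huA, -, -⟩ := hMA.1
  obtain ⟨-, hsB, huB, -, -⟩ := hMB.1
  obtain ⟨-, hsC, huC, -, -⟩ := hMC.1
  have hup : u ≠ p := fun h => hpB (h ▸ huB)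
  have huq : u ≠ q := fun h => hqA (h ▸ huA)
  have hur : u ≠ r := fun h => hrA (h ▸ huA)
  rcases pair A B hMA hMB hAB p q hpA hpB hqB hqA with tAB | tAB
  · rcases pair A C hMA hMC hAC p r hpA hpC hrC hrA with tAC | tAC
    · exact c111 hk hev hes hxe hsA hsB hus.symm huA huB tAB
    · rcases pair B C hMB hMC hBC q r hqB hqC hrC hrB with tBC | tBC
      · exact c111 hk hev hes hxe hsA hsB hus.symm huA huB tAB
      · -- `AC`, `BC` of second type, `AB` of first type; centre `C`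
        exact c221 hrC hur huC tAC.symm tBC.symm tAB
  · rcases pair A C hMA hMC hAC p r hpA hpC hrC hrA with tAC | tAC
    · rcases pair B C hMB hMC hBC q r hqB hqC hrC hrB with tBC | tBC
      · exact c211 hκ hk hev hes hxe hsA hsB hsC huA huB huC tAB tAC tBC
      · -- `AB`, `BC` second, `AC` first; centre `B`
        exact c221 hqB huq huB tAB.symm tBC tAC
    · rcases pair B C hMB hMC hBC q r hqB hqC hrC hrB with tBC | tBC
      · exact c221 hpA hup huA tAB tAC tBC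
      · exact c222 hκ hk hev hes hxe hsA hsB hsC huA huB hpB hpC hqA hqC hpA hqB tAB tAC tBC

end Pool.Agent.FCCov
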