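import Mathlib
import Pool.Agent.FCCov.M

/-!
# The splitting lemma
-/

set_option autoImplicit false
set_option linter.unusedSectionVars false

namespace Pool.Agent.FCCov

open Module

variable {V E : Type*} [Fintype V] [DecidableEq V] [Fintype E] [DecidableEq E]

/-- a liftable pair exists at every light vertex -/
theorem exists_lift {κ : ℕ} (hκ : 1 ≤ κ) (w x : E → ℕ) (s : V) :
    ∀ (n : ℕ) (a b : E → V) (W : Finset V), W.card = n →
    (∀ X, HV a b w X → 2 * κ ≤ cw a b x X) → (∀ X, ¬ HV a b w X → Even (cw a b x X)) →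
    (∀ g, (a g = s ∨ b g = s) → w g ≤ 1 ∧ x g = w g) →
    (∃ e, w e ≠ 0 ∧ a e ≠ b e ∧ (a e = s ∨ b e = s)) →
    ∃ e f u v, Liftable a b w x κ s W e f u v := by
  classical
  intro n
  induction n using Nat.strong_induction_on with
  | _ n ih =>
  intro a b W hW hk hev hs1 hex
  by_cases hsing : ∀ X : Finset V, X ⊆ W → s ∉ X → HV a b w X → cw a b x X = 2 * κ →
      ∀ y ∈ X, ∀ z ∈ X, y = z
  · exact lift_base hκ hk hev hs1 hex hsing
  push Not at hsing
  obtain ⟨X, hXW, hsX, hXH, hXc, y, hy, z, hz, hyz⟩ := hsing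
  set ψ : V → V := fun v => if v ∈ X then y else v with hψ
  have hψin : ∀ v ∈ X, ψ v = y := fun v hv => by simp only [hψ, if_pos hv]
  have hψout : ∀ v ∉ X, ψ v = v := fun v hv => by simp only [hψ, if_neg hv]
  have hys : y ≠ s := fun h => hsX (h ▸ hy)
  have hψs : ∀ v, ψ v = s ↔ v = s := by
    intro v
    by_cases hv : v ∈ X
    · rw [hψin v hv]
      constructor
      · intro h
        exact absurd h hys
      · rintro rfl
        exact absurd hv hsX
    · rw [hψout v hv]
  have hcard : (W.image ψ).card < n := by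
    rw [← hW]
    have h1 : W.image ψ ⊆ W.erase z := by
      intro v hv
      rw [Finset.mem_image] at hv
      obtain ⟨v', hv', rfl⟩ := hv
      rw [Finset.mem_erase]
      by_cases h : v' ∈ X
      · rw [hψin v' h]
        exact ⟨hyz, hXW hy⟩
      · rw [hψout v' h]
        exact ⟨fun h' => h (h' ▸ hz), hv'⟩
    have h2 := Finset.card_le_card h1
    have h3 := Finset.card_erase_lt_of_mem (hXW hz)
    omega
  obtain ⟨e, f, u, v, hef, hwe, hwf, hes, hfs, hus, hvs, hY⟩ := ih _ hcard (ψ ∘ a) (ψ ∘ b)
    (W.image ψ) rfl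
    (fun Y hY => by
      rw [HV_pull] at hY
      rw [cw_pull]
      exact hk _ hY)
    (fun Y hY => by
      rw [HV_pull] at hY
      rw [cw_pull]
      exact hev _ hY)
    (fun g hg => by
      apply hs1 g
      simp only [Function.comp_apply, hψs] at hg
      exact hg)
    (by
      obtain ⟨e, he, heab, hes⟩ := hex
      refine ⟨e, he, ?_, ?_⟩
      · simp only [Function.comp_apply]
        intro h
        apply heab
        rcases hes with h1 | h1
        · have h2 : ψ (b e) = s := by rw [← h, hψs]; exact h1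
          rw [hψs] at h2
          rw [h1, h2]
        · have h2 : ψ (a e) = s := by rw [h, hψs]; exact h1
          rw [hψs] at h2
          rw [h1, h2]
      · simp only [Function.comp_apply, hψs]
        exact hes)
  simp only [Function.comp_apply, hψs] at hes hfs
  -- the ends in the original graph
  obtain ⟨u', hes', hu'⟩ : ∃ u', ((a e = s ∧ b e = u') ∨ (a e = u' ∧ b e = s)) ∧ ψ u' = u := by
    rcases hes with ⟨h1, h2⟩ | ⟨h1, h2⟩
    · exact ⟨b e, Or.inl ⟨h1, rfl⟩, h2⟩
    · exact ⟨a e, Or.inr ⟨rfl, h2⟩, h1⟩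
  obtain ⟨v', hfs', hv'⟩ : ∃ v', ((a f = s ∧ b f = v') ∨ (a f = v' ∧ b f = s)) ∧ ψ v' = v := by
    rcases hfs with ⟨h1, h2⟩ | ⟨h1, h2⟩
    · exact ⟨b f, Or.inl ⟨h1, rfl⟩, h2⟩
    · exact ⟨a f, Or.inr ⟨rfl, h2⟩, h1⟩
  have hu's : u' ≠ s := fun h => hus (by rw [← hu', hψs]; exact h)
  have hv's : v' ≠ s := fun h => hvs (by rw [← hv', hψs]; exact h)
  refine ⟨e, f, u', v', hef, hwe, hwf, hes', hfs', hu's, hv's, ?_⟩
  intro Y hYW hsY huY hvY hYH
  by_contra hcon
  have hxe : x e = 1 := by
    rw [(hs1 e (by rcases hes' with h | h; exacts [Or.inl h.1, Or.inr h.2])).2, hwe]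
  have hxf : x f = 1 := by
    rw [(hs1 f (by rcases hfs' with h | h; exacts [Or.inl h.1, Or.inr h.2])).2, hwf]
  rcases HV_uncross a b w X Y hXH hYH with ⟨h1, h2⟩ | ⟨h1, h2⟩
  · -- the union
    have h3 := hk _ h1
    have h4 := cw_sub a b x X Y
    have hpre : Finset.univ.filter (fun v => ψ v ∈ (X ∪ Y).image ψ) = X ∪ Y := by
      ext t
      simp only [Finset.mem_filter, Finset.mem_univ, true_and, Finset.mem_image]
      constructor
      · rintro ⟨t', ht', htt⟩
        by_cases h5 : t ∈ X
        · exact Finset.mem_union_left _ h5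
        · rw [hψout t h5] at htt
          by_cases h6 : t' ∈ X
          · rw [hψin t' h6] at htt
            exact absurd (htt ▸ hy) h5
          · rw [hψout t' h6] at htt
            rw [← htt]
            exact ht'
      · intro ht
        exact ⟨t, ht, rfl⟩
    have h5 := hY ((X ∪ Y).image ψ) (Finset.image_subset_image (Finset.union_subset hXW hYW))
      (by
        rw [Finset.mem_image]
        rintro ⟨t, ht, hts⟩
        rw [hψs] at hts
        rw [hts, Finset.mem_union] at ht
        tauto)
      (by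
        rw [← hu']
        exact Finset.mem_image_of_mem ψ (Finset.mem_union_right _ huY))
      (by
        rw [← hv']
        exact Finset.mem_image_of_mem ψ (Finset.mem_union_right _ hvY))
      (by
        rw [HV_pull, hpre]
        exact h2)
    rw [cw_pull, hpre] at h5
    omega
  · -- the difference
    have h3 := hk _ h1
    have h4 := cw_dd a b x X Y
    have hu'X : u' ∉ X := by
      intro h
      have h5 : x e ≤ dd a b x (X ∩ Y) (X ∪ Y)ᶜ := dd_edge hes' (Finset.mem_inter.2 ⟨h, huY⟩)
        (by rw [Finset.mem_compl, Finset.mem_union]; tauto)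
      have h6 := hk _ h2
      omega
    have hv'X : v' ∉ X := by
      intro h
      have h5 : x f ≤ dd a b x (X ∩ Y) (X ∪ Y)ᶜ := dd_edge hfs' (Finset.mem_inter.2 ⟨h, hvY⟩)
        (by rw [Finset.mem_compl, Finset.mem_union]; tauto)
      have h6 := hk _ h2
      omega
    have hpre : Finset.univ.filter (fun v => ψ v ∈ (Y \ X).image ψ) = Y \ X := by
      ext t
      simp only [Finset.mem_filter, Finset.mem_univ, true_and, Finset.mem_image]
      constructor
      · rintro ⟨t', ht', htt⟩
        rw [hψout t' (Finset.mem_sdiff.1 ht').2] at htt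
        by_cases h5 : t ∈ X
        · rw [hψin t h5] at htt
          exact absurd (htt ▸ ht') (fun h => (Finset.mem_sdiff.1 h).2 hy)
        · rw [hψout t h5] at htt
          rw [← htt]
          exact ht'
      · intro ht
        exact ⟨t, ht, rfl⟩
    have h5 := hY ((Y \ X).image ψ) (Finset.image_subset_image (Finset.sdiff_subset.trans hYW))
      (by
        rw [Finset.mem_image]
        rintro ⟨t, ht, hts⟩
        rw [hψs] at hts
        rw [hts, Finset.mem_sdiff] at ht
        exact hsY ht.1)
      (by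
        rw [← hu']
        exact Finset.mem_image_of_mem ψ (Finset.mem_sdiff.2 ⟨huY, hu'X⟩))
      (by
        rw [← hv']
        exact Finset.mem_image_of_mem ψ (Finset.mem_sdiff.2 ⟨hvY, hv'X⟩))
      (by
        rw [HV_pull, hpre]
        exact h2)
    rw [cw_pull, hpre] at h5
    omega

end Pool.Agent.FCCov
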