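import Mathlib
import Pool.Agent.FCCov.G
import Pool.Agent.FCCov.M2

/-!
# The local theorem and the main theorem
-/

set_option autoImplicit false
set_option linter.unusedSectionVars false

namespace Pool.Agent.FCCov

open Module

variable {V E : Type*} [Fintype V] [DecidableEq V] [Fintype E] [DecidableEq E]

lemma contract_even {a b : E → V} (φ : V → V) {w : E → ℕ} (hE : ∑ e, w e • bnd a b e = 0) :
    ∑ e, outer a b φ w e • bnd (φ ∘ a) (φ ∘ b) e = 0 := by
  classical
  set ψ : (V → ZMod 2) →ₗ[ZMod 2] (V → ZMod 2) :=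
    Fintype.linearCombination (ZMod 2) (fun v => (Pi.single (φ v) 1 : V → ZMod 2)) with hψ
  have h1 : ∀ e, ψ (bnd a b e) = bnd (φ ∘ a) (φ ∘ b) e := by
    intro e
    unfold bnd
    rw [map_add, hψ, Fintype.linearCombination_apply_single,
      Fintype.linearCombination_apply_single, one_smul, one_smul]
    rfl
  have h2 : ∑ e, w e • bnd (φ ∘ a) (φ ∘ b) e = 0 := by
    have h3 := congrArg ψ hE
    rw [map_sum, map_zero] at h3
    rw [← h3]
    apply Finset.sum_congr rfl
    intro e _
    rw [map_nsmul, h1]
  rw [← h2]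
  apply Finset.sum_congr rfl
  intro e _
  unfold outer
  split_ifs with h
  · have : bnd (φ ∘ a) (φ ∘ b) e = 0 := by
      unfold bnd
      simp only [Function.comp_apply]
      rw [h, add_self2]
    rw [this, smul_zero, smul_zero]
  · rfl

lemma contract_cw (a b : E → V) (φ : V → V) (w : E → ℕ) (t : ℕ) (X : Finset V) :
    cw (φ ∘ a) (φ ∘ b) (cp (outer a b φ w) t) X =
      cw a b (cp w t) (Finset.univ.filter (fun v => φ v ∈ X)) := by
  unfold cw
  apply Finset.sum_congr rfl
  intro e _
  simp only [Function.comp_apply, Finset.mem_filter, Finset.mem_univ, true_and]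
  by_cases h : (φ (a e) ∈ X ↔ φ (b e) ∈ X)
  · rw [if_pos h, if_pos h]
  · rw [if_neg h, if_neg h]
    have h1 : φ (a e) ≠ φ (b e) := by
      intro h'
      rw [h'] at h
      exact h Iff.rfl
    unfold cp outer
    rw [if_neg h1]

lemma contract_HV {a b : E → V} {φ : V → V} {w : E → ℕ} {X : Finset V}
    (h : HV (φ ∘ a) (φ ∘ b) (outer a b φ w) X) :
    HV a b w (Finset.univ.filter (fun v => φ v ∈ X)) := by
  obtain ⟨e, he, hX⟩ := h
  refine ⟨e, ?_, ?_⟩
  · unfold outer at he
    split_ifs at he with h1
    · omega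
    · exact he
  · simpa using hX

lemma HV_compl {a b : E → V} {w : E → ℕ} {X : Finset V} (h : HV a b w X) : HV a b w Xᶜ := by
  obtain ⟨e, he, hX⟩ := h
  refine ⟨e, he, ?_⟩
  rw [Finset.mem_compl, Finset.mem_compl]
  tauto

/-- the contraction step: a minimal set is rich -/
lemma minimal_rich {t : ℕ} {a b : E → V} {w : E → ℕ} {Γ : Finset V}
    (hcls : ∀ X : Finset V, X.Nonempty → X ⊂ Γ → 4 * t ≤ cw a b (cp w t) X)
    (hΓ : cw a b (cp w t) Γ < 4 * t) (c : V → V) :
    2 * t * ((Γ.image c).card - 1) ≤
      ∑ f ∈ Finset.univ.filter (fun f => a f ∈ Γ ∧ b f ∈ Γ ∧ c (a f) ≠ c (b f)), cp w t f := by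
  classical
  rcases Nat.lt_or_ge (Γ.image c).card 2 with hp | hp
  · have : (Γ.image c).card - 1 = 0 := by omega
    rw [this, mul_zero]
    exact Nat.zero_le _
  have h1 : ∀ i ∈ Γ.image c, 4 * t ≤ cw a b (cp w t) (Γ.filter (fun v => c v = i)) := by
    intro i hi
    apply hcls
    · obtain ⟨x, hx, hxi⟩ := Finset.mem_image.1 hi
      exact ⟨x, Finset.mem_filter.2 ⟨hx, hxi⟩⟩
    · rw [Finset.ssubset_iff_of_subset (Finset.filter_subset _ _)]
      obtain ⟨j, hj, hji⟩ := Finset.exists_mem_ne hp i
      obtain ⟨y, hy, hyj⟩ := Finset.mem_image.1 hj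
      refine ⟨y, hy, fun h => ?_⟩
      exact hji (hyj ▸ (Finset.mem_filter.1 h).2)
  have h2 : ∑ i ∈ Γ.image c, cw a b (cp w t) (Γ.filter (fun v => c v = i)) ≤
      2 * ∑ f ∈ Finset.univ.filter (fun f => a f ∈ Γ ∧ b f ∈ Γ ∧ c (a f) ≠ c (b f)), cp w t f +
        cw a b (cp w t) Γ := by
    unfold cw
    rw [Finset.sum_comm, Finset.sum_filter, Finset.mul_sum, ← Finset.sum_add_distrib]
    apply Finset.sum_le_sum
    intro e _
    have h3 : ∀ i ∈ Γ.image c, (if (a e ∈ Γ.filter (fun v => c v = i) ↔
        b e ∈ Γ.filter (fun v => c v = i)) then 0 else cp w t e) ≤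
        (if c (a e) = i then (if a e ∈ Γ ∧ ¬ (b e ∈ Γ ∧ c (b e) = c (a e)) then cp w t e else 0)
          else 0) +
        (if c (b e) = i then (if b e ∈ Γ ∧ ¬ (a e ∈ Γ ∧ c (a e) = c (b e)) then cp w t e else 0)
          else 0) := by
      intro i _
      simp only [Finset.mem_filter]
      by_cases h4 : c (a e) = i <;> by_cases h5 : c (b e) = i <;> by_cases h6 : a e ∈ Γ <;>
        by_cases h7 : b e ∈ Γ <;> simp [h4, h5, h6, h7]
    refine (Finset.sum_le_sum h3).trans ?_
    rw [Finset.sum_add_distrib, Finset.sum_ite_eq, Finset.sum_ite_eq]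
    by_cases h6 : a e ∈ Γ <;> by_cases h7 : b e ∈ Γ
    · by_cases h8 : c (a e) = c (b e)
      · simp [h6, h7, h8]
      · have h9 : ¬ c (b e) = c (a e) := fun h => h8 h.symm
        simp only [h6, h7, h8, h9, Finset.mem_image_of_mem c h6, Finset.mem_image_of_mem c h7]
        simp
        rw [if_neg h8]
        omega
    · simp only [h6, h7, Finset.mem_image_of_mem c h6]
      simp
    · simp only [h6, h7, Finset.mem_image_of_mem c h7]
      simp
    · simp [h6, h7]
  have h3 : 4 * t * (Γ.image c).card ≤
      ∑ i ∈ Γ.image c, cw a b (cp w t) (Γ.filter (fun v => c v = i)) := by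
    have := Finset.sum_le_sum h1
    rw [Finset.sum_const, smul_eq_mul, mul_comm] at this
    exact this
  obtain ⟨p, hp1⟩ : ∃ p, (Γ.image c).card = p + 1 := ⟨(Γ.image c).card - 1, by omega⟩
  rw [hp1] at h3 ⊢
  have h4 : 4 * t * (p + 1) = 2 * (2 * t * p) + 4 * t := by ring
  have h5 : p + 1 - 1 = p := by omega
  rw [h5]
  omega

/-- **Local theorem.** -/
theorem local_t (t : ℕ) (ht1 : 1 ≤ t) : ∀ (n : ℕ) (a b : E → V) (w : E → ℕ), ∑ e, w e = n →
    ∑ e, w e • bnd a b e = 0 → (∀ e, w e ≤ 2 * t + 1) →
    (∀ X : Finset V, HV a b w X → 4 * t ≤ cw a b (cp w t) X) →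
    NC (bnd a b) w (2 * t + 1) := by
  classical
  intro n
  induction n using Nat.strong_induction_on with
  | _ n ih =>
  intro a b w hn hE hm hc
  by_cases h0 : ∀ e, w e = 0
  · have : w = fun _ => 0 := funext h0
    rw [this]
    exact NC.zero _ _
  push Not at h0
  obtain ⟨e0, he0⟩ := h0
  by_cases hloop : ∃ e, w e ≠ 0 ∧ a e = b e
  · -- a loop
    obtain ⟨e, he, hab⟩ := hloop
    have hbe : bnd a b e = 0 := by
      unfold bnd
      rw [hab, add_self2]
    have hHV : ∀ X, HV a b (Function.update w e 0) X → HV a b w X := by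
      rintro X ⟨g, hg, hgX⟩
      refine ⟨g, ?_, hgX⟩
      by_cases hge : g = e
      · rw [hge, Function.update_self] at hg
        omega
      · rw [Function.update_of_ne hge] at hg
        exact hg
    have hcw : ∀ X, cw a b (cp (Function.update w e 0) t) X = cw a b (cp w t) X := by
      intro X
      rw [cp_update]
      unfold cw
      apply Finset.sum_congr rfl
      intro g _
      by_cases hg : g = e
      · subst hg
        rw [if_pos (by rw [hab]), if_pos (by rw [hab])]
      · rw [Function.update_of_ne hg]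
    refine NC.loop hbe (hm e)
      (ih _ ?_ a b (Function.update w e 0) rfl ?_ ?_ ?_)
    · rw [← hn]
      apply Finset.sum_lt_sum
      · intro g _
        by_cases hg : g = e
        · rw [hg, Function.update_self]; exact Nat.zero_le _
        · rw [Function.update_of_ne hg]
      · refine ⟨e, Finset.mem_univ e, ?_⟩
        rw [Function.update_self]
        omega
    · rw [← hE]
      apply Finset.sum_congr rfl
      intro g _
      by_cases hg : g = e
      · rw [hg, hbe, smul_zero, smul_zero]
      · rw [Function.update_of_ne hg]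
    · intro g
      by_cases hge : g = e
      · rw [hge, Function.update_self]; exact Nat.zero_le _
      · rw [Function.update_of_ne hge]; exact hm g
    · intro X hX
      rw [hcw]
      exact hc X (hHV X hX)
  push Not at hloop
  by_cases hlight : ∃ (s0 : V) (e : E), (a e = s0 ∨ b e = s0) ∧ w e ≠ 0 ∧
      ∀ g, (a g = s0 ∨ b g = s0) → w g ≤ 1
  · -- lifting at a light vertex
    obtain ⟨s0, e', hes0, hwe', hl⟩ := hlight
    have hx1 : ∀ g, w g ≤ 1 → cp w t g = w g := by
      intro g hg
      unfold cp
      rw [min_eq_left]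
      omega
    obtain ⟨e, f, u, v, hef, he, hf, hes, hfs, hus, hvs, hY⟩ := exists_lift (κ := 2 * t)
      (by omega) w (cp w t) s0 _ a b Finset.univ rfl
      (fun X hX => by
        have := hc X hX
        omega)
      (fun X hX => by
        have h1 : cw a b (cp w t) X = cw a b w X := by
          unfold cw
          apply Finset.sum_congr rfl
          intro g _
          by_cases h : (a g ∈ X ↔ b g ∈ X)
          · rw [if_pos h, if_pos h]
          · rw [if_neg h, if_neg h]
            apply hx1
            by_contra h2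
            exact hX ⟨g, by omega, h⟩
        rw [h1]
        exact cw_even hE X)
      (fun g hg => ⟨hl g hg, hx1 g (hl g hg)⟩)
      ⟨e', hwe', hloop e' hwe', hes0⟩
    have hfe : f ≠ e := hef.symm
    have hex : cp w t e = 1 := by rw [hx1 e (by omega), he]
    have hfx : cp w t f = 1 := by rw [hx1 f (by omega), hf]
    have hbe : bnd a b e = Pi.single s0 1 + Pi.single u 1 := by
      unfold bnd
      rcases hes with ⟨h1, h2⟩ | ⟨h1, h2⟩
      · rw [h1, h2]
      · rw [h1, h2, add_comm]
    have hbf : bnd a b f = Pi.single s0 1 + Pi.single v 1 := by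
      unfold bnd
      rcases hfs with ⟨h1, h2⟩ | ⟨h1, h2⟩
      · rw [h1, h2]
      · rw [h1, h2, add_comm]
    have huv : bnd a b e + bnd a b f = Pi.single u 1 + Pi.single v 1 := by
      rw [hbe, hbf]
      have h4 : (Pi.single s0 1 + Pi.single u 1 + (Pi.single s0 1 + Pi.single v 1) :
          V → ZMod 2) =
          (Pi.single s0 1 + Pi.single s0 1) + (Pi.single u 1 + Pi.single v 1) := by abel
      rw [h4, add_self2, zero_add]
    have hfe' : f ∈ (Finset.univ : Finset E).erase e :=
      Finset.mem_erase.2 ⟨hfe, Finset.mem_univ _⟩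
    refine lift_cover hef he hf huv (ih _ ?_ _ _ _ rfl ?_ ?_ ?_)
    · rw [← hn]
      apply Finset.sum_lt_sum
      · intro g _
        by_cases hg : g = f
        · rw [hg, Function.update_self]; exact Nat.zero_le _
        · rw [Function.update_of_ne hg]
      · refine ⟨f, Finset.mem_univ f, ?_⟩
        rw [Function.update_self]
        omega
    · rw [← Finset.add_sum_erase Finset.univ _ (Finset.mem_univ e),
        ← Finset.add_sum_erase _ _ hfe']
      rw [← Finset.add_sum_erase Finset.univ _ (Finset.mem_univ e),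
        ← Finset.add_sum_erase _ _ hfe', he, hf, one_smul, one_smul] at hE
      have hrest : ∀ g ∈ ((Finset.univ : Finset E).erase e).erase f,
          Function.update w f 0 g • bnd (Function.update a e u) (Function.update b e v) g =
          w g • bnd a b g := by
        intro g hg
        have h1 := Finset.ne_of_mem_erase hg
        have h2 := Finset.ne_of_mem_erase (Finset.mem_of_mem_erase hg)
        unfold bnd
        rw [Function.update_of_ne h2, Function.update_of_ne h2, Function.update_of_ne h1]
      rw [Finset.sum_congr rfl hrest, Function.update_self, Function.update_of_ne hef, he,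
        zero_smul, zero_add, one_smul, ← hE, ← add_assoc, huv]
      unfold bnd
      rw [Function.update_self, Function.update_self]
    · intro g
      by_cases hgf : g = f
      · rw [hgf, Function.update_self]; exact Nat.zero_le _
      · rw [Function.update_of_ne hgf]; exact hm g
    · intro X hX
      have hX' : HV a b w X := by
        obtain ⟨g, hg, hgX⟩ := hX
        have h1 : g ≠ f := by
          rintro rfl
          rw [Function.update_self] at hg
          omega
        rw [Function.update_of_ne h1] at hg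
        have h2 : g ≠ e := by
          rintro rfl
          omega
        rw [Function.update_of_ne h2, Function.update_of_ne h2] at hgX
        exact ⟨g, hg, hgX⟩
      have h1 := cw_lift hef hex hfx hes hfs X
      rw [← cp_update] at h1
      have h2 := hc X hX'
      by_cases hcond : (s0 ∈ X ∧ u ∉ X ∧ v ∉ X) ∨ (s0 ∉ X ∧ u ∈ X ∧ v ∈ X)
      · rw [if_pos hcond] at h1
        have h3 : 2 * (2 * t) + 2 ≤ cw a b (cp w t) X := by
          rcases hcond with ⟨h4, h5, h6⟩ | ⟨h4, h5, h6⟩
          · rw [← cw_compl]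
            apply hY _ (Finset.subset_univ _)
            · rw [Finset.mem_compl]; exact not_not.2 h4
            · rw [Finset.mem_compl]; exact h5
            · rw [Finset.mem_compl]; exact h6
            · exact HV_compl hX'
          · exact hY X (Finset.subset_univ _) h4 h5 h6 hX'
        omega
      · rw [if_neg hcond, add_zero] at h1
        omega
  push Not at hlight
  -- contraction of a minimal set
  obtain ⟨g0, -, hg0⟩ := hlight (a e0) e0 (Or.inl rfl) he0
  have hne : ((Finset.univ : Finset (Finset V)).filter (fun Γ => ¬ HV a b w Γ ∧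
      (∃ e, 2 ≤ w e ∧ a e ∈ Γ) ∧ cw a b (cp w t) Γ < 4 * t)).Nonempty := by
    refine ⟨Finset.univ, Finset.mem_filter.2 ⟨Finset.mem_univ _, ?_, ?_, ?_⟩⟩
    · rintro ⟨e, _, he⟩
      simp at he
    · exact ⟨g0, hg0, Finset.mem_univ _⟩
    · have : cw a b (cp w t) Finset.univ = 0 := by
        unfold cw
        simp
      rw [this]
      omega
  obtain ⟨Γ, hΓ, hmin⟩ := Finset.exists_min_image _ (fun Γ : Finset V => Γ.card) hne
  rw [Finset.mem_filter] at hΓ
  obtain ⟨-, hΓH, ⟨g1, hg1, hg1Γ⟩, hΓc⟩ := hΓ
  have hheavy : ∀ X : Finset V, ¬ HV a b w X → ∀ e, 2 ≤ w e → (a e ∈ X ↔ b e ∈ X) := by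
    intro X hX e he
    by_contra h
    exact hX ⟨e, he, h⟩
  have hnoiso : ∀ x ∈ Γ, ∃ e, (a e = x ∨ b e = x) ∧ w e ≠ 0 := by
    intro x hx
    by_contra hcon
    push Not at hcon
    have hw0 : ∀ e, w e ≠ 0 → a e ≠ x ∧ b e ≠ x := by
      intro e he
      constructor
      · intro h
        exact he (hcon e (Or.inl h))
      · intro h
        exact he (hcon e (Or.inr h))
    have hiff : ∀ e, w e ≠ 0 → (a e ∈ Γ.erase x ↔ a e ∈ Γ) ∧ (b e ∈ Γ.erase x ↔ b e ∈ Γ) := by
      intro e he
      have := hw0 e he
      rw [Finset.mem_erase, Finset.mem_erase]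
      tauto
    have h1 := hmin (Γ.erase x) (Finset.mem_filter.2 ⟨Finset.mem_univ _, ?_, ?_, ?_⟩)
    · have h2 := Finset.card_erase_lt_of_mem hx
      omega
    · rintro ⟨e, he, heX⟩
      have h2 := hiff e (by omega)
      rw [h2.1, h2.2] at heX
      exact hΓH ⟨e, he, heX⟩
    · exact ⟨g1, hg1, ((hiff g1 (by omega)).1).2 hg1Γ⟩
    · have h2 : cw a b (cp w t) (Γ.erase x) = cw a b (cp w t) Γ := by
        unfold cw
        apply Finset.sum_congr rfl
        intro e _
        by_cases he : w e = 0
        · have : cp w t e = 0 := by unfold cp; rw [he]; simp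
          rw [this]
          simp
        · have h2 := hiff e he
          simp only [h2.1, h2.2]
      rw [h2]
      exact hΓc
  have hcls : ∀ X : Finset V, X.Nonempty → X ⊂ Γ → 4 * t ≤ cw a b (cp w t) X := by
    intro X hX hXΓ
    by_contra hcon
    have h1 : ¬ HV a b w X := fun h => hcon (hc X h)
    obtain ⟨x, hx⟩ := hX
    obtain ⟨e, hex, he⟩ := hnoiso x (hXΓ.1 hx)
    obtain ⟨g, hgx, hg⟩ := hlight x e hex he
    have h2 : a g ∈ X := by
      rcases hgx with h | h
      · rw [h]; exact hx
      · rw [hheavy X h1 g hg, h]; exact hx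
    have h3 := hmin X (Finset.mem_filter.2 ⟨Finset.mem_univ _, h1, ⟨g, hg, h2⟩, by omega⟩)
    have h4 := Finset.card_lt_card hXΓ
    omega
  have hrich := minimal_rich hcls hΓc
  -- the contraction
  set φ : V → V := fun v => if v ∈ Γ then a g1 else v with hφ
  have hφin : ∀ v ∈ Γ, φ v = a g1 := by
    intro v hv
    simp only [hφ, if_pos hv]
  have hφout : ∀ v ∉ Γ, φ v = v := by
    intro v hv
    simp only [hφ, if_neg hv]
  have hin : ∀ e, w e ≠ 0 → φ (a e) = φ (b e) → a e ∈ Γ ∧ b e ∈ Γ := by
    intro e he h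
    by_cases h1 : a e ∈ Γ <;> by_cases h2 : b e ∈ Γ
    · exact ⟨h1, h2⟩
    · rw [hφin _ h1, hφout _ h2] at h
      exact absurd (h ▸ hg1Γ) h2
    · rw [hφout _ h1, hφin _ h2] at h
      exact absurd (h.symm ▸ hg1Γ) h1
    · rw [hφout _ h1, hφout _ h2] at h
      exact absurd h (hloop e he)
  have hR : Rich a b (inner a b φ w) (fun _ => t) Γ t := by
    intro c _
    refine (hrich c).trans ?_
    apply Finset.sum_le_sum
    intro f hf
    rw [Finset.mem_filter] at hf
    refine le_of_eq ?_
    unfold cp inner
    rw [if_pos (by rw [hφin _ hf.2.1, hφin _ hf.2.2.1])]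
  refine extend (φ := φ) (s := fun _ => t) (t := t) (r := t) (N := t) ht1 le_rfl le_rfl hE
    ?_ (fun _ _ => ht1) ?_ ?_ ?_
  · intro e
    unfold inner
    split_ifs
    · exact hm e
    · exact Nat.zero_le _
  · intro e he
    refine ⟨le_rfl, ?_⟩
    unfold inner at he
    split_ifs at he with h1
    · have h2 := hin e (by omega) h1
      exact mem_Zf le_rfl hR h2.1 h2.2
    · omega
  · intro v
    by_cases hv : v ∈ Γ
    · rw [hφin v hv]
      exact mem_Zf le_rfl hR hv hg1Γ
    · rw [hφout v hv, add_self2]
      exact Submodule.zero_mem _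
  · refine ih _ ?_ (φ ∘ a) (φ ∘ b) (outer a b φ w) rfl (contract_even φ hE) ?_ ?_
    · rw [← hn]
      apply Finset.sum_lt_sum
      · intro g _
        unfold outer
        split_ifs
        · exact Nat.zero_le _
        · exact le_rfl
      · refine ⟨g1, Finset.mem_univ _, ?_⟩
        unfold outer
        rw [if_pos]
        · omega
        · rw [hφin _ hg1Γ, hφin _ ((hheavy Γ hΓH g1 hg1).1 hg1Γ)]
    · intro e
      unfold outer
      split_ifs
      · exact Nat.zero_le _
      · exact hm e
    · intro X hX
      rw [contract_cw]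
      exact hc _ (contract_HV hX)

theorem local_t' (t : ℕ) (a b : E → V) (w : E → ℕ) (hE : ∑ e, w e • bnd a b e = 0)
    (hm : ∀ e, w e ≤ 2 * t + 1)
    (hc : ∀ X : Finset V, HV a b w X → 4 * t ≤ cw a b (cp w t) X) :
    NC (bnd a b) w (2 * t + 1) := by
  classical
  rcases Nat.eq_zero_or_pos t with h0 | h0
  · subst h0
    have hw : ∀ e, w e = 0 ∨ w e = 1 := by
      intro e
      have := hm e
      omega
    refine ⟨{Finset.univ.filter (fun e => w e = 1)}, by simp, ?_, ?_⟩
    · intro D hD
      rw [Multiset.mem_singleton] at hD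
      rw [hD]
      unfold Ev
      rw [Finset.sum_filter]
      refine Eq.trans ?_ hE
      apply Finset.sum_congr rfl
      intro e _
      rcases hw e with h | h
      · rw [h]; simp
      · rw [h]; simp
    · intro e
      rw [← Multiset.cons_zero, Multiset.countP_cons, Multiset.countP_zero, zero_add]
      rcases hw e with h | h
      · simp [h]
      · simp [h]
  · exact local_t t h0 _ a b w rfl hE hm hc

/-- **Main theorem**: rich sets at the scales above `t`, and large cuts at scale `t`. -/
theorem main_core (a b : E → V) (w s : E → ℕ) (t : ℕ) (hE : ∑ e, w e • bnd a b e = 0)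
    (hs : ∀ e, w e ≤ 2 * s e + 1)
    (H : ∀ e, 1 ≤ w e → t < s e → ∃ U : Finset V, a e ∈ U ∧ b e ∈ U ∧ Rich a b w s U (s e))
    (hc : ∀ X : Finset V, (∀ f, 1 ≤ w f → t < s f → (a f ∈ X ↔ b f ∈ X)) → HV a b w X →
      4 * t ≤ cw a b (cp w t) X) : EvCover (bnd a b) w := by
  classical
  obtain ⟨N, hN⟩ : ∃ N, N = max (Finset.univ.sup s) (t + 1) := ⟨_, rfl⟩
  have hsN : ∀ e, s e ≤ N := fun e => by
    rw [hN]
    exact (Finset.le_sup (Finset.mem_univ e)).trans (le_max_left _ _)
  have htN : t + 1 ≤ N := by
    rw [hN]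
    exact le_max_right _ _
  set Z := Zf a b w s N (t + 1) with hZ
  let S : Setoid V := {
    r := fun u v => (Pi.single u 1 + Pi.single v 1 : V → ZMod 2) ∈ Z
    iseqv := {
      refl := fun u => by rw [add_self2]; exact Z.zero_mem
      symm := fun {u v} h => by rw [add_comm]; exact h
      trans := fun {u v x} h1 h2 => pair_trans h1 h2 } }
  set φ : V → V := fun v => Quotient.out (Quotient.mk S v) with hφ
  have hφ1 : ∀ u v, φ u = φ v ↔ (Pi.single u 1 + Pi.single v 1 : V → ZMod 2) ∈ Z := by
    intro u v
    constructor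
    · intro h
      have h1 : Quotient.mk S u = Quotient.mk S v := by
        have := congrArg (Quotient.mk S) h
        simp only [hφ, Quotient.out_eq] at this
        exact this
      exact Quotient.exact h1
    · intro h
      have h1 : Quotient.mk S u = Quotient.mk S v := Quotient.sound h
      simp only [hφ, h1]
  have hφ2 : ∀ v, (Pi.single v 1 + Pi.single (φ v) 1 : V → ZMod 2) ∈ Z := by
    intro v
    rw [← hφ1]
    simp only [hφ, Quotient.out_eq]
  have hφe : ∀ e, φ (a e) = φ (b e) ↔ bnd a b e ∈ Z := fun e => hφ1 _ _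
  have hcore : ∀ e, 1 ≤ w e → t < s e → bnd a b e ∈ Zf a b w s N (s e) := by
    intro e he hse
    obtain ⟨U, ha, hb, hU⟩ := H e he hse
    exact mem_Zf (hsN e) hU ha hb
  have hcoreZ : ∀ e, 1 ≤ w e → t < s e → φ (a e) = φ (b e) := by
    intro e he hse
    rw [hφe]
    exact Zf_anti a b w s N hse (hcore e he hse)
  set s' : E → ℕ := fun e => max (s e) (t + 1) with hs'
  have hZle : ∀ t', t + 1 ≤ t' → Zf a b w s N t' ≤ Zf a b (inner a b φ w) s' N t' := by
    intro t' ht'
    apply Submodule.span_mono
    rintro x ⟨t'', U, u, v, h1, h2, hU, hu, hv, rfl⟩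
    refine ⟨t'', U, u, v, h1, h2, ?_, hu, hv, rfl⟩
    intro c hcc
    refine (hU c ?_).trans ?_
    · intro f hf hsf
      apply hcc f
      · unfold inner
        rw [if_pos (hcoreZ f hf (by omega))]
        exact hf
      · simp only [hs']
        exact lt_of_lt_of_le hsf (le_max_left _ _)
    · apply le_of_eq
      apply Finset.sum_congr rfl
      intro f hf
      rw [Finset.mem_filter] at hf
      have h3 : φ (a f) = φ (b f) := by
        rw [hφe]
        exact Zf_anti a b w s N (ht'.trans h1) (mem_Zf h2 hU hf.2.1 hf.2.2.1)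
      unfold cp inner
      rw [if_pos h3]
  have hcov : NC (bnd (φ ∘ a) (φ ∘ b)) (outer a b φ w) (2 * t + 1) := by
    refine local_t' t (φ ∘ a) (φ ∘ b) (outer a b φ w) (contract_even φ hE) ?_ ?_
    · intro e
      unfold outer
      split_ifs with h1
      · exact Nat.zero_le _
      · by_contra hcon
        have h2 := hs e
        exact h1 (hcoreZ e (by omega) (by omega))
    · intro X hX
      rw [contract_cw]
      apply hc _ _ (contract_HV hX)
      intro f hf hsf
      have := hcoreZ f hf hsf
      simp only [Finset.mem_filter, Finset.mem_univ, true_and, this]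
  have hnc := extend (φ := φ) (s := s') (t := t) (r := t + 1) (N := N) (by omega) (by omega) htN
    hE ?_ ?_ ?_ ?_ hcov
  · exact hnc.evCover
  · intro e
    unfold inner
    split_ifs
    · refine (hs e).trans (Nat.add_le_add_right (Nat.mul_le_mul_left 2 ?_) 1)
      simp only [hs']
      exact le_max_left _ _
    · exact Nat.zero_le _
  · intro e _
    simp only [hs']
    omega
  · intro e he
    have h1 : φ (a e) = φ (b e) := by
      unfold inner at he
      split_ifs at he with h1
      · exact h1
      · omega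
    have h2 : 1 ≤ w e := by
      unfold inner at he
      rw [if_pos h1] at he
      exact he
    refine ⟨max_le (hsN e) htN, ?_⟩
    rcases Nat.lt_or_ge t (s e) with h3 | h3
    · have h4 : s' e = s e := max_eq_left h3
      rw [h4]
      exact hZle (s e) h3 (hcore e h2 h3)
    · have h4 : s' e = t + 1 := max_eq_right (by omega)
      rw [h4]
      exact hZle (t + 1) le_rfl ((hφe e).1 h1)
  · intro v
    exact hZle (t + 1) le_rfl (hφ2 v)

end Pool.Agent.FCCov
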