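import Mathlib
import Pool.Agent.FCCov.H
import Pool.Agent.ML.R2a

/-!
# Even edge sets are disjoint unions of circuits; the main theorem
-/

set_option autoImplicit false
set_option linter.unusedSectionVars false

namespace Pool.Agent.FCCov

open Module ML.R

variable {V E : Type} [Fintype V] [DecidableEq V] [Fintype E] [DecidableEq E]

lemma bnd_apply (a b : E → V) (e : E) (v : V) :
    bnd a b e v = (if a e = v then 1 else 0) + (if b e = v then 1 else 0) := by
  unfold bnd
  rw [Pi.add_apply, Pi.single_apply, Pi.single_apply]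
  congr 1
  · by_cases h : v = a e
    · rw [if_pos h, if_pos h.symm]
    · rw [if_neg h, if_neg (fun h' => h h'.symm)]
  · by_cases h : v = b e
    · rw [if_pos h, if_pos h.symm]
    · rw [if_neg h, if_neg (fun h' => h h'.symm)]

lemma deg_cast (G : MGraph V E) {a b : E → V} (hab : ∀ e, G.ends e = s(a e, b e)) (C : Finset E)
    (v : V) : ((G.deg C v : ℕ) : ZMod 2) = (∑ e ∈ C, bnd a b e) v := by
  unfold MGraph.deg
  rw [Finset.sum_apply, Nat.cast_sum]
  apply Finset.sum_congr rfl
  intro e _
  rw [mult_eq G (hab e), bnd_apply]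
  push_cast
  rfl

lemma ev_iff (G : MGraph V E) {a b : E → V} (hab : ∀ e, G.ends e = s(a e, b e)) (C : Finset E) :
    Ev (bnd a b) C ↔ ∀ v, Even (G.deg C v) := by
  unfold Ev
  constructor
  · intro h v
    rw [← ZMod.natCast_eq_zero_iff_even, deg_cast G hab, h]
    rfl
  · intro h
    funext v
    rw [← deg_cast G hab, ZMod.natCast_eq_zero_iff_even.2 (h v)]
    rfl

lemma sum_deg (G : MGraph V E) {a b : E → V} (hab : ∀ e, G.ends e = s(a e, b e)) (C : Finset E) :
    ∑ v, G.deg C v = 2 * C.card := by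
  unfold MGraph.deg
  rw [Finset.sum_comm]
  have : ∀ e ∈ C, ∑ v, G.mult e v = 2 := by
    intro e _
    rw [Finset.sum_congr rfl (fun v _ => mult_eq G (hab e) v), Finset.sum_add_distrib,
      Finset.sum_ite_eq, Finset.sum_ite_eq]
    simp
  rw [Finset.sum_congr rfl this, Finset.sum_const, smul_eq_mul, mul_comm]

/-- a nonempty even set contains a circuit -/
theorem exists_circuit_of_ev (G : MGraph V E) {a b : E → V} (hab : ∀ e, G.ends e = s(a e, b e))
    {D : Finset E} (hD : Ev (bnd a b) D) (hne : D.Nonempty) : ∃ C ⊆ D, G.IsCircuit C := by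
  classical
  -- a minimal nonempty even subset
  obtain ⟨C, hC, hmin⟩ : ∃ C : Finset E, (C ⊆ D ∧ C.Nonempty ∧ Ev (bnd a b) C) ∧
      ∀ C' : Finset E, (C' ⊆ D ∧ C'.Nonempty ∧ Ev (bnd a b) C') → C.card ≤ C'.card := by
    have hex : ∃ n, ∃ C : Finset E, (C ⊆ D ∧ C.Nonempty ∧ Ev (bnd a b) C) ∧ C.card = n :=
      ⟨_, D, ⟨Finset.Subset.refl D, hne, hD⟩, rfl⟩
    obtain ⟨C, hC, hCn⟩ := Nat.find_spec hex
    refine ⟨C, hC, fun C' hC' => ?_⟩
    rw [hCn]
    exact Nat.find_min' hex ⟨C', hC', rfl⟩
  obtain ⟨hCD, ⟨e₀, he₀⟩, hCev⟩ := hC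
  set VC := Finset.univ.filter (fun v => G.deg C v ≠ 0) with hVC
  have hmemV : ∀ v, v ∈ VC ↔ G.deg C v ≠ 0 := by
    intro v
    rw [hVC, Finset.mem_filter]
    simp
  have hmult : ∀ e ∈ C, ∀ v, G.mult e v ≠ 0 → v ∈ VC := by
    intro e he v hv
    rw [hmemV]
    intro h0
    unfold MGraph.deg at h0
    rw [Finset.sum_eq_zero_iff] at h0
    exact hv (h0 e he)
  have haV : ∀ e ∈ C, a e ∈ VC := by
    intro e he
    apply hmult e he
    rw [mult_eq G (hab e)]
    simp
  have hbV : ∀ e ∈ C, b e ∈ VC := by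
    intro e he
    apply hmult e he
    rw [mult_eq G (hab e)]
    simp
  -- independence
  have hli : LinearIndependent (ZMod 2) (fun e : (C.erase e₀ : Finset E) => bnd a b (e : E)) := by
    rw [Fintype.linearIndependent_iff]
    intro g hg
    by_contra hcon
    push Not at hcon
    obtain ⟨i₀, hi₀⟩ := hcon
    set T : Finset E := Finset.image Subtype.val
      ((Finset.univ : Finset ↥(C.erase e₀)).filter (fun i => g i ≠ 0)) with hT
    have hTev : Ev (bnd a b) T := by
      unfold Ev
      rw [hT, Finset.sum_image (fun x _ y _ h => Subtype.ext h), Finset.sum_filter]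
      refine Eq.trans ?_ hg
      apply Finset.sum_congr rfl
      intro i _
      by_cases h0 : g i = 0
      · rw [if_neg (not_not.2 h0), h0, zero_smul]
      · rw [if_pos h0]
        have h1 : g i = 1 := by
          generalize g i = x at h0
          revert h0
          revert x
          decide
        rw [h1, one_smul]
    have hTC : T ⊆ C.erase e₀ := by
      intro e he
      rw [hT, Finset.mem_image] at he
      obtain ⟨i, _, rfl⟩ := he
      exact i.2
    have hTne : T.Nonempty := ⟨i₀, Finset.mem_image.2 ⟨i₀, Finset.mem_filter.2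
      ⟨Finset.mem_univ _, hi₀⟩, rfl⟩⟩
    have h1 := hmin T ⟨(hTC.trans (Finset.erase_subset _ _)).trans hCD, hTne, hTev⟩
    have h2 := Finset.card_le_card hTC
    have h3 := Finset.card_erase_lt_of_mem he₀
    omega
  have hfr := finrank_span_eq_card hli
  rw [Fintype.card_coe, Finset.card_erase_of_mem he₀] at hfr
  have hle : finrank (ZMod 2) ↥(Submodule.span (ZMod 2)
      (Set.range (fun e : (C.erase e₀ : Finset E) => bnd a b (e : E)))) ≤ VC.card - 1 := by
    have hv₁ := haV e₀ he₀
    set v₁ := a e₀ with hv₁'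
    set Q : Finset (V → ZMod 2) := (VC.erase v₁).image
      (fun v => Pi.single v₁ 1 + Pi.single v 1) with hQ
    have hstep : ∀ v ∈ VC, (Pi.single v₁ 1 + Pi.single v 1 : V → ZMod 2) ∈
        Submodule.span (ZMod 2) (Q : Set (V → ZMod 2)) := by
      intro v hv
      by_cases h : v = v₁
      · rw [h, add_self2]
        exact Submodule.zero_mem _
      · apply Submodule.subset_span
        exact Finset.mem_coe.2 (Finset.mem_image.2 ⟨v, Finset.mem_erase.2 ⟨h, hv⟩, rfl⟩)
    have h1 : Submodule.span (ZMod 2)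
        (Set.range (fun e : (C.erase e₀ : Finset E) => bnd a b (e : E))) ≤
        Submodule.span (ZMod 2) (Q : Set (V → ZMod 2)) := by
      rw [Submodule.span_le]
      rintro x ⟨e, rfl⟩
      have heC : (e : E) ∈ C := Finset.mem_of_mem_erase e.2
      have h2 := hstep _ (haV _ heC)
      rw [add_comm] at h2
      exact pair_trans h2 (hstep _ (hbV _ heC))
    have h2 := Submodule.finrank_mono h1
    have h3 : finrank (ZMod 2) ↥(Submodule.span (ZMod 2) (Q : Set (V → ZMod 2))) ≤ Q.card :=
      finrank_span_finset_le_card Q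
    have h4 : Q.card ≤ (VC.erase v₁).card := Finset.card_image_le
    rw [Finset.card_erase_of_mem hv₁] at h4
    omega
  have hVpos : 0 < VC.card := Finset.card_pos.2 ⟨_, haV e₀ he₀⟩
  have hCpos : 0 < C.card := Finset.card_pos.2 ⟨e₀, he₀⟩
  have hcard : C.card ≤ VC.card := by omega
  have hdeg2 : ∀ v ∈ VC, 2 ≤ G.deg C v := by
    intro v hv
    have h1 := (hmemV v).1 hv
    have h2 := (ev_iff G hab C).1 hCev v
    obtain ⟨m, hm⟩ := h2
    omega
  have hsum : ∑ v ∈ VC, G.deg C v = 2 * C.card := by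
    rw [← sum_deg G hab C]
    apply Finset.sum_subset (Finset.subset_univ _)
    intro v _ hv
    by_contra h
    exact hv ((hmemV v).2 h)
  have hdeg : ∀ v ∈ VC, 2 = G.deg C v := by
    apply (Finset.sum_eq_sum_iff_of_le hdeg2).1
    have h1 : ∑ v ∈ VC, 2 ≤ ∑ v ∈ VC, G.deg C v := Finset.sum_le_sum hdeg2
    rw [hsum] at h1 ⊢
    rw [Finset.sum_const, smul_eq_mul] at h1 ⊢
    omega
  obtain ⟨C', hC'C, hC', -⟩ := exists_circuit G (D := C) (by
    intro v
    by_cases hv : v ∈ VC
    · right
      exact (hdeg v hv).symm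
    · left
      by_contra h
      exact hv ((hmemV v).2 h)) ⟨e₀, he₀⟩
  exact ⟨C', hC'C.trans hCD, hC'⟩

theorem exists_circuits_of_ev (G : MGraph V E) {a b : E → V} (hab : ∀ e, G.ends e = s(a e, b e)) :
    ∀ (n : ℕ) (D : Finset E), D.card = n → Ev (bnd a b) D →
    ∃ F : Multiset (Finset E), (∀ C ∈ F, G.IsCircuit C) ∧
      ∀ e, F.countP (fun C => e ∈ C) = if e ∈ D then 1 else 0 := by
  intro n
  induction n using Nat.strong_induction_on with
  | _ n ih =>
    intro D hn hD
    rcases Finset.eq_empty_or_nonempty D with h0 | h0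
    · refine ⟨0, fun C hC => absurd hC (Multiset.notMem_zero C), fun e => ?_⟩
      rw [h0, if_neg (Finset.notMem_empty e)]
      exact Multiset.countP_zero _
    · obtain ⟨C, hCD, hC⟩ := exists_circuit_of_ev G hab hD h0
      have hCev : Ev (bnd a b) C := by
        rw [ev_iff G hab]
        intro v
        rcases hC.2.1 v with h | h <;> rw [h]
        · exact Even.zero
        · exact even_two
      have hdiff : Ev (bnd a b) (D \ C) := by
        unfold Ev at *
        have h1 := Finset.sum_sdiff (f := bnd a b) hCD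
        rw [hCev, hD, add_zero] at h1
        exact h1
      have hlt : (D \ C).card < n := by
        rw [← hn]
        apply Finset.card_lt_card
        rw [Finset.ssubset_iff_of_subset Finset.sdiff_subset]
        obtain ⟨e, he⟩ := hC.1
        exact ⟨e, hCD he, fun h' => (Finset.mem_sdiff.1 h').2 he⟩
      obtain ⟨F, hF, hcount⟩ := ih _ hlt (D \ C) rfl hdiff
      refine ⟨C ::ₘ F, fun C' hC' => ?_, fun e => ?_⟩
      · rcases Multiset.mem_cons.1 hC' with h1 | h1
        · rw [h1]; exact hC
        · exact hF C' h1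
      · rw [Multiset.countP_cons, hcount e]
        by_cases he : e ∈ C
        · rw [if_pos he, if_pos (hCD he), if_neg (fun h' => (Finset.mem_sdiff.1 h').2 he)]
        · rw [if_neg he]
          by_cases heD : e ∈ D
          · rw [if_pos heD, if_pos (Finset.mem_sdiff.2 ⟨heD, he⟩)]
          · rw [if_neg heD, if_neg (fun h' => heD (Finset.mem_sdiff.1 h').1)]

theorem cover_of_evCover (G : MGraph V E) {a b : E → V} (hab : ∀ e, G.ends e = s(a e, b e))
    {w : E → ℕ} (h : EvCover (bnd a b) w) : G.HasFaithfulCover w := by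
  classical
  obtain ⟨F, hF, hc⟩ := h
  have key : ∀ F : Multiset (Finset E), (∀ D ∈ F, Ev (bnd a b) D) →
      ∃ F' : Multiset (Finset E), (∀ C ∈ F', G.IsCircuit C) ∧
        ∀ e, F'.countP (fun C => e ∈ C) = F.countP (fun C => e ∈ C) := by
    intro F
    induction F using Multiset.induction_on with
    | empty => exact fun _ => ⟨0, fun C hC => absurd hC (Multiset.notMem_zero C), fun e => rfl⟩
    | cons D F ih =>
      intro hF
      obtain ⟨F₁, h1, h2⟩ := ih (fun D' hD' => hF D' (Multiset.mem_cons_of_mem hD'))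
      obtain ⟨F₂, h3, h4⟩ := exists_circuits_of_ev G hab _ D rfl (hF D (Multiset.mem_cons_self D F))
      refine ⟨F₂ + F₁, fun C hC => ?_, fun e => ?_⟩
      · rcases Multiset.mem_add.1 hC with h | h
        · exact h3 C h
        · exact h1 C h
      · rw [Multiset.countP_add, Multiset.countP_cons, h2, h4, add_comm]
  obtain ⟨F', h1, h2⟩ := key F hF
  exact ⟨F', h1, fun e => by rw [h2, hc]⟩

lemma eulerian_sum (G : MGraph V E) {a b : E → V} (hab : ∀ e, G.ends e = s(a e, b e)) {w : E → ℕ}
    (h : G.Eulerian w) : ∑ e, w e • bnd a b e = 0 := by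
  classical
  funext v
  rw [Finset.sum_apply]
  have h1 : ∀ e, (w e • bnd a b e) v = (if e ∈ G.cut {v} then (w e : ZMod 2) else 0) := by
    intro e
    rw [Pi.smul_apply, bnd_apply]
    have h2 := mem_cut_iff G (hab e) {v}
    rw [Finset.mem_singleton, Finset.mem_singleton] at h2
    by_cases ha : a e = v <;> by_cases hb : b e = v
    · have h5 : e ∉ G.cut {v} := by rw [h2]; tauto
      rw [if_neg h5, if_pos ha, if_pos hb]
      have : (1 : ZMod 2) + 1 = 0 := by decide
      rw [this, smul_zero]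
    · have h5 : e ∈ G.cut {v} := by rw [h2]; tauto
      rw [if_pos h5, if_pos ha, if_neg hb, add_zero, nsmul_eq_mul, mul_one]
    · have h5 : e ∈ G.cut {v} := by rw [h2]; tauto
      rw [if_pos h5, if_neg ha, if_pos hb, zero_add, nsmul_eq_mul, mul_one]
    · have h5 : e ∉ G.cut {v} := by rw [h2]; tauto
      rw [if_neg h5, if_neg ha, if_neg hb, add_zero, smul_zero]
  rw [Finset.sum_congr rfl (fun e _ => h1 e), ← Finset.sum_filter]
  have h3 : Finset.univ.filter (fun e => e ∈ G.cut {v}) = G.cut {v} := by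
    ext e; simp
  rw [h3, ← Nat.cast_sum]
  by_cases hv : ({v} : Finset V) = Finset.univ
  · have : G.cut {v} = ∅ := by
      rw [Finset.eq_empty_iff_forall_notMem]
      intro e he
      rw [mem_cut_iff G (hab e), hv] at he
      exact he ⟨fun _ => Finset.mem_univ _, fun _ => Finset.mem_univ _⟩
    rw [this]
    simp
  · exact ZMod.natCast_eq_zero_iff_even.2 (h {v} (Finset.singleton_nonempty v) hv)

lemma cw_eq (G : MGraph V E) {a b : E → V} (hab : ∀ e, G.ends e = s(a e, b e)) (x : E → ℕ)
    (X : Finset V) : cw a b x X = ∑ e ∈ G.cut X, x e := by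
  have h1 : G.cut X = Finset.univ.filter (fun e => ¬ (a e ∈ X ↔ b e ∈ X)) := by
    ext e
    rw [mem_cut_iff G (hab e), Finset.mem_filter]
    simp
  rw [h1, Finset.sum_filter]
  unfold cw
  apply Finset.sum_congr rfl
  intro e _
  by_cases h : (a e ∈ X ↔ b e ∈ X)
  · rw [if_pos h, if_neg (not_not.2 h)]
  · rw [if_neg h, if_pos h]

/-- **Cut version.** -/
theorem heavy_cuts (G : MGraph V E) (w : E → ℕ) (N : ℕ) (hN : Odd N) (hE : G.Eulerian w)
    (hw : ∀ e, w e ≤ N)
    (hc : ∀ X : Finset V, (∃ e ∈ G.cut X, 2 ≤ w e) →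
      2 * (N - 1) ≤ ∑ e ∈ G.cut X, min (w e) (N - w e)) : G.HasFaithfulCover w := by
  obtain ⟨t, ht⟩ := hN
  obtain ⟨a, b, hab⟩ := exists_ab G
  apply cover_of_evCover G hab
  refine main_core a b w (fun _ => t) t (eulerian_sum G hab hE) (fun e => ?_)
    (fun e _ h => absurd h (lt_irrefl _)) (fun X _ hX => ?_)
  · have := hw e
    rw [ht] at this
    exact this
  · obtain ⟨e, he, heX⟩ := hX
    have h1 := hc X ⟨e, (mem_cut_iff G (hab e) X).2 heX, he⟩
    rw [cw_eq G hab]
    have h2 : ∀ e ∈ G.cut X, min (w e) (N - w e) = cp w t e := by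
      intro e _
      unfold cp
      rw [ht]
    rw [Finset.sum_congr rfl h2] at h1
    refine le_trans ?_ h1
    omega

/-- the edges inside `U` whose ends are in different classes of `c` -/
def crossing (G : MGraph V E) (U : Finset V) (c : V → V) : Finset E :=
  Finset.univ.filter (fun f => (∀ v ∈ G.ends f, v ∈ U) ∧
    ∃ x ∈ G.ends f, ∃ y ∈ G.ends f, c x ≠ c y)

/-- **Version with rich sets.** -/
theorem rich_sets (G : MGraph V E) (w N : E → ℕ) (hN : ∀ e, Odd (N e)) (hE : G.Eulerian w)
    (hw : ∀ e, w e ≤ N e)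
    (hU : ∀ e, 2 ≤ w e → ∃ U : Finset V, (∀ v ∈ G.ends e, v ∈ U) ∧ ∀ c : V → V,
      (∀ f, 2 ≤ w f → N e < N f → ∀ x ∈ G.ends f, ∀ y ∈ G.ends f, c x = c y) →
      (N e - 1) * ((U.image c).card - 1) ≤
        ∑ f ∈ crossing G U c, min (w f) (N e - w f)) : G.HasFaithfulCover w := by
  classical
  obtain ⟨a, b, hab⟩ := exists_ab G
  apply cover_of_evCover G hab
  obtain ⟨s, hs⟩ : ∃ s : E → ℕ, ∀ e, s e = if 2 ≤ w e then (N e - 1) / 2 else 0 := ⟨_, fun _ => rfl⟩
  have hs2 : ∀ e, 2 ≤ w e → N e = 2 * s e + 1 := by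
    intro e he
    obtain ⟨t, ht⟩ := hN e
    rw [hs e, if_pos he]
    omega
  have hs1 : ∀ e, 0 < s e → 2 ≤ w e := by
    intro e he
    by_contra h
    rw [hs e, if_neg h] at he
    omega
  refine main_core a b w s 0 (eulerian_sum G hab hE) (fun e => ?_) (fun e _ h => ?_)
    (fun X _ _ => by omega)
  · by_cases h : 2 ≤ w e
    · have := hw e
      rw [hs2 e h] at this
      exact this
    · omega
  · have he := hs1 e h
    obtain ⟨U, hU1, hU2⟩ := hU e he
    rw [hab e] at hU1
    refine ⟨U, hU1 _ (Sym2.mem_mk_left _ _), hU1 _ (Sym2.mem_mk_right _ _), ?_⟩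
    intro c hc
    have h1 := hU2 c (fun f hf hNf x hx y hy => by
      have h2 := hs2 f hf
      have h3 := hs2 e he
      have h4 := hc f (by omega) (by omega)
      rw [hab f, Sym2.mem_iff] at hx hy
      rcases hx with rfl | rfl <;> rcases hy with rfl | rfl
      · rfl
      · exact h4
      · exact h4.symm
      · rfl)
    have h2 : crossing G U c = Finset.univ.filter
        (fun f => a f ∈ U ∧ b f ∈ U ∧ c (a f) ≠ c (b f)) := by
      ext f
      unfold crossing
      rw [Finset.mem_filter, Finset.mem_filter, hab f]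
      simp only [Finset.mem_univ, true_and, Sym2.mem_iff]
      constructor
      · rintro ⟨h3, x, hx, y, hy, hxy⟩
        refine ⟨h3 _ (Or.inl rfl), h3 _ (Or.inr rfl), ?_⟩
        rcases hx with rfl | rfl <;> rcases hy with rfl | rfl
        · exact absurd rfl hxy
        · exact hxy
        · exact fun h => hxy h.symm
        · exact absurd rfl hxy
      · rintro ⟨h3, h4, h5⟩
        refine ⟨?_, a f, Or.inl rfl, b f, Or.inr rfl, h5⟩
        rintro v (rfl | rfl)
        · exact h3
        · exact h4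
    rw [h2] at h1
    have h3 : ∀ f ∈ Finset.univ.filter (fun f => a f ∈ U ∧ b f ∈ U ∧ c (a f) ≠ c (b f)),
        min (w f) (N e - w f) = cp w (s e) f := by
      intro f _
      unfold cp
      rw [hs2 e he]
    rw [Finset.sum_congr rfl h3] at h1
    have h4 : N e - 1 = 2 * s e := by
      rw [hs2 e he]
      omega
    rw [h4] at h1
    exact h1

end Pool.Agent.FCCov
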